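import Pool.Agent.Helper8.STR.E01
import Pool.Agent.Helper22.SCE.M11

/-!
# STR-E03: the outer integrals
On `[1/10, pi/R]` (length `<= 0.5982`) and for `-b in [1/10, 0.39]` (length `0.29`):
`exp(n Re hh) <= e^(-0.0074 n)` (E01 `mid_pos`, `mid_neg`); on `[pi/R, pi]` and `-b in [0.39, pi]`
(total length `<= 6.3`): `exp(n Re hh) <= e^(-0.012 n)` (E01 `far_pos`, D01 `far_neg`).
`sqrt(1.05 n R/(2 pi)) <= sqrt(1.05*8/(2 pi)) sqrt n <= 1.1563 sqrt n`; `sqrt n e^(-0.0074 n)` is
decreasing for `n >= 1000`: `31.63*6.1126e-4 = 0.019334` (`e^(-7.4)`), `31.63 e^(-12) <= 1.95e-4`.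
Total `<= 1.1563 (0.889*0.019334 + 6.3*1.95e-4) <= 0.01988 + 0.00143 <= 0.022`.
(For `n >= 1000`: `sqrt(n/1000) <= e^((n-1000)/2000) <= e^(0.0074(n-1000))`.)
-/

namespace STR

open Complex SCE

private theorem int_le_const {f : ℝ → ℝ} (hf : Continuous f) {a b C : ℝ} (hab : a ≤ b)
    (h : ∀ x ∈ Set.Icc a b, f x ≤ C) : ∫ x in a..b, f x ≤ C * (b - a) := by
  have h1 := intervalIntegral.integral_mono_on (μ := MeasureTheory.volume) hab
    (hf.intervalIntegrable _ _) (intervalIntegrable_const (c := C)) h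
  rw [intervalIntegral.integral_const, smul_eq_mul] at h1
  linarith

private theorem sqrt_mul_exp {n a : ℝ} (hn : 1000 ≤ n) (ha : 1 / 2000 ≤ a) :
    Real.sqrt n * Real.exp (-(a * n)) ≤ 3163 / 100 * Real.exp (-(a * 1000)) := by
  have h0 : (0 : ℝ) < n := by linarith
  have h1 : Real.sqrt n ≤ 3163 / 100 * Real.exp ((n - 1000) / 2000) := by
    rw [Real.sqrt_le_left (by positivity), mul_pow, ← Real.exp_nat_mul]
    have h2 : ((2 : ℕ) : ℝ) * ((n - 1000) / 2000) = n / 1000 - 1 := by push_cast; ring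
    rw [h2]
    have h3 := Real.add_one_le_exp (n / 1000 - 1)
    nlinarith
  calc Real.sqrt n * Real.exp (-(a * n))
      ≤ 3163 / 100 * Real.exp ((n - 1000) / 2000) * Real.exp (-(a * n)) :=
        mul_le_mul_of_nonneg_right h1 (Real.exp_pos _).le
    _ = 3163 / 100 * Real.exp ((n - 1000) / 2000 + -(a * n)) := by
        rw [Real.exp_add]
        ring
    _ ≤ _ := by
        refine mul_le_mul_of_nonneg_left (Real.exp_le_exp.2 ?_) (by norm_num)
        nlinarith

private theorem exp_74 : Real.exp (-(74 / 10000 * 1000)) ≤ 1 / 1600 := by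
  rw [show -(74 / 10000 * 1000 : ℝ) = -(37 / 5) by norm_num, Real.exp_neg, ← one_div]
  refine one_div_le_one_div_of_le (by norm_num) ?_
  have h1 : Real.exp (37 / 5) = Real.exp 1 ^ 7 * Real.exp (2 / 5) := by
    rw [← Real.exp_nat_mul, ← Real.exp_add]
    congr 1
    norm_num
  rw [h1]
  have h2 : (2.718 : ℝ) ≤ Real.exp 1 := by
    have := Real.exp_one_gt_d9
    linarith
  have h3 : (2.718 : ℝ) ^ 7 ≤ Real.exp 1 ^ 7 := pow_le_pow_left₀ (by norm_num) h2 7
  have h4 : (148 / 100 : ℝ) ≤ Real.exp (2 / 5) := by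
    have := Real.quadratic_le_exp_of_nonneg (x := 2 / 5) (by norm_num)
    linarith
  calc (1600 : ℝ) ≤ (2.718 : ℝ) ^ 7 * (148 / 100) := by norm_num
    _ ≤ _ := mul_le_mul h3 h4 (by norm_num) (by positivity)

private theorem exp_12 : Real.exp (-(12 / 1000 * 1000)) ≤ 1 / 160000 := by
  rw [show -(12 / 1000 * 1000 : ℝ) = -12 by norm_num, Real.exp_neg, ← one_div]
  refine one_div_le_one_div_of_le (by norm_num) ?_
  have h1 : Real.exp 12 = Real.exp 1 ^ 12 := by
    rw [← Real.exp_nat_mul]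
    congr 1
    norm_num
  rw [h1]
  have h2 : (2.718 : ℝ) ≤ Real.exp 1 := by
    have := Real.exp_one_gt_d9
    linarith
  have h3 : (2.718 : ℝ) ^ 12 ≤ Real.exp 1 ^ 12 := pow_le_pow_left₀ (by norm_num) h2 12
  refine le_trans ?_ h3
  norm_num

theorem outer {R x p n : ℝ} (h : Rg R x p) (hn : 1000 ≤ n) :
    Real.sqrt (105 / 100 * n * R / (2 * Real.pi)) *
      ((∫ b in (1 / 10 : ℝ)..Real.pi, Real.exp (n * (hh (zz x p) b).re)) +
        ∫ a in (1 / 10 : ℝ)..Real.pi, Real.exp (n * (hh (zz x p) (-a)).re)) ≤ 22 / 1000 := by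
  have hR := h.hR
  have hR8 := h.hR8
  have hR0 : 0 < R := by linarith
  have hn0 : 0 < n := by linarith
  have hpi1 := Real.pi_gt_d4
  have hpi2 := Real.pi_lt_d4
  have hcont : Continuous fun b : ℝ => Real.exp (n * (hh (zz x p) b).re) :=
    Real.continuous_exp.comp (continuous_const.mul (Complex.continuous_re.comp (hh_cont _)))
  have hcont2 : Continuous fun a : ℝ => Real.exp (n * (hh (zz x p) (-a)).re) :=
    Real.continuous_exp.comp (continuous_const.mul
      (Complex.continuous_re.comp ((hh_cont _).comp continuous_neg)))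
  obtain ⟨E1, hE1⟩ : ∃ E1, E1 = Real.exp (-(74 / 10000 * n)) := ⟨_, rfl⟩
  obtain ⟨E2, hE2⟩ : ∃ E2, E2 = Real.exp (-(12 / 1000 * n)) := ⟨_, rfl⟩
  have hE1p : 0 < E1 := by rw [hE1]; exact Real.exp_pos _
  have hE2p : 0 < E2 := by rw [hE2]; exact Real.exp_pos _
  have q1 : Real.pi / R ≤ 6982 / 10000 := by
    rw [div_le_iff₀ hR0]
    linarith
  have q2 : 39 / 100 ≤ Real.pi / R := by
    rw [le_div_iff₀ hR0]
    linarith
  have i1 : ∫ b in (1 / 10 : ℝ)..(Real.pi / R), Real.exp (n * (hh (zz x p) b).re) ≤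
      E1 * (Real.pi / R - 1 / 10) := by
    refine int_le_const hcont (by linarith) fun b hb => ?_
    rw [hE1, Real.exp_le_exp]
    have := mid_pos h hb.1 (by linarith [hb.2])
    nlinarith
  have i2 : ∫ b in (Real.pi / R)..Real.pi, Real.exp (n * (hh (zz x p) b).re) ≤
      E2 * (Real.pi - Real.pi / R) := by
    refine int_le_const hcont (by linarith) fun b hb => ?_
    rw [hE2, Real.exp_le_exp]
    have := far_pos h hb.1 hb.2
    nlinarith
  have i3 : ∫ a in (1 / 10 : ℝ)..(39 / 100), Real.exp (n * (hh (zz x p) (-a)).re) ≤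
      E1 * (39 / 100 - 1 / 10) := by
    refine int_le_const hcont2 (by norm_num) fun b hb => ?_
    rw [hE1, Real.exp_le_exp]
    have := mid_neg h hb.1 (by linarith [hb.2])
    nlinarith
  have i4 : ∫ a in (39 / 100 : ℝ)..Real.pi, Real.exp (n * (hh (zz x p) (-a)).re) ≤
      E2 * (Real.pi - 39 / 100) := by
    refine int_le_const hcont2 (by linarith) fun b hb => ?_
    rw [hE2, Real.exp_le_exp]
    have := far_neg h hb.1 hb.2
    nlinarith
  have s1 : (∫ b in (1 / 10 : ℝ)..Real.pi, Real.exp (n * (hh (zz x p) b).re)) =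
      (∫ b in (1 / 10 : ℝ)..(Real.pi / R), Real.exp (n * (hh (zz x p) b).re)) +
        ∫ b in (Real.pi / R)..Real.pi, Real.exp (n * (hh (zz x p) b).re) :=
    (intervalIntegral.integral_add_adjacent_intervals (hcont.intervalIntegrable _ _)
      (hcont.intervalIntegrable _ _)).symm
  have s2 : (∫ a in (1 / 10 : ℝ)..Real.pi, Real.exp (n * (hh (zz x p) (-a)).re)) =
      (∫ a in (1 / 10 : ℝ)..(39 / 100), Real.exp (n * (hh (zz x p) (-a)).re)) +
        ∫ a in (39 / 100 : ℝ)..Real.pi, Real.exp (n * (hh (zz x p) (-a)).re) :=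
    (intervalIntegral.integral_add_adjacent_intervals (hcont2.intervalIntegrable _ _)
      (hcont2.intervalIntegrable _ _)).symm
  rw [s1, s2]
  have hsum : (∫ b in (1 / 10 : ℝ)..(Real.pi / R), Real.exp (n * (hh (zz x p) b).re)) +
        (∫ b in (Real.pi / R)..Real.pi, Real.exp (n * (hh (zz x p) b).re)) +
      ((∫ a in (1 / 10 : ℝ)..(39 / 100), Real.exp (n * (hh (zz x p) (-a)).re)) +
        ∫ a in (39 / 100 : ℝ)..Real.pi, Real.exp (n * (hh (zz x p) (-a)).re)) ≤
      889 / 1000 * E1 + 63 / 10 * E2 := by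
    nlinarith
  have hL : Real.sqrt (105 / 100 * n * R / (2 * Real.pi)) ≤ 11563 / 10000 * Real.sqrt n := by
    rw [Real.sqrt_le_left (by positivity), mul_pow, Real.sq_sqrt hn0.le, div_le_iff₀ (by positivity)]
    have h1 : 105 / 100 * n * R ≤ 105 / 100 * n * 8 :=
      mul_le_mul_of_nonneg_left hR8 (by positivity)
    have h2 : (11563 / 10000 : ℝ) ^ 2 * n * (2 * 3.1415) ≤ (11563 / 10000) ^ 2 * n * (2 * Real.pi) :=
      mul_le_mul_of_nonneg_left (by linarith) (by positivity)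
    refine h1.trans (le_trans ?_ h2)
    nlinarith
  have hsn : 0 ≤ Real.sqrt n := Real.sqrt_nonneg n
  have u1 : Real.sqrt n * E1 ≤ 3163 / 100 * (1 / 1600) := by
    rw [hE1]
    exact (sqrt_mul_exp hn (by norm_num)).trans (mul_le_mul_of_nonneg_left exp_74 (by norm_num))
  have u2 : Real.sqrt n * E2 ≤ 3163 / 100 * (1 / 160000) := by
    rw [hE2]
    exact (sqrt_mul_exp hn (by norm_num)).trans (mul_le_mul_of_nonneg_left exp_12 (by norm_num))
  calc Real.sqrt (105 / 100 * n * R / (2 * Real.pi)) * _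
      ≤ Real.sqrt (105 / 100 * n * R / (2 * Real.pi)) * (889 / 1000 * E1 + 63 / 10 * E2) :=
        mul_le_mul_of_nonneg_left hsum (Real.sqrt_nonneg _)
    _ ≤ (11563 / 10000 * Real.sqrt n) * (889 / 1000 * E1 + 63 / 10 * E2) :=
        mul_le_mul_of_nonneg_right hL (by positivity)
    _ = 11563 / 10000 * (889 / 1000 * (Real.sqrt n * E1) + 63 / 10 * (Real.sqrt n * E2)) := by ring
    _ ≤ _ := by linarith

end STR
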