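import Pool.Agent.Helper8.STR.E02
import Pool.Agent.Helper8.STR.E03
import Pool.Agent.Helper22.SCE.M12

/-!
# STR-E04: the sharp statement on the ring
`norm(2 pi/(n kappa))^(1/2) = sqrt(2 pi/(n |kappa|)) >= sqrt(2 pi/(1.05 n R))` (C01 `kap_norm`), i.e.
`L * |(2 pi/(n kappa))^(1/2)| >= 1`, `L = sqrt(1.05 n R/(2 pi))`.  So it suffices that
`L * |int_{-pi}^{pi} exp(n hh) - (2 pi/(n kappa))^(1/2)| <= 1/4`.  Split the integral at
`-1/10, 1/10`:
* central minus Gaussian: E02: `<= 0.198`;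
* Gaussian on `[-1/10, 1/10]` minus full Gaussian: `SCE.gauss_tail` (M12 with its `R := 10`):
  `L (20/(n Re kappa)) e^(-n Re kappa/200)`, `n Re kappa >= 2700` (C01 `kap_re`), `L/n <= 0.0366`
  (`L^2/n^2 = 1.05 R/(2 pi n) <= 0.001337`): `<= 0.0366*(20/2.7) e^(-13.5) <= 0.001`;
* `|exp(n hh)| = exp(n Re hh)` on `[1/10, pi]` and `[-pi, -1/10]` (substitute `b = -a`): E03:
  `<= 0.022`.
Total `<= 0.221 <= 1/4`.
-/

namespace STR

open Complex SCE

theorem sharp {R x p n : ℝ} (h : Rg R x p) (hn : 1000 ≤ n) :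
    ‖(∫ b in (-Real.pi)..Real.pi, exp (n * hh (zz x p) b))
        - ((2 * Real.pi / (n * kap (zz x p)) : ℂ)) ^ (1 / 2 : ℂ)‖ ≤
      1 / 4 * ‖((2 * Real.pi / (n * kap (zz x p)) : ℂ)) ^ (1 / 2 : ℂ)‖ := by
  have hn0 : (0 : ℝ) < n := by linarith
  have hpi := Real.pi_pos
  have hpi3 : (3.14 : ℝ) < Real.pi := Real.pi_gt_d2
  have hR := h.hR
  have hR8 := h.hR8
  have hR0 : (0 : ℝ) < R := by linarith
  have hkre := kap_re h
  have hknorm := kap_norm h
  have hcen := central h hn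
  have hout := outer h hn
  generalize hκ : kap (zz x p) = κ at *
  have hκre : 27 / 10 ≤ κ.re := by linarith
  have hκpos : 0 < κ.re := by linarith
  have hκn : 0 < ‖κ‖ := lt_of_lt_of_le hκpos (Complex.re_le_norm κ)
  have hgt := SCE.gauss_tail (κ := κ) (n := n) (R := 10) hn0 (by norm_num) hκpos
  generalize hGs : ((2 * Real.pi / (n * κ) : ℂ)) ^ (1 / 2 : ℂ) = Gs at *
  generalize hL : Real.sqrt (105 / 100 * n * R / (2 * Real.pi)) = L at *
  -- the norm of the Gaussian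
  have hGn : ‖Gs‖ = Real.sqrt (2 * Real.pi / (n * ‖κ‖)) := by
    rw [← hGs]
    have e1 : (1 / 2 : ℂ) = ((1 / 2 : ℝ) : ℂ) := by push_cast; ring
    rw [e1, Complex.norm_cpow_real, Real.sqrt_eq_rpow]
    congr 1
    rw [norm_div, norm_mul, norm_mul, Complex.norm_real, Complex.norm_real]
    simp only [Complex.norm_ofNat, Real.norm_eq_abs, abs_of_pos hpi, abs_of_pos hn0]
  have hLpos : 0 < L := by
    rw [← hL]
    exact Real.sqrt_pos.mpr (by positivity)
  have hLG : 1 ≤ L * ‖Gs‖ := by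
    rw [← hL, hGn, ← Real.sqrt_mul (by positivity)]
    rw [Real.one_le_sqrt]
    have e2 : 105 / 100 * n * R / (2 * Real.pi) * (2 * Real.pi / (n * ‖κ‖))
        = 105 / 100 * R / ‖κ‖ := by
      field_simp
    rw [e2, le_div_iff₀ hκn]
    linarith
  suffices hs : L * ‖(∫ b in (-Real.pi)..Real.pi, exp (n * hh (zz x p) b)) - Gs‖ ≤ 1 / 4 by
    have h2 : L * ‖(∫ b in (-Real.pi)..Real.pi, exp (n * hh (zz x p) b)) - Gs‖
        ≤ L * (1 / 4 * ‖Gs‖) := by
      calc _ ≤ 1 / 4 := hs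
        _ ≤ 1 / 4 * (L * ‖Gs‖) := by linarith
        _ = _ := by ring
    exact le_of_mul_le_mul_left h2 hLpos
  -- continuity
  have hc1 : Continuous fun b : ℝ => exp (n * hh (zz x p) b) :=
    (continuous_const.mul (hh_cont _)).cexp
  have hc2 : Continuous fun b : ℝ => exp (-(n * κ * b ^ 2 / 2)) := by fun_prop
  have hi1 : ∀ a b : ℝ, IntervalIntegrable (fun b : ℝ => exp (n * hh (zz x p) b))
      MeasureTheory.volume a b := fun a b => hc1.intervalIntegrable a b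
  have hi2 : ∀ a b : ℝ, IntervalIntegrable (fun b : ℝ => exp (-(n * κ * b ^ 2 / 2)))
      MeasureTheory.volume a b := fun a b => hc2.intervalIntegrable a b
  have hsplit : (∫ b in (-Real.pi)..Real.pi, exp (n * hh (zz x p) b)) - Gs
      = (∫ b in (-(1 / 10) : ℝ)..(1 / 10),
            (exp (n * hh (zz x p) b) - exp (-(n * κ * b ^ 2 / 2))))
        + ((∫ b in (-(1 / 10) : ℝ)..(1 / 10), exp (-(n * κ * b ^ 2 / 2))) - Gs)
        + (∫ b in (1 / 10 : ℝ)..Real.pi, exp (n * hh (zz x p) b))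
        + (∫ a in (1 / 10 : ℝ)..Real.pi, exp (n * hh (zz x p) (-a))) := by
    rw [intervalIntegral.integral_sub (hi1 _ _) (hi2 _ _)]
    have e3 : (∫ a in (1 / 10 : ℝ)..Real.pi, exp (n * hh (zz x p) (-a)))
        = ∫ b in (-Real.pi)..(-(1 / 10)), exp (n * hh (zz x p) b) :=
      intervalIntegral.integral_comp_neg (fun b : ℝ => exp (n * hh (zz x p) b))
    rw [e3, ← intervalIntegral.integral_add_adjacent_intervals (hi1 (-Real.pi) (1 / 10))
      (hi1 (1 / 10) Real.pi),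
      ← intervalIntegral.integral_add_adjacent_intervals (hi1 (-Real.pi) (-(1 / 10)))
      (hi1 (-(1 / 10)) (1 / 10))]
    ring
  have hn1 : ‖∫ b in (-(1 / 10) : ℝ)..(1 / 10),
        (exp (n * hh (zz x p) b) - exp (-(n * κ * b ^ 2 / 2)))‖
      ≤ ∫ b in (-(1 / 10) : ℝ)..(1 / 10),
        ‖exp (n * hh (zz x p) b) - exp (-(n * κ * b ^ 2 / 2))‖ :=
    intervalIntegral.norm_integral_le_integral_norm (by norm_num)
  have hpi10 : (1 / 10 : ℝ) ≤ Real.pi := by linarith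
  have hne : ∀ b : ℝ, ‖exp (n * hh (zz x p) b)‖ = Real.exp (n * (hh (zz x p) b).re) := by
    intro b
    rw [Complex.norm_exp, Complex.re_ofReal_mul]
  have hn2 : ‖∫ b in (1 / 10 : ℝ)..Real.pi, exp (n * hh (zz x p) b)‖
      ≤ ∫ b in (1 / 10 : ℝ)..Real.pi, Real.exp (n * (hh (zz x p) b).re) := by
    refine (intervalIntegral.norm_integral_le_integral_norm hpi10).trans (le_of_eq ?_)
    exact intervalIntegral.integral_congr fun b _ => hne b
  have hn3 : ‖∫ a in (1 / 10 : ℝ)..Real.pi, exp (n * hh (zz x p) (-a))‖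
      ≤ ∫ a in (1 / 10 : ℝ)..Real.pi, Real.exp (n * (hh (zz x p) (-a)).re) := by
    refine (intervalIntegral.norm_integral_le_integral_norm hpi10).trans (le_of_eq ?_)
    exact intervalIntegral.integral_congr fun b _ => hne (-b)
  -- the Gaussian tail
  have hT : L * (2 * 10 / (n * κ.re) * Real.exp (-(n * κ.re) / (2 * 10 ^ 2))) ≤ 30 / 1000 := by
    have hLn : L ≤ 367 / 10000 * n := by
      rw [← hL]
      apply Real.sqrt_le_iff.mpr
      refine ⟨by positivity, ?_⟩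
      rw [div_le_iff₀ (by positivity)]
      have h5 : 105 / 100 * n * R ≤ 84 / 10 * n := by nlinarith
      have h6 : 84 / 10 * n ≤ (367 / 10000 * n) ^ 2 * (2 * 3.14) := by nlinarith
      have h7 : (367 / 10000 * n) ^ 2 * (2 * 3.14) ≤ (367 / 10000 * n) ^ 2 * (2 * Real.pi) := by
        apply mul_le_mul_of_nonneg_left _ (by positivity)
        linarith
      linarith
    have hal : 2700 ≤ n * κ.re := by nlinarith
    have hal0 : 0 < n * κ.re := by linarith
    have hex : Real.exp (-(n * κ.re) / (2 * 10 ^ 2)) ≤ 2 / 29 := by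
      have h8 : (29 / 2 : ℝ) ≤ Real.exp (n * κ.re / 200) := by
        have := Real.add_one_le_exp (n * κ.re / 200)
        linarith
      have e4 : -(n * κ.re) / (2 * 10 ^ 2) = -(n * κ.re / 200) := by ring
      rw [e4, Real.exp_neg, inv_le_comm₀ (Real.exp_pos _) (by norm_num)]
      simpa using h8
    have h9 : L * (2 * 10 / (n * κ.re)) ≤ 367 / 10000 * (200 / 27) := by
      rw [mul_div_assoc', div_le_iff₀ hal0]
      nlinarith
    calc L * (2 * 10 / (n * κ.re) * Real.exp (-(n * κ.re) / (2 * 10 ^ 2)))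
        = L * (2 * 10 / (n * κ.re)) * Real.exp (-(n * κ.re) / (2 * 10 ^ 2)) := by ring
      _ ≤ 367 / 10000 * (200 / 27) * (2 / 29) := by
          apply mul_le_mul h9 hex (Real.exp_pos _).le (by norm_num)
      _ ≤ 30 / 1000 := by norm_num
  rw [hsplit]
  have hnorm := norm_add_le ((∫ b in (-(1 / 10) : ℝ)..(1 / 10),
            (exp (n * hh (zz x p) b) - exp (-(n * κ * b ^ 2 / 2))))
        + ((∫ b in (-(1 / 10) : ℝ)..(1 / 10), exp (-(n * κ * b ^ 2 / 2))) - Gs)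
        + (∫ b in (1 / 10 : ℝ)..Real.pi, exp (n * hh (zz x p) b)))
        (∫ a in (1 / 10 : ℝ)..Real.pi, exp (n * hh (zz x p) (-a)))
  have hnorm2 := norm_add_le ((∫ b in (-(1 / 10) : ℝ)..(1 / 10),
            (exp (n * hh (zz x p) b) - exp (-(n * κ * b ^ 2 / 2))))
        + ((∫ b in (-(1 / 10) : ℝ)..(1 / 10), exp (-(n * κ * b ^ 2 / 2))) - Gs))
        (∫ b in (1 / 10 : ℝ)..Real.pi, exp (n * hh (zz x p) b))
  have hnorm3 := norm_add_le (∫ b in (-(1 / 10) : ℝ)..(1 / 10),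
            (exp (n * hh (zz x p) b) - exp (-(n * κ * b ^ 2 / 2))))
        ((∫ b in (-(1 / 10) : ℝ)..(1 / 10), exp (-(n * κ * b ^ 2 / 2))) - Gs)
  have htot := hnorm.trans (add_le_add (hnorm2.trans (add_le_add (hnorm3.trans
    (add_le_add hn1 hgt)) hn2)) hn3)
  have htot2 := mul_le_mul_of_nonneg_left htot hLpos.le
  refine htot2.trans ?_
  rw [mul_add, mul_add, mul_add]
  rw [mul_add] at hout
  linarith

theorem rg_of {z : ℂ} (h1 : 9 / 2 ≤ ‖z‖) (h8 : ‖z‖ ≤ 8) (h2 : z.im ≤ 0)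
    (h3 : -(21 / 8) ≤ z.im) (h4 : 0 < z.re) :
    Rg ‖z‖ z.re (-z.im) ∧ zz z.re (-z.im) = z := by
  refine ⟨⟨h1, h8, by linarith, by linarith, h4, ?_⟩, ?_⟩
  · rw [Complex.sq_norm, Complex.normSq_apply]
    ring
  · unfold zz
    apply Complex.ext <;> simp

end STR
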