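import Pool.Agent.Helper8.STR.Defs

/-!
# STR-A01: elementary facts on the parameters
* `x_le`: `x^2 <= R^2`.
* `x_ge`: `x^2 = R^2 - p^2 >= 20.25 - 6.890625 = 13.359375 >= 3.655^2 = 13.359025`.
* `x_ge_of_p`: `x^2 >= 20.25 - P^2 >= x1^2` (`p <= P`).
* `x_geR`: `R (R - x) = p^2 R/(R+x) <= 6.890625/(1 + x/R)` and `x/R >= 0.8122`
  (`x^2 >= R^2(1 - 6.890625/20.25)`), so `R(R-x) <= 3.81`.
* `x_chord`: `(1.114 R - 1.359)^2 <= R^2 - 441/64` on `[9/2, 8]`: the quadratic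
  `0.240996 R^2 - 3.027852 R + 8.7375...` is negative at both end points (convex); so
  `1.114 R - 1.359 <= x`.
* `SS_sq`: `S^2 = (x-2)^2 + p^2 = R^2 - 4x + 4`.
* `SS_ge`: `x <= R` gives `S^2 >= (R-2)^2`; `SS_geA`: `S^2 >= (x-2)^2`.
* `SS_le`: `S^2 <= (R-2)^2 + 15.24/R <= (R - 2 + 7.62/(R(R-2)))^2`.
* `q_le`: `p/(x-2) <= 2.625/1.655 <= 1.5862`.
* `RmX`: `R - x = p^2/(R+x) <= 6.890625/(4.5+3.655) <= 0.845`.
-/

namespace STR

private theorem a01_p2 {R x p : ℝ} (h : Rg R x p) : p ^ 2 ≤ 441 / 64 := by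
  have h1 := pow_le_pow_left₀ h.hp0 h.hp 2
  norm_num at h1
  exact h1

theorem x_le {R x p : ℝ} (h : Rg R x p) : x ≤ R := by
  have h1 := h.hxp
  have h2 := h.hR
  have h3 := h.hx
  have h4 := sq_nonneg p
  by_contra hc
  push Not at hc
  nlinarith

theorem x_ge {R x p : ℝ} (h : Rg R x p) : 3655 / 1000 ≤ x := by
  have h1 := h.hxp
  have h2 := h.hR
  have h3 := h.hx
  have h4 := a01_p2 h
  by_contra hc
  push Not at hc
  nlinarith

theorem x_ge_of_p {R x p P x1 : ℝ} (h : Rg R x p) (hp : p ≤ P) (hx1 : x1 ^ 2 + P ^ 2 ≤ 81 / 4) :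
    x1 ≤ x := by
  have h1 := h.hxp
  have h2 := h.hR
  have h3 := h.hx
  have h4 : p ^ 2 ≤ P ^ 2 := pow_le_pow_left₀ h.hp0 hp 2
  by_contra hc
  push Not at hc
  have h5 : x ^ 2 < x1 ^ 2 := by nlinarith
  nlinarith

theorem x_geR {R x p : ℝ} (h : Rg R x p) : R - 381 / 100 / R ≤ x := by
  have h1 := h.hxp
  have h2 := h.hR
  have h3 := h.hx
  have h4 := a01_p2 h
  have hR0 : 0 < R := by linarith
  have h5 : 81 / 100 * R ≤ x := by
    by_contra hc
    push Not at hc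
    have h6 : x ^ 2 < (81 / 100 * R) ^ 2 := by nlinarith
    nlinarith
  have h6 : R * (R - x) ≤ 381 / 100 := by
    by_contra hc
    push Not at hc
    have h7 : 381 / 100 * (R + x) < R * (R - x) * (R + x) :=
      mul_lt_mul_of_pos_right hc (by linarith)
    have h8 : R * (R - x) * (R + x) = R * p ^ 2 := by
      have : p ^ 2 = R ^ 2 - x ^ 2 := by linarith
      rw [this]
      ring
    rw [h8] at h7
    nlinarith
  rw [sub_le_iff_le_add, ← sub_le_iff_le_add', le_div_iff₀ hR0]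
  linarith

theorem x_chord {R x p : ℝ} (h : Rg R x p) : 1114 / 1000 * R - 1359 / 1000 ≤ x := by
  have h1 := h.hxp
  have h2 := h.hR
  have h3 := h.hx
  have h4 := a01_p2 h
  have h5 := h.hR8
  by_contra hc
  push Not at hc
  have h6 : x ^ 2 < (1114 / 1000 * R - 1359 / 1000) ^ 2 := by nlinarith
  have h7 : 0 ≤ (R - 9 / 2) * (8 - R) := mul_nonneg (by linarith) (by linarith)
  nlinarith

theorem SS_sq {R x p : ℝ} (h : Rg R x p) : SS x p ^ 2 = R ^ 2 - 4 * x + 4 := by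
  unfold SS
  rw [Real.sq_sqrt (by positivity), ← h.hxp]
  ring

theorem SS_sq' (x p : ℝ) : SS x p ^ 2 = (x - 2) ^ 2 + p ^ 2 := by
  unfold SS
  exact Real.sq_sqrt (by positivity)

theorem SS_ge {R x p : ℝ} (h : Rg R x p) : R - 2 ≤ SS x p := by
  unfold SS
  refine (le_abs_self _).trans (Real.abs_le_sqrt ?_)
  have h1 := h.hxp
  have h2 := x_le h
  nlinarith

theorem SS_geA (x p : ℝ) : x - 2 ≤ SS x p := by
  unfold SS
  refine (le_abs_self _).trans (Real.abs_le_sqrt ?_)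
  have := sq_nonneg p
  linarith

theorem SS_le {R x p : ℝ} (h : Rg R x p) : SS x p ≤ R - 2 + 762 / 100 / (R * (R - 2)) := by
  unfold SS
  have h2 := h.hR
  have hR0 : 0 < R := by linarith
  have hR2 : 0 < R - 2 := by linarith
  have h3 := x_geR h
  have h4 : 0 ≤ 762 / 100 / (R * (R - 2)) := by positivity
  rw [Real.sqrt_le_iff]
  refine ⟨by linarith, ?_⟩
  have h5 : (x - 2) ^ 2 + p ^ 2 = R ^ 2 - 4 * x + 4 := by
    rw [← h.hxp]
    ring
  have h6 : (R - 2 + 762 / 100 / (R * (R - 2))) ^ 2 =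
      (R - 2) ^ 2 + 4 * (381 / 100 / R) + (762 / 100 / (R * (R - 2))) ^ 2 := by
    field_simp
    ring
  rw [h5, h6]
  have h7 := sq_nonneg (762 / 100 / (R * (R - 2)))
  linarith

theorem q_le {R x p : ℝ} (h : Rg R x p) : 0 ≤ p / (x - 2) ∧ p / (x - 2) ≤ 15862 / 10000 := by
  have h1 := x_ge h
  have h2 : 0 < x - 2 := by linarith
  refine ⟨div_nonneg h.hp0 h2.le, ?_⟩
  rw [div_le_iff₀ h2]
  have h3 := h.hp
  linarith

theorem RmX {R x p : ℝ} (h : Rg R x p) : R - x ≤ 845 / 1000 := by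
  have h1 := x_ge h
  have h2 := h.hR
  have h3 := a01_p2 h
  have h4 := h.hxp
  by_contra hc
  push Not at hc
  have h5 : (R - x) * (R + x) = p ^ 2 := by
    have : p ^ 2 = R ^ 2 - x ^ 2 := by linarith
    rw [this]
    ring
  have h6 : 845 / 1000 * (R + x) < (R - x) * (R + x) := mul_lt_mul_of_pos_right hc (by linarith)
  linarith

end STR
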