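import Pool.Agent.Helper8.STR.A01

/-!
# STR-A02: numerical bounds for `e^(-x)`
* `exp_x`: put `t = x - 3.655 >= 0`: `e^(-x) = e^(-3.655) e^(-t)`, `e^t >= 1 + t + t^2/2` and
  `e^(-3.655) = 0.0258612 <= 0.02587` (`e^3.655 >= 38.66`: for instance
  `e^3.655 = (e^(0.731))^5`, `e^0.731 >= 2.0771` by `Real.sum_le_exp_of_nonneg`, or from
  `Real.exp_one_gt_d9` and `e^0.655`).
* `exp_238`: `e^(-2.38) = 0.0925506 <= 0.0926`.
* `eps_abs`: `R <= R_m(x) := sqrt(x^2+441/64) <= 4.5 + t` (as `x^2 + 6.890625 <= (4.5+t)^2` for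
  `x = 3.655 + t`), so `(R+2) e^(-x) <= (6.5+t) 0.02587/(1+t) <= 6.5*0.02587 = 0.168155 <= 0.169`.
* `eps_le`: `(R+2) e^(-x) <= 0.0545 S`.  For `x <= 9/2`: `S^2 = R^2 + 4 - 4x`, and
  `(R+2)^2/(R^2+4-4x)` is decreasing in `R >= 9/2` (cross-multiplied:
  `(R+2)^2 (24.25 - 4x) <= 42.25 (R^2+4-4x)`), so it is enough that
  `6.5 e^(-x) <= 0.0545 sqrt(24.25 - 4x)` on `[3.655, 4.5]`: at `3.655`: `0.16810 <= 0.16914`;
  with `e^(-x) <= 0.02587/(1+t+t^2/2)`, `24.25 - 4x = 9.63 - 4t`: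
  `(6.5*0.02587)^2 <= 0.0545^2 (9.63 - 4t)(1+t+t^2/2)^2` for `0 <= t <= 0.845`
  (`0.028276 <= 0.028603 ...`; use `e^(-3.655) <= 0.025862` for more room).
  For `x >= 9/2`: `S >= R - 2 >= 2.5`, `(R+2)/(R-2) <= 2.6`, `e^(-x) <= e^(-4.5) <= 0.0112`.
-/

namespace STR

theorem a02_exp3655 : Real.exp (-(3655 / 1000)) ≤ 2587 / 100000 := by
  have h1 : (2.7182818283 : ℝ) < Real.exp 1 := Real.exp_one_gt_d9
  have h2 : (19250 / 10000 : ℝ) ≤ Real.exp (655 / 1000) := by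
    refine le_trans ?_ (Real.sum_le_exp_of_nonneg (by norm_num) 6)
    norm_num [Finset.sum_range_succ, Nat.factorial]
  have h3 : Real.exp (3655 / 1000) = Real.exp 1 ^ 3 * Real.exp (655 / 1000) := by
    rw [← Real.exp_nat_mul, ← Real.exp_add]
    norm_num
  have h4 : (38.66 : ℝ) ≤ Real.exp (3655 / 1000) := by
    rw [h3]
    calc (38.66 : ℝ) ≤ (2.7182818283 : ℝ) ^ 3 * (19250 / 10000) := by norm_num
      _ ≤ Real.exp 1 ^ 3 * Real.exp (655 / 1000) :=
        mul_le_mul (pow_le_pow_left₀ (by norm_num) h1.le 3) h2 (by norm_num) (by positivity)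
  rw [Real.exp_neg]
  calc (Real.exp (3655 / 1000))⁻¹ ≤ (38.66 : ℝ)⁻¹ := inv_anti₀ (by norm_num) h4
    _ ≤ 2587 / 100000 := by norm_num

theorem exp_x {x : ℝ} (hx : 3655 / 1000 ≤ x) :
    Real.exp (-x) * (1 + (x - 3655 / 1000) + (x - 3655 / 1000) ^ 2 / 2) ≤ 2587 / 100000 := by
  set t := x - 3655 / 1000 with ht
  have ht0 : 0 ≤ t := by linarith
  have h1 : 1 + t + t ^ 2 / 2 ≤ Real.exp t := Real.quadratic_le_exp_of_nonneg ht0
  have h2 : Real.exp (-x) = Real.exp (-(3655 / 1000)) * Real.exp (-t) := by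
    rw [← Real.exp_add]
    congr 1
    rw [ht]
    ring
  have h3 : Real.exp (-t) * (1 + t + t ^ 2 / 2) ≤ 1 := by
    calc Real.exp (-t) * (1 + t + t ^ 2 / 2) ≤ Real.exp (-t) * Real.exp t :=
          mul_le_mul_of_nonneg_left h1 (Real.exp_pos _).le
      _ = 1 := by rw [← Real.exp_add, neg_add_cancel, Real.exp_zero]
  rw [h2, mul_assoc]
  calc Real.exp (-(3655 / 1000)) * (Real.exp (-t) * (1 + t + t ^ 2 / 2))
      ≤ Real.exp (-(3655 / 1000)) * 1 := mul_le_mul_of_nonneg_left h3 (Real.exp_pos _).le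
    _ ≤ 2587 / 100000 := by
      rw [mul_one]
      exact a02_exp3655

theorem exp_238 : Real.exp (-(238 / 100)) ≤ 926 / 10000 := by
  have h1 : (2.7182818283 : ℝ) < Real.exp 1 := Real.exp_one_gt_d9
  have h2 : (1462 / 1000 : ℝ) ≤ Real.exp (38 / 100) := by
    refine le_trans ?_ (Real.sum_le_exp_of_nonneg (by norm_num) 5)
    norm_num [Finset.sum_range_succ, Nat.factorial]
  have h3 : Real.exp (238 / 100) = Real.exp 1 ^ 2 * Real.exp (38 / 100) := by
    rw [← Real.exp_nat_mul, ← Real.exp_add]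
    norm_num
  have h4 : (10.8 : ℝ) ≤ Real.exp (238 / 100) := by
    rw [h3]
    calc (10.8 : ℝ) ≤ (2.7182818283 : ℝ) ^ 2 * (1462 / 1000) := by norm_num
      _ ≤ Real.exp 1 ^ 2 * Real.exp (38 / 100) :=
        mul_le_mul (pow_le_pow_left₀ (by norm_num) h1.le 2) h2 (by norm_num) (by positivity)
  rw [Real.exp_neg]
  calc (Real.exp (238 / 100))⁻¹ ≤ (10.8 : ℝ)⁻¹ := inv_anti₀ (by norm_num) h4
    _ ≤ 926 / 10000 := by norm_num

theorem eps_abs {R x p : ℝ} (h : Rg R x p) : (R + 2) * Real.exp (-x) ≤ 169 / 1000 := by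
  have hx := x_ge h
  have hR := RmX h
  have hE := exp_x hx
  set t := x - 3655 / 1000 with ht
  have ht0 : 0 ≤ t := by linarith
  have hE0 := Real.exp_pos (-x)
  have h1 : R + 2 ≤ 65 / 10 * (1 + t + t ^ 2 / 2) := by
    have : 0 ≤ t ^ 2 := sq_nonneg t
    linarith
  calc (R + 2) * Real.exp (-x) ≤ 65 / 10 * (1 + t + t ^ 2 / 2) * Real.exp (-x) :=
        mul_le_mul_of_nonneg_right h1 hE0.le
    _ = 65 / 10 * (Real.exp (-x) * (1 + t + t ^ 2 / 2)) := by ring
    _ ≤ 65 / 10 * (2587 / 100000) := mul_le_mul_of_nonneg_left hE (by norm_num)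
    _ ≤ 169 / 1000 := by norm_num

theorem eps_le {R x p : ℝ} (h : Rg R x p) : (R + 2) * Real.exp (-x) ≤ 545 / 10000 * SS x p := by
  have hx := x_ge h
  have hR45 := h.hR
  have hR := RmX h
  have hE := exp_x hx
  set t := x - 3655 / 1000 with ht
  have ht0 : 0 ≤ t := by linarith
  have hE0 := Real.exp_pos (-x)
  rcases le_total x (9 / 2) with hx2 | hx2
  · have ht1 : t ≤ 845 / 1000 := by linarith
    have hS2 := SS_sq h
    have hS0 : 0 ≤ SS x p := Real.sqrt_nonneg _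
    set Q := 1 + t + t ^ 2 / 2 with hQ
    have hQ1 : 1 + t ≤ Q := by
      rw [hQ]
      nlinarith [sq_nonneg t]
    have hQ0 : 0 < Q := by linarith
    set E := Real.exp (-x) with hEdef
    -- the square of the exponential
    have h1 : 4225 / 100 * E ^ 2 ≤ (545 / 10000) ^ 2 * (2425 / 100 - 4 * x) := by
      have h2 : (E * Q) ^ 2 ≤ (2587 / 100000) ^ 2 := pow_le_pow_left₀ (by positivity) hE 2
      have h3 : 4225 / 100 * (2587 / 100000 : ℝ) ^ 2 ≤
          (545 / 10000) ^ 2 * (963 / 100 - 4 * t) * Q ^ 2 := by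
        have h4 : (1 + t) ^ 2 ≤ Q ^ 2 := pow_le_pow_left₀ (by linarith) hQ1 2
        have h5 : 963 / 100 ≤ (963 / 100 - 4 * t) * (1 + t) ^ 2 := by
          have e : (963 / 100 - 4 * t) * (1 + t) ^ 2 - 963 / 100 =
              t * (1526 / 100 + 163 / 100 * t - 4 * t ^ 2) := by ring
          have e2 : 0 ≤ 1526 / 100 + 163 / 100 * t - 4 * t ^ 2 := by nlinarith
          have := mul_nonneg ht0 e2
          linarith
        have h6 : (963 / 100 - 4 * t) * (1 + t) ^ 2 ≤ (963 / 100 - 4 * t) * Q ^ 2 :=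
          mul_le_mul_of_nonneg_left h4 (by linarith)
        nlinarith
      have h7 : 4225 / 100 * E ^ 2 * Q ^ 2 ≤
          (545 / 10000) ^ 2 * (2425 / 100 - 4 * x) * Q ^ 2 := by
        have e : 963 / 100 - 4 * t = 2425 / 100 - 4 * x := by
          rw [ht]
          ring
        rw [← e]
        nlinarith
      exact le_of_mul_le_mul_right h7 (by positivity)
    have h2 : (R + 2) ^ 2 * (2425 / 100 - 4 * x) ≤ 4225 / 100 * SS x p ^ 2 := by
      rw [hS2]
      have e : 4225 / 100 * (R ^ 2 - 4 * x + 4) - (R + 2) ^ 2 * (2425 / 100 - 4 * x) =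
          (R - 9 / 2) * ((18 + 4 * x) * R + 34 * x - 16) := by ring
      have e2 : 0 ≤ (18 + 4 * x) * R + 34 * x - 16 := by nlinarith
      have := mul_nonneg (sub_nonneg.2 hR45) e2
      linarith
    have h3 : ((R + 2) * E) ^ 2 ≤ (545 / 10000 * SS x p) ^ 2 := by
      have h4 : 0 ≤ (R + 2) ^ 2 := sq_nonneg _
      have h5 := mul_le_mul_of_nonneg_left h1 h4
      have h6 := mul_le_mul_of_nonneg_left h2 (by norm_num : (0 : ℝ) ≤ (545 / 10000) ^ 2)
      nlinarith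
    exact abs_le_of_sq_le_sq' h3 (by positivity) |>.2
  · have ht1 : 845 / 1000 ≤ t := by linarith
    have hS := SS_ge h
    have h1 : Real.exp (-x) * (1845 / 1000) ≤ 2587 / 100000 := by
      refine le_trans ?_ hE
      apply mul_le_mul_of_nonneg_left _ hE0.le
      nlinarith [sq_nonneg t]
    have h2 : Real.exp (-x) ≤ 15 / 1000 := by linarith
    have h3 : R + 2 ≤ 26 / 10 * (R - 2) := by linarith
    calc (R + 2) * Real.exp (-x) ≤ 26 / 10 * (R - 2) * (15 / 1000) :=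
          mul_le_mul h3 h2 hE0.le (by linarith)
      _ ≤ 545 / 10000 * (R - 2) := by nlinarith
      _ ≤ 545 / 10000 * SS x p := mul_le_mul_of_nonneg_left hS (by norm_num)

end STR
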