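import Pool.Agent.Helper8.STR.A02
import Pool.Agent.Helper22.SCE.M03

/-!
# STR-A03: `ww`, the difference `hh - h0`, and the lower bound of `-Re hh`
(as in `SCE/M03.lean`, which has `uu_re`, `uu_im`, `re_h0`, `norm_z2`, `norm_exp_neg` for all
parameters; `SS x p = norm (zz x p - 2)` by `norm_z2`).
* `ww_ge`: `|w| >= |z-2| - |z+2| e^(-x) >= S - (R+2) e^(-x) >= (1 - 0.0545) S` (A02), and
  `1/(1-0.0545) <= 1.058`.
* `far_diff`: `hh - h0 = -(e^u - 1)(z+2)e^(-z)/(w (z-2)) - eps/w`,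
  `eps = e^(-z)((e^(-2ib)-1) + z(e^(-ib)-1))`,
  `|eps| <= e^(-x)(2|sin b| + 2 R |sin(b/2)|)` (`|e^(-2ib) - 1| = 2|sin b|`,
  `|e^(-ib) - 1| = 2|sin(b/2)|`), `|e^u - 1| <= 1 + e^(-s)`; multiply by `S^2` and use
  `S/|w| <= 1.058`.
* `re_le`: `Re h0 = -((x-2)/S^2) AA`, multiply by `S^2`.
-/

namespace STR

open Complex SCE

theorem SS_eq (x p : ℝ) : ‖zz x p - 2‖ = SS x p := SCE.norm_z2 x p

theorem norm_zz {R x p : ℝ} (h : Rg R x p) : ‖zz x p‖ = R := by
  have hR := h.hR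
  rw [Complex.norm_def, normSq_apply]
  have : (zz x p).re * (zz x p).re + (zz x p).im * (zz x p).im = R ^ 2 := by
    rw [← h.hxp]
    simp only [zz, sub_re, mul_re, mul_im, sub_im, ofReal_re, ofReal_im, I_re, I_im]
    ring
  rw [this, Real.sqrt_sq (by linarith)]

theorem ww_ge {R x p : ℝ} (h : Rg R x p) :
    SS x p ≤ 1058 / 1000 * ‖ww (zz x p)‖ ∧ SS x p - (R + 2) * Real.exp (-x) ≤ ‖ww (zz x p)‖ ∧
    ww (zz x p) ≠ 0 ∧ zz x p - 2 ≠ 0 := by
  have hR := h.hR
  have hS := SS_ge h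
  have he := eps_le h
  have hz : ‖zz x p + 2‖ ≤ R + 2 := by
    refine (norm_add_le _ _).trans ?_
    rw [norm_zz h]
    simp
  have h1 : ‖(zz x p + 2) * exp (-(zz x p))‖ ≤ (R + 2) * Real.exp (-x) := by
    rw [norm_mul, SCE.norm_exp_neg]
    exact mul_le_mul_of_nonneg_right hz (Real.exp_pos _).le
  have h3 : ‖zz x p - 2‖ ≤ ‖ww (zz x p)‖ + ‖(zz x p + 2) * exp (-(zz x p))‖ := by
    have h4 : zz x p - 2 = ww (zz x p) - (zz x p + 2) * exp (-(zz x p)) := by
      unfold ww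
      ring
    calc ‖zz x p - 2‖ = ‖ww (zz x p) - (zz x p + 2) * exp (-(zz x p))‖ := by rw [← h4]
      _ ≤ _ := norm_sub_le _ _
  rw [SS_eq] at h3
  have hA : SS x p - (R + 2) * Real.exp (-x) ≤ ‖ww (zz x p)‖ := by linarith
  have hS0 : 0 < SS x p := by linarith
  have hB : SS x p ≤ 1058 / 1000 * ‖ww (zz x p)‖ := by linarith
  refine ⟨hB, hA, ?_, ?_⟩
  · intro h0
    rw [h0, norm_zero] at hB
    linarith
  · intro h0
    have h5 := SS_eq x p
    rw [h0, norm_zero] at h5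
    linarith

theorem far_diff {R x p : ℝ} (h : Rg R x p) (b : ℝ) :
    SS x p ^ 2 * ‖hh (zz x p) b - h0 (zz x p) b‖ ≤
      1058 / 1000 * ((1 + Real.exp (-(sS x p b))) * ((R + 2) * Real.exp (-x)) +
        SS x p * (Real.exp (-x) * (2 * |Real.sin b| + 2 * R * |Real.sin (b / 2)|))) := by
  obtain ⟨hw1, -, hw0, hz0⟩ := ww_ge h
  have hR := h.hR
  have hS := SS_ge h
  have hS0 : 0 < SS x p := by linarith
  have hwp : 0 < ‖ww (zz x p)‖ := norm_pos_iff.2 hw0
  have hE := Real.exp_pos (-x)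
  have hz : ‖zz x p + 2‖ ≤ R + 2 := by
    refine (norm_add_le _ _).trans ?_
    rw [norm_zz h]
    simp
  have hz2 := SS_eq x p
  have hnz := norm_zz h
  have hen : ‖exp (-(zz x p))‖ = Real.exp (-x) := SCE.norm_exp_neg x p
  have hure := SCE.uu_re x p b
  set z := zz x p with hzdef
  set ep : ℂ := exp (-z) * ((exp (-2 * b * I) - 1) + z * (exp (-b * I) - 1)) with hep
  have hmain : hh z b - h0 z b =
      -((exp (uu z b) - 1) * ((z + 2) * exp (-z)) / (ww z * (z - 2))) - ep / ww z := by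
    unfold hh h0
    rw [← hep]
    have hw : (z + 2) * exp (-z) = ww z - (z - 2) := by
      unfold ww
      ring
    rw [hw]
    field_simp
    ring
  have hb1 : ‖exp (-b * I) - 1‖ = 2 * |Real.sin (b / 2)| := by
    have h1 := Complex.norm_exp_I_mul_ofReal_sub_one (-b)
    have h2 : exp (-b * I) = exp (I * ((-b : ℝ) : ℂ)) := by
      congr 1
      push_cast
      ring
    rw [h2, h1, Real.norm_eq_abs, abs_mul, abs_two, neg_div, Real.sin_neg, abs_neg]
  have hb2 : ‖exp (-2 * b * I) - 1‖ = 2 * |Real.sin b| := by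
    have h1 := Complex.norm_exp_I_mul_ofReal_sub_one (-2 * b)
    have h2 : exp (-2 * b * I) = exp (I * ((-2 * b : ℝ) : ℂ)) := by
      congr 1
      push_cast
      ring
    have h3 : -2 * b / 2 = -b := by ring
    rw [h2, h1, Real.norm_eq_abs, abs_mul, abs_two, h3, Real.sin_neg, abs_neg]
  have hu : ‖exp (uu z b) - 1‖ ≤ 1 + Real.exp (-(sS x p b)) := by
    refine (norm_sub_le _ _).trans ?_
    rw [Complex.norm_exp, hure, norm_one]
    linarith
  have hepn : ‖ep‖ ≤ Real.exp (-x) * (2 * |Real.sin b| + 2 * R * |Real.sin (b / 2)|) := by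
    rw [hep, norm_mul, hen]
    refine mul_le_mul_of_nonneg_left ?_ hE.le
    refine (norm_add_le _ _).trans (le_of_eq ?_)
    rw [norm_mul, hnz, hb1, hb2]
    ring
  have h1 : ‖(exp (uu z b) - 1) * ((z + 2) * exp (-z))‖ ≤
      (1 + Real.exp (-(sS x p b))) * ((R + 2) * Real.exp (-x)) := by
    rw [norm_mul, norm_mul, hen]
    exact mul_le_mul hu (mul_le_mul_of_nonneg_right hz hE.le) (by positivity) (by positivity)
  have hn : ‖hh z b - h0 z b‖ ≤
      (1 + Real.exp (-(sS x p b))) * ((R + 2) * Real.exp (-x)) / (‖ww z‖ * SS x p) +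
      Real.exp (-x) * (2 * |Real.sin b| + 2 * R * |Real.sin (b / 2)|) / ‖ww z‖ := by
    rw [hmain]
    refine (norm_sub_le _ _).trans ?_
    rw [norm_neg, norm_div, norm_div, norm_mul (ww z) (z - 2), hz2]
    exact add_le_add (div_le_div_of_nonneg_right h1 (by positivity))
      (div_le_div_of_nonneg_right hepn (by positivity))
  have hR0 : 0 ≤ R := by linarith
  have hX : 0 ≤ (1 + Real.exp (-(sS x p b))) * ((R + 2) * Real.exp (-x)) +
        SS x p * (Real.exp (-x) * (2 * |Real.sin b| + 2 * R * |Real.sin (b / 2)|)) := by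
    positivity
  calc SS x p ^ 2 * ‖hh z b - h0 z b‖ ≤ SS x p ^ 2 *
        ((1 + Real.exp (-(sS x p b))) * ((R + 2) * Real.exp (-x)) / (‖ww z‖ * SS x p) +
        Real.exp (-x) * (2 * |Real.sin b| + 2 * R * |Real.sin (b / 2)|) / ‖ww z‖) :=
        mul_le_mul_of_nonneg_left hn (by positivity)
    _ = SS x p / ‖ww z‖ * ((1 + Real.exp (-(sS x p b))) * ((R + 2) * Real.exp (-x)) +
        SS x p * (Real.exp (-x) * (2 * |Real.sin b| + 2 * R * |Real.sin (b / 2)|))) := by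
        field_simp
    _ ≤ _ := by
        refine mul_le_mul_of_nonneg_right ?_ hX
        rw [div_le_iff₀ hwp]
        exact hw1

theorem re_le {R x p : ℝ} (h : Rg R x p) (b : ℝ) :
    SS x p ^ 2 * (hh (zz x p) b).re ≤ -((x - 2) * AA x p b) +
      1058 / 1000 * ((1 + Real.exp (-(sS x p b))) * ((R + 2) * Real.exp (-x)) +
        SS x p * (Real.exp (-x) * (2 * |Real.sin b| + 2 * R * |Real.sin (b / 2)|))) := by
  have hfar := far_diff h b
  have hx := x_ge h
  have hD : 0 < (x - 2) ^ 2 + p ^ 2 := by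
    have : 0 < x - 2 := by linarith
    positivity
  have hr := SCE.re_h0 (x := x) (p := p) (by linarith) b
  have h1 : (hh (zz x p) b).re = (h0 (zz x p) b).re + (hh (zz x p) b - h0 (zz x p) b).re := by
    simp
  have h2 : (hh (zz x p) b - h0 (zz x p) b).re ≤ ‖hh (zz x p) b - h0 (zz x p) b‖ :=
    (le_abs_self _).trans (abs_re_le_norm _)
  have h3 : SS x p ^ 2 * (h0 (zz x p) b).re = -((x - 2) * AA x p b) := by
    rw [hr, SS_sq']
    field_simp
  have h4 : SS x p ^ 2 * (hh (zz x p) b - h0 (zz x p) b).re ≤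
      SS x p ^ 2 * ‖hh (zz x p) b - h0 (zz x p) b‖ :=
    mul_le_mul_of_nonneg_left h2 (sq_nonneg _)
  rw [h1, mul_add, h3]
  linarith

end STR
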