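import Pool.Agent.Helper22.SCE.Defs

/-!
# STR-B01: `kappa` on the arcs
1. `kap_eq`: `kappa = z - 1 + 2/(z-2) - z^3 e^(-z)/(w (z-2))`: multiply by `w (z-2)` and use
   `(z^2-3z+4)(z+2) - z^3 = -(z+4)(z-2)`.
2. `eta_poly`: `G(y) = R^2+4-4y - (R^2+4+(20/19)R^3) e^(-y)` is concave in `y`
   (`G'' = -(..) e^(-y) < 0`), so on `[2.38, R]` it is at least `min(G(2.38), G(R))`.
   `G(2.38) >= R^2 - 5.52 - 0.0926 (R^2+4+1.0527 R^3) > 0` for `9/2 <= R <= 8` (`R = 8`: `2.2`,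
   `R = 4.5`: `3.5`; cubic in `R`), `G(R) = (R-2)^2 - e^(-R)(..) > 0` (`R = 4.5`:
   `6.25 - 0.0112*120.2 = 4.9`; `e^(-R) R^3` is decreasing for `R >= 3`).
   (Without concavity: `e^(-y) <= 0.0926/(1 + t + t^2/2)`, `t = y - 2.38`, and the resulting
   polynomial inequality in `R, t`.)
3. `arc_eta`: `|t| = R`, `y = Re t >= 2.38`: `|t-2|^2 = R^2+4-4y > 0`,
   `|w(t)||t-2| >= |t-2|^2 - |t^2-4| e^(-y) >= R^2+4-4y - (R^2+4)e^(-y) >= (20/19) R^3 e^(-y) > 0`.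
4. `arc_kap_nonneg`: `Re kappa >= (y-1) + 2(y-2)/|t-2|^2 - 19/20 >= 1.38 - 0.95 > 0`.
5. `arc_kap_le`: `Re kappa <= (y-1) + 2(y-2)/|t-2|^2 + eta`, `|t-2|^2 = (R-2)^2 + 4d`,
   `d = R - y >= 0`, and `2(y-2)/|t-2|^2 <= 2/(R-2) <= 0.8` (`y - 2 <= R - 2`).
   * `d >= 1`: `eta <= 0.95 <= 0.2 + d`.
   * `0 <= d <= 1`: `eta <= R^3 e^(-y)/(|t-2|^2 - (R^2+4)e^(-y)) <= 0.2 + d`, because
     `e^(-R) e^d (R^3 + (0.2+d)(R^2+4)) <= (0.2+d)((R-2)^2 + 4d)`: the left side divided by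
     `e^d` is decreasing in `R >= 9/2`, the right side increasing; at `R = 9/2`, with
     `e^(-4.5) <= 0.01111`, `e^d <= 1 + 1.72 d`: `0.01111 (1+1.72d)(95.975+24.25d)
     = 1.0663 + 2.1034 d + 0.4634 d^2 <= 1.25 + 7.05 d + 4 d^2`.
   Sum `<= y - 1 + 0.8 + 0.2 + d = R`.
-/

namespace STR

open Complex SCE

theorem kap_eq {z : ℂ} (hw : ww z ≠ 0) (h2 : z ≠ 2) :
    kap z = z - 1 + 2 / (z - 2) - z ^ 3 * exp (-z) / (ww z * (z - 2)) := by
  have h3 : z - 2 ≠ 0 := sub_ne_zero.2 h2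
  have e : kap z * (ww z * (z - 2)) =
      (z - 1 + 2 / (z - 2) - z ^ 3 * exp (-z) / (ww z * (z - 2))) * (ww z * (z - 2)) := by
    have e1 : kap z * (ww z * (z - 2)) = (z ^ 2 - 3 * z + 4 - (z + 4) * exp (-z)) * (z - 2) := by
      unfold kap
      field_simp
    have e2 : (z - 1 + 2 / (z - 2) - z ^ 3 * exp (-z) / (ww z * (z - 2))) * (ww z * (z - 2)) =
        (z - 1) * (ww z * (z - 2)) + 2 * ww z - z ^ 3 * exp (-z) := by
      field_simp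
    rw [e1, e2]
    unfold ww
    ring
  exact mul_right_cancel₀ (mul_ne_zero hw h3) e

private theorem exp_238 : Real.exp (-(238 / 100)) ≤ 926 / 10000 := by
  rw [Real.exp_neg]
  have h := Real.sum_le_exp_of_nonneg (x := 238 / 100) (by norm_num) 14
  have h2 : (10000 / 926 : ℝ) ≤ Real.exp (238 / 100) := by
    refine le_trans ?_ h
    norm_num [Finset.sum_range_succ, Nat.factorial]
  have h3 := inv_anti₀ (by norm_num) h2
  refine h3.trans ?_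
  norm_num

private theorem exp_45 : Real.exp (-(9 / 2)) ≤ 1111 / 100000 := by
  rw [Real.exp_neg]
  have h := Real.sum_le_exp_of_nonneg (x := 9 / 2) (by norm_num) 20
  have h2 : (100000 / 1111 : ℝ) ≤ Real.exp (9 / 2) := by
    refine le_trans ?_ h
    norm_num [Finset.sum_range_succ, Nat.factorial]
  have h3 := inv_anti₀ (by norm_num) h2
  refine h3.trans ?_
  norm_num

theorem eta_poly {R y : ℝ} (hR : 9 / 2 ≤ R) (hR8 : R ≤ 8) (hy : 238 / 100 ≤ y) (hyR : y ≤ R) :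
    (R ^ 2 + 4 + 20 / 19 * R ^ 3) * Real.exp (-y) ≤ R ^ 2 + 4 - 4 * y := by
  have hL : 0 < R - 238 / 100 := by linarith
  obtain ⟨θ, hθ⟩ : ∃ θ, θ = (y - 238 / 100) / (R - 238 / 100) := ⟨_, rfl⟩
  have hθ0 : 0 ≤ θ := by
    rw [hθ]
    exact div_nonneg (by linarith) hL.le
  have hθ1 : θ ≤ 1 := by
    rw [hθ, div_le_one hL]
    linarith
  have hyθ : y = (1 - θ) * (238 / 100) + θ * R := by
    have : θ * (R - 238 / 100) = y - 238 / 100 := by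
      rw [hθ]
      exact div_mul_cancel₀ _ hL.ne'
    linarith
  have hc := convexOn_exp.2 (Set.mem_univ (-(238 / 100 : ℝ))) (Set.mem_univ (-R))
    (by linarith : (0 : ℝ) ≤ 1 - θ) hθ0 (by ring)
  simp only [smul_eq_mul] at hc
  have e1 : (1 - θ) * -(238 / 100) + θ * -R = -y := by rw [hyθ]; ring
  rw [e1] at hc
  have hC : 0 < R ^ 2 + 4 + 20 / 19 * R ^ 3 := by positivity
  have hR4 : Real.exp (-R) ≤ 1111 / 100000 :=
    (Real.exp_le_exp.2 (by linarith)).trans exp_45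
  have g1 : (R ^ 2 + 4 + 20 / 19 * R ^ 3) * (926 / 10000) ≤ R ^ 2 + 4 - 4 * (238 / 100) := by
    nlinarith [mul_nonneg (mul_nonneg (sub_nonneg.2 hR) (sub_nonneg.2 hR)) (sub_nonneg.2 hR8),
      mul_nonneg (mul_nonneg (sub_nonneg.2 hR) (sub_nonneg.2 hR8)) (sub_nonneg.2 hR8),
      mul_nonneg (mul_nonneg (sub_nonneg.2 hR) (sub_nonneg.2 hR)) (sub_nonneg.2 hR),
      mul_nonneg (mul_nonneg (sub_nonneg.2 hR8) (sub_nonneg.2 hR8)) (sub_nonneg.2 hR8)]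
  have g2 : (R ^ 2 + 4 + 20 / 19 * R ^ 3) * (1111 / 100000) ≤ R ^ 2 + 4 - 4 * R := by
    nlinarith [mul_nonneg (mul_nonneg (sub_nonneg.2 hR) (sub_nonneg.2 hR)) (sub_nonneg.2 hR8),
      mul_nonneg (mul_nonneg (sub_nonneg.2 hR) (sub_nonneg.2 hR8)) (sub_nonneg.2 hR8),
      mul_nonneg (mul_nonneg (sub_nonneg.2 hR) (sub_nonneg.2 hR)) (sub_nonneg.2 hR),
      mul_nonneg (mul_nonneg (sub_nonneg.2 hR8) (sub_nonneg.2 hR8)) (sub_nonneg.2 hR8)]
  calc (R ^ 2 + 4 + 20 / 19 * R ^ 3) * Real.exp (-y)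
      ≤ (R ^ 2 + 4 + 20 / 19 * R ^ 3) *
        ((1 - θ) * Real.exp (-(238 / 100)) + θ * Real.exp (-R)) := by gcongr
    _ ≤ (R ^ 2 + 4 + 20 / 19 * R ^ 3) * ((1 - θ) * (926 / 10000) + θ * (1111 / 100000)) := by
        have h1 := exp_238
        have : 0 ≤ 1 - θ := by linarith
        gcongr
    _ = (1 - θ) * ((R ^ 2 + 4 + 20 / 19 * R ^ 3) * (926 / 10000)) +
        θ * ((R ^ 2 + 4 + 20 / 19 * R ^ 3) * (1111 / 100000)) := by ring
    _ ≤ (1 - θ) * (R ^ 2 + 4 - 4 * (238 / 100)) + θ * (R ^ 2 + 4 - 4 * R) := by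
        have : 0 ≤ 1 - θ := by linarith
        gcongr
    _ = R ^ 2 + 4 - 4 * y := by rw [hyθ]; ring

/-- the square of `|t - 2|` -/
private theorem norm_sub_two (t : ℂ) : ‖t - 2‖ ^ 2 = ‖t‖ ^ 2 + 4 - 4 * t.re := by
  rw [Complex.sq_norm, Complex.sq_norm, Complex.normSq_apply, Complex.normSq_apply]
  simp
  ring

private theorem norm_exp_neg (t : ℂ) : ‖exp (-t)‖ = Real.exp (-t.re) := by
  rw [Complex.norm_exp]
  simp

/-- lower bound for the denominator -/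
private theorem den_ge (t : ℂ) :
    ‖t‖ ^ 2 + 4 - 4 * t.re - (‖t‖ ^ 2 + 4) * Real.exp (-t.re) ≤ ‖ww t * (t - 2)‖ := by
  have e : ww t * (t - 2) = (t - 2) ^ 2 - (4 - t ^ 2) * exp (-t) := by
    unfold ww
    ring
  have h1 : ‖(4 - t ^ 2) * exp (-t)‖ ≤ (‖t‖ ^ 2 + 4) * Real.exp (-t.re) := by
    rw [norm_mul, norm_exp_neg]
    gcongr
    calc ‖(4 : ℂ) - t ^ 2‖ ≤ ‖(4 : ℂ)‖ + ‖t ^ 2‖ := norm_sub_le _ _
      _ = ‖t‖ ^ 2 + 4 := by
        rw [norm_pow]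
        norm_num
        ring
  have h2 : ‖(t - 2) ^ 2‖ = ‖t‖ ^ 2 + 4 - 4 * t.re := by
    rw [norm_pow, norm_sub_two]
  rw [e]
  have h3 := norm_sub_norm_le ((t - 2) ^ 2) ((4 - t ^ 2) * exp (-t))
  linarith

private theorem num_eq (t : ℂ) : ‖t ^ 3 * exp (-t)‖ = ‖t‖ ^ 3 * Real.exp (-t.re) := by
  rw [norm_mul, norm_pow, norm_exp_neg]

theorem arc_eta {t : ℂ} (hR : 9 / 2 ≤ ‖t‖) (hR8 : ‖t‖ ≤ 8) (hy : 238 / 100 ≤ t.re) :
    ww t ≠ 0 ∧ t ≠ 2 ∧ ‖t ^ 3 * exp (-t) / (ww t * (t - 2))‖ ≤ 19 / 20 := by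
  have hyR : t.re ≤ ‖t‖ := Complex.re_le_norm t
  have h1 := eta_poly hR hR8 hy hyR
  have h2 := den_ge t
  have hE := Real.exp_pos (-t.re)
  have h3 : 20 / 19 * (‖t‖ ^ 3 * Real.exp (-t.re)) ≤ ‖ww t * (t - 2)‖ := by
    nlinarith
  have h4 : 0 < ‖t‖ ^ 3 * Real.exp (-t.re) := by
    have : 0 < ‖t‖ := by linarith
    positivity
  have h5 : 0 < ‖ww t * (t - 2)‖ := by linarith
  have h6 : ww t * (t - 2) ≠ 0 := norm_pos_iff.1 h5
  refine ⟨left_ne_zero_of_mul h6, ?_, ?_⟩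
  · intro h
    apply right_ne_zero_of_mul h6
    rw [h]
    ring
  · rw [norm_div, num_eq, div_le_iff₀ h5]
    linarith

/-- real part of `kappa` up to the exponentially small term -/
private theorem kap_re_eq {t : ℂ} (hw : ww t ≠ 0) (h2 : t ≠ 2) :
    (kap t).re = t.re - 1 + 2 * (t.re - 2) / (‖t‖ ^ 2 + 4 - 4 * t.re) -
      (t ^ 3 * exp (-t) / (ww t * (t - 2))).re := by
  rw [kap_eq hw h2, Complex.sub_re, Complex.add_re, Complex.sub_re, Complex.one_re]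
  congr 2
  rw [← norm_sub_two, Complex.sq_norm, Complex.div_re]
  simp

theorem arc_kap_nonneg {t : ℂ} (hR : 9 / 2 ≤ ‖t‖) (hR8 : ‖t‖ ≤ 8) (hy : 238 / 100 ≤ t.re) :
    0 ≤ (kap t).re := by
  obtain ⟨hw, h2, h3⟩ := arc_eta hR hR8 hy
  rw [kap_re_eq hw h2]
  have h4 := (Complex.re_le_norm (t ^ 3 * exp (-t) / (ww t * (t - 2)))).trans h3
  have h5 : 0 ≤ 2 * (t.re - 2) / (‖t‖ ^ 2 + 4 - 4 * t.re) := by
    rw [← norm_sub_two]
    apply div_nonneg (by linarith) (sq_nonneg _)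
  linarith

theorem arc_kap_le {t : ℂ} (hR : 9 / 2 ≤ ‖t‖) (hR8 : ‖t‖ ≤ 8) (hy : 238 / 100 ≤ t.re) :
    (kap t).re ≤ ‖t‖ := by
  obtain ⟨hw, h2, h3⟩ := arc_eta hR hR8 hy
  rw [kap_re_eq hw h2]
  have hyR : t.re ≤ ‖t‖ := Complex.re_le_norm t
  have h4 : -(t ^ 3 * exp (-t) / (ww t * (t - 2))).re ≤
      ‖t ^ 3 * exp (-t) / (ww t * (t - 2))‖ :=
    (neg_le_abs _).trans (Complex.abs_re_le_norm _)
  have hden := den_ge t
  have hne : ww t * (t - 2) ≠ 0 := mul_ne_zero hw (sub_ne_zero.2 h2)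
  have hpos : 0 < ‖ww t * (t - 2)‖ := norm_pos_iff.2 hne
  have hnum := num_eq t
  rw [norm_div, hnum] at h4 h3
  obtain ⟨η, hη⟩ : ∃ η, η = ‖t‖ ^ 3 * Real.exp (-t.re) / ‖ww t * (t - 2)‖ := ⟨_, rfl⟩
  rw [← hη] at h3 h4
  obtain ⟨R, hRR⟩ : ∃ R, R = ‖t‖ := ⟨_, rfl⟩
  obtain ⟨y, hyy⟩ : ∃ y, y = t.re := ⟨_, rfl⟩
  obtain ⟨D, hD⟩ : ∃ D, D = ‖ww t * (t - 2)‖ := ⟨_, rfl⟩
  rw [← hD] at hη hden hpos
  rw [← hRR] at hR hR8 hyR hη hden ⊢
  rw [← hyy] at hy hyR hη hden ⊢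
  have h5 : 2 * (y - 2) / (R ^ 2 + 4 - 4 * y) ≤ 8 / 10 := by
    have hq : 0 < R ^ 2 + 4 - 4 * y := by nlinarith
    rw [div_le_iff₀ hq]
    nlinarith
  have h6 : η ≤ 2 / 10 + (R - y) := by
    rcases le_total 1 (R - y) with hd | hd
    · linarith
    · have hE : Real.exp (-y) = Real.exp (-R) * Real.exp (R - y) := by
        rw [← Real.exp_add]
        ring_nf
      obtain ⟨d, hd'⟩ : ∃ d, d = R - y := ⟨_, rfl⟩
      rw [← hd'] at hd hE
      have hd0 : 0 ≤ d := by linarith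
      -- exp d ≤ 1 + 1.72 d
      have hc := convexOn_exp.2 (Set.mem_univ (0 : ℝ)) (Set.mem_univ (1 : ℝ))
        (by linarith : (0 : ℝ) ≤ 1 - d) hd0 (by ring)
      simp only [smul_eq_mul, mul_zero, mul_one, zero_add, Real.exp_zero] at hc
      have he1 := Real.exp_one_lt_d9
      have hed : Real.exp d ≤ 1 + 172 / 100 * d := by nlinarith
      -- exp (-R)
      have hr : ∀ C : ℝ, 0 ≤ C → ∀ K : ℝ, K ≤ C * (1 + (R - 9 / 2) + (R - 9 / 2) ^ 2 / 2) →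
          Real.exp (-R) * K ≤ 1111 / 100000 * C := by
        intro C hC K hK
        have q1 : 1 + (R - 9 / 2) + (R - 9 / 2) ^ 2 / 2 ≤ Real.exp (R - 9 / 2) := by
          have := Real.quadratic_le_exp_of_nonneg (x := R - 9 / 2) (by linarith)
          exact this
        have q2 : Real.exp (-R) * Real.exp (R - 9 / 2) = Real.exp (-(9 / 2)) := by
          rw [← Real.exp_add]
          ring_nf
        have q3 := exp_45
        calc Real.exp (-R) * K ≤ Real.exp (-R) * (C * Real.exp (R - 9 / 2)) := by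
              have : K ≤ C * Real.exp (R - 9 / 2) :=
                hK.trans (mul_le_mul_of_nonneg_left q1 hC)
              gcongr
          _ = Real.exp (-(9 / 2)) * C := by rw [← q2]; ring
          _ ≤ 1111 / 100000 * C := by gcongr
      have k1 := hr (91125 / 1000) (by norm_num) (R ^ 3) (by
        obtain ⟨r, rfl⟩ : ∃ r, R = 9 / 2 + r := ⟨R - 9 / 2, by ring⟩
        have r0 : 0 ≤ r := by linarith
        have r1 : r ≤ 7 / 2 := by linarith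
        nlinarith [mul_nonneg r0 (mul_nonneg r0 (sub_nonneg.2 r1)), mul_nonneg r0 r0])
      have k2 := hr (2425 / 100) (by norm_num) (R ^ 2 + 4) (by
        obtain ⟨r, rfl⟩ : ∃ r, R = 9 / 2 + r := ⟨R - 9 / 2, by ring⟩
        have r0 : 0 ≤ r := by linarith
        nlinarith [mul_nonneg r0 r0])
      rw [hη, div_le_iff₀ hpos, ← hd']
      have hy' : y = R - d := by linarith
      have k3 : R ^ 3 * Real.exp (-y) + (2 / 10 + d) * ((R ^ 2 + 4) * Real.exp (-y)) ≤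
          (2 / 10 + d) * (R ^ 2 + 4 - 4 * y) := by
        calc R ^ 3 * Real.exp (-y) + (2 / 10 + d) * ((R ^ 2 + 4) * Real.exp (-y))
            = (Real.exp (-R) * R ^ 3 + (2 / 10 + d) * (Real.exp (-R) * (R ^ 2 + 4))) *
              Real.exp d := by rw [hE]; ring
          _ ≤ (1111 / 100000 * (91125 / 1000) + (2 / 10 + d) * (1111 / 100000 * (2425 / 100))) *
              (1 + 172 / 100 * d) := by gcongr
          _ ≤ (2 / 10 + d) * (625 / 100 + 4 * d) := by nlinarith [mul_nonneg hd0 hd0]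
          _ ≤ (2 / 10 + d) * (R ^ 2 + 4 - 4 * y) := by
              have : 625 / 100 + 4 * d ≤ R ^ 2 + 4 - 4 * y := by nlinarith
              gcongr
      have k4 : (2 / 10 + d) * (R ^ 2 + 4 - 4 * y - (R ^ 2 + 4) * Real.exp (-y)) ≤
          (2 / 10 + d) * D := by gcongr
      nlinarith
  linarith

end STR
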