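import Pool.Agent.Helper8.STR.A01

/-!
# STR-B02: the arcs through `z`
`z e^(ib) = (x - i p)(cos b + i sin b)` has real part `x cos b + p sin b` and modulus `R`.
* `arc_pos`: `0 <= b <= pi/R <= pi/4.5 <= 0.6982`: `cos b >= 1 - b^2/2 >= 0.756`, `sin b >= 0`,
  `x >= 3.655`: `>= 2.76`.
* `arc_neg`: `0 <= a <= 0.39`: real part of `z e^(-ia)` is `x cos a - p sin a
  >= 3.655*0.9249 - 2.625*0.3802 = 2.3825` (`cos 0.39 = 0.924909`, `sin 0.39 = 0.380188`;
  `cos a >= 1 - a^2/2 >= 0.92395` is not quite enough: use `cos a >= 1 - a^2/2 + a^4/24 - a^6/720`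
  or `Real.cos_bound`; `sin a <= a - a^3/6 + a^5/120`, `Real.sin_bound`).
-/

namespace STR

open Complex SCE

private theorem b02_norm {R x p : ℝ} (h : Rg R x p) (b : ℝ) :
    ‖zz x p * exp (b * I)‖ = R := by
  have hR : 0 ≤ R := by linarith [h.hR]
  rw [norm_mul, Complex.norm_exp_ofReal_mul_I, mul_one, Complex.norm_eq_sqrt_sq_add_sq]
  have h1 : (zz x p).re = x := by simp [zz]
  have h2 : (zz x p).im = -p := by simp [zz]
  rw [h1, h2, neg_sq, h.hxp, Real.sqrt_sq hR]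

private theorem b02_re (x p b : ℝ) :
    (zz x p * exp (b * I)).re = x * Real.cos b + p * Real.sin b := by
  have h1 : (zz x p).re = x := by simp [zz]
  have h2 : (zz x p).im = -p := by simp [zz]
  rw [Complex.mul_re, h1, h2, Complex.exp_ofReal_mul_I_re, Complex.exp_ofReal_mul_I_im]
  ring

theorem arc_pos {R x p : ℝ} (h : Rg R x p) {b : ℝ} (hb0 : 0 ≤ b) (hb : b ≤ Real.pi / R) :
    ‖zz x p * exp (b * I)‖ = R ∧ 238 / 100 ≤ (zz x p * exp (b * I)).re := by
  refine ⟨b02_norm h b, ?_⟩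
  rw [b02_re]
  have hR : 9 / 2 ≤ R := h.hR
  have hpi := Real.pi_lt_d2
  have hpi0 := Real.pi_pos
  have h1 : b ≤ 7 / 10 := by
    refine hb.trans ?_
    rw [div_le_iff₀ (by linarith)]
    linarith
  have h2 : 3 / 4 ≤ Real.cos b := by
    have h3 := Real.one_sub_sq_div_two_le_cos (x := b)
    nlinarith
  have h4 : 0 ≤ Real.sin b := Real.sin_nonneg_of_nonneg_of_le_pi hb0 (by
    have := Real.pi_gt_three
    linarith)
  have h5 := x_ge h
  have h6 : 0 ≤ p * Real.sin b := mul_nonneg h.hp0 h4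
  have h7 : 3655 / 1000 * (3 / 4) ≤ x * Real.cos b :=
    mul_le_mul h5 h2 (by norm_num) h.hx.le
  linarith

theorem arc_neg {R x p : ℝ} (h : Rg R x p) {a : ℝ} (ha0 : 0 ≤ a) (ha : a ≤ 39 / 100) :
    ‖zz x p * exp (((-a : ℝ) : ℂ) * I)‖ = R ∧
      238 / 100 ≤ (zz x p * exp (((-a : ℝ) : ℂ) * I)).re := by
  refine ⟨b02_norm h (-a), ?_⟩
  rw [b02_re, Real.cos_neg, Real.sin_neg]
  have h1 : 98098 / 100000 ≤ Real.cos (a / 2) := by
    have h3 := Real.one_sub_sq_div_two_le_cos (x := a / 2)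
    nlinarith
  have h1' : (9809875 : ℝ) / 10000000 ≤ Real.cos (a / 2) := by
    have h3 := Real.one_sub_sq_div_two_le_cos (x := a / 2)
    nlinarith
  have h2 : Real.cos a = 2 * Real.cos (a / 2) ^ 2 - 1 := by
    rw [← Real.cos_two_mul]
    congr 1
    ring
  have h3 : (924672 : ℝ) / 1000000 ≤ Real.cos a := by
    rw [h2]
    nlinarith
  have h4 : 0 ≤ Real.sin a := Real.sin_nonneg_of_nonneg_of_le_pi ha0 (by
    have := Real.pi_gt_three
    linarith)
  have h5 := Real.sin_sq_add_cos_sq a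
  have h6 : Real.sin a ≤ 380770 / 1000000 := by
    nlinarith
  have h7 := x_ge h
  have h8 : 3655 / 1000 * Real.cos a ≤ x * Real.cos a :=
    mul_le_mul_of_nonneg_right h7 (by linarith)
  have h9 : p * Real.sin a ≤ 21 / 8 * Real.sin a := mul_le_mul_of_nonneg_right h.hp h4
  linarith

end STR
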