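import Pool.Agent.Helper8.STR.Defs

/-!
# STR-B03: the derivative of `hh` and the equation of the ratio
`t = z e^(ib)`, `u = uu z b = z(e^(ib)-1) - 2ib`, `u' = i(t - 2)`.
* `hh_deriv`: `(w hh)' = i(t-2)e^u + e^(-z)(2 i e^(-2ib) + i z e^(-ib)) - i w
  = i [e^u (t - 2) + (t+2) e^(-z-2ib)] - i w = i [e^u ww t - w]` as `u - t = -z - 2ib`.
* `rr_deriv`: `ww'(t) = 1 - (t+1)e^(-t)`, so `(e^u ww t)' = i e^u [(t-2) ww t + t ww' t]
  = i e^u [t^2 - 3t + 4 - (t+4)e^(-t)] = i e^u kap t ww t` (if `ww t != 0`).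
* `hh_zero`, `rr_zero`: `hh z 0 = 0`, `rr z 0 = 1`.
-/

namespace STR

open Complex SCE

private theorem b_deriv (b : ℝ) : HasDerivAt (fun b : ℝ => (b : ℂ)) 1 b :=
  (hasDerivAt_id b).ofReal_comp

private theorem e_deriv (b : ℝ) : HasDerivAt (fun b : ℝ => exp ((b : ℂ) * I)) (exp (b * I) * I) b := by
  have h := ((b_deriv b).mul_const I).cexp
  rwa [one_mul] at h

private theorem t_deriv (z : ℂ) (b : ℝ) : HasDerivAt (fun b : ℝ => z * exp ((b : ℂ) * I))
    (z * (exp (b * I) * I)) b := (e_deriv b).const_mul z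

private theorem uu_deriv (z : ℂ) (b : ℝ) : HasDerivAt (fun b : ℝ => uu z b)
    (I * (z * exp (b * I) - 2)) b := by
  have h := (((e_deriv b).sub_const 1).const_mul z).sub (((b_deriv b).const_mul 2).mul_const I)
  refine HasDerivAt.congr_deriv (f := fun b : ℝ => uu z b) h ?_
  ring

private theorem exp_uu (z : ℂ) (b : ℝ) : exp (uu z b) * exp (-(z * exp (b * I))) = exp (-z) * exp (-2 * b * I) := by
  rw [← exp_add, ← exp_add]
  congr 1
  unfold uu
  ring

private theorem e2 (b : ℝ) : exp (-2 * b * I) = exp (-b * I) ^ 2 := by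
  rw [← exp_nat_mul]
  congr 1
  push_cast
  ring

private theorem e_inv (b : ℝ) : exp (b * I) * exp (-b * I) = 1 := by
  rw [← exp_add]
  have : (b : ℂ) * I + -b * I = 0 := by ring
  rw [this, exp_zero]

theorem hh_deriv {z : ℂ} (hw : ww z ≠ 0) (b : ℝ) :
    HasDerivAt (fun b : ℝ => hh z b) (I * (rr z b - 1)) b := by
  have h1 : HasDerivAt (fun b : ℝ => exp (-2 * (b : ℂ) * I)) (exp (-2 * b * I) * (-2 * 1 * I)) b :=
    (((b_deriv b).const_mul (-2)).mul_const I).cexp
  have h2 : HasDerivAt (fun b : ℝ => exp (-(b : ℂ) * I)) (exp (-b * I) * (-1 * I)) b :=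
    ((b_deriv b).neg.mul_const I).cexp
  have h := (((((uu_deriv z b).cexp).sub_const 1).sub
    (((h1.sub_const 1).add ((h2.sub_const 1).const_mul z)).const_mul (exp (-z)))).div_const (ww z)).sub
    ((b_deriv b).mul_const I)
  refine HasDerivAt.congr_deriv (f := fun b : ℝ => hh z b) h ?_
  have h3 := exp_uu z b
  have h4 := e_inv b
  have h5 : rr z b = (exp (uu z b) * (z * exp (b * I) - 2) +
      (z * exp (b * I) + 2) * (exp (-z) * exp (-2 * b * I))) / ww z := by
    unfold rr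
    rw [← h3]
    congr 1
    unfold ww
    ring
  rw [h5, e2]
  generalize exp (uu z b) = U
  generalize exp (-b * I) = E' at h4 ⊢
  generalize exp (b * I) = E at h4 ⊢
  generalize exp (-z) = W
  field_simp
  linear_combination (-z) * W * E' * h4

theorem rr_deriv {z : ℂ} (hw : ww z ≠ 0) {b : ℝ} (ht : ww (z * exp (b * I)) ≠ 0) :
    HasDerivAt (fun b : ℝ => rr z b) (I * kap (z * exp (b * I)) * rr z b) b := by
  set t : ℂ := z * exp (b * I) with htdef
  have h1 : HasDerivAt ww (1 - (t + 1) * exp (-t)) t := by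
    have h2 : HasDerivAt (fun t : ℂ => exp (-t)) (exp (-t) * (-1)) t := (hasDerivAt_id t).neg.cexp
    have h := ((hasDerivAt_id t).sub_const 2).add (((hasDerivAt_id t).add_const 2).mul h2)
    refine HasDerivAt.congr_deriv (f := ww) h ?_
    simp only [id]
    ring
  have h3 : HasDerivAt (fun b : ℝ => ww (z * exp ((b : ℂ) * I))) ((1 - (t + 1) * exp (-t)) * (z * (exp (b * I) * I))) b :=
    HasDerivAt.comp (h₂ := ww) (h := fun b : ℝ => z * exp ((b : ℂ) * I)) b h1 (t_deriv z b)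
  have h := ((uu_deriv z b).cexp.mul h3).div_const (ww z)
  refine HasDerivAt.congr_deriv (f := fun b : ℝ => rr z b) h ?_
  have h4 : kap t * rr z b = exp (uu z b) * (t ^ 2 - 3 * t + 4 - (t + 4) * exp (-t)) / ww z := by
    unfold kap rr
    rw [← htdef]
    field_simp
  rw [mul_assoc I, h4]
  have h5 : z * (exp (b * I) * I) = t * I := by rw [htdef]; ring
  rw [h5, ← htdef]
  unfold ww
  ring

theorem rr_zero {z : ℂ} (hw : ww z ≠ 0) : rr z 0 = 1 := by
  unfold rr uu
  simp [hw]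

theorem hh_zero (z : ℂ) : hh z 0 = 0 := by
  unfold hh uu
  simp

end STR
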