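import Pool.Agent.Helper8.STR.B03

/-!
# STR-B04: monotonicity of `Re hh` along an arc
`B04_ratio`: let `ww (z e^(i be)) != 0` for `0 <= be <= b2`.  `be -> kap (z e^(i be))` is continuous
on `[0, b2]`; put `phi b = int_0^b kap (z e^(i be)) d be`.  Then `rr z b * exp(-i phi b)` has
derivative `0` on `[0, b2]` (B03 `rr_deriv`, fundamental theorem of calculus) and the value `1` at
`0`, so `rr z b = exp(i phi b)`, i.e.
`Im rr z b = exp(-Im phi b) sin(Re phi b)`, `Re phi b = int_0^b Re kap in [0, K b] ⊆ [0, pi]`.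
`im_rr_nonneg`: hence `0 <= Im (rr z b)`.
`re_hh_mono`: `d/db Re hh = Re (I (rr - 1)) = - Im rr <= 0` on `[0, b2]`
(`antitoneOn_of_deriv_nonpos` or the mean value theorem).
`re_hh_mono_neg`: the same with `b -> hh z (-b)`: by conjugation
`hh z (-b) = conj (hh (conj z) b)`, `kap (conj t) = conj (kap t)`, `ww (conj t) = conj (ww t)` and
`conj (z e^(-ib)) = conj z e^(ib)`; apply `re_hh_mono` to `conj z`.
-/

namespace STR

open Complex SCE

private theorem ww_arc_cont (z : ℂ) : Continuous (fun b : ℝ => ww (z * exp ((b : ℂ) * I))) := by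
  unfold ww
  fun_prop

private theorem kap_arc_cont {z : ℂ} {b : ℝ} (h : ww (z * exp ((b : ℂ) * I)) ≠ 0) :
    ContinuousAt (fun b : ℝ => kap (z * exp ((b : ℂ) * I))) b := by
  have h1 : ContinuousAt (fun b : ℝ => ww (z * exp ((b : ℂ) * I))) b :=
    (ww_arc_cont z).continuousAt
  have h2 : ContinuousAt (fun b : ℝ => ((z * exp ((b : ℂ) * I)) ^ 2 - 3 * (z * exp ((b : ℂ) * I)) + 4
      - ((z * exp ((b : ℂ) * I)) + 4) * exp (-(z * exp ((b : ℂ) * I))))) b := by
    apply Continuous.continuousAt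
    fun_prop
  exact h2.div h1 h

private theorem kap_arc_meas (z : ℂ) : Measurable (fun b : ℝ => kap (z * exp ((b : ℂ) * I))) := by
  have h1 : Measurable (fun b : ℝ => ww (z * exp ((b : ℂ) * I))) := (ww_arc_cont z).measurable
  have h2 : Measurable (fun b : ℝ => ((z * exp ((b : ℂ) * I)) ^ 2 - 3 * (z * exp ((b : ℂ) * I)) + 4
      - ((z * exp ((b : ℂ) * I)) + 4) * exp (-(z * exp ((b : ℂ) * I))))) := by
    apply Continuous.measurable
    fun_prop
  exact h2.div h1

theorem im_rr_nonneg {z : ℂ} {b2 K : ℝ} (hw : ww z ≠ 0) (h0 : 0 ≤ b2) (hK : K * b2 ≤ Real.pi)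
    (harc : ∀ b ∈ Set.Icc 0 b2, ww (z * exp ((b : ℂ) * I)) ≠ 0 ∧
      0 ≤ (kap (z * exp ((b : ℂ) * I))).re ∧ (kap (z * exp ((b : ℂ) * I))).re ≤ K)
    {b : ℝ} (hb : b ∈ Set.Icc 0 b2) : 0 ≤ (rr z b).im := by
  set κ : ℝ → ℂ := fun b => kap (z * exp ((b : ℂ) * I)) with hκ
  have hcont : ContinuousOn κ (Set.Icc 0 b2) := fun t ht =>
    (kap_arc_cont (harc t ht).1).continuousWithinAt
  have hint : ∀ t ∈ Set.Icc (0 : ℝ) b2, IntervalIntegrable κ MeasureTheory.volume 0 t := by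
    intro t ht
    apply ContinuousOn.intervalIntegrable
    rw [Set.uIcc_of_le ht.1]
    exact hcont.mono (Set.Icc_subset_Icc_right ht.2)
  set φ : ℝ → ℂ := fun t => ∫ s in (0 : ℝ)..t, κ s with hφ
  have hφd : ∀ t ∈ Set.Icc (0 : ℝ) b2, HasDerivAt φ (κ t) t := by
    intro t ht
    exact intervalIntegral.integral_hasDerivAt_right (hint t ht)
      (kap_arc_meas z).stronglyMeasurable.stronglyMeasurableAtFilter (kap_arc_cont (harc t ht).1)
  have hgd : ∀ t ∈ Set.Icc (0 : ℝ) b2, HasDerivAt (fun t => rr z t * exp (-(I * φ t))) 0 t := by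
    intro t ht
    have h1 := rr_deriv hw (b := t) (harc t ht).1
    have h2 : HasDerivAt (fun t => exp (-(I * φ t))) (exp (-(I * φ t)) * (-(I * κ t))) t :=
      (((hφd t ht).const_mul I).neg).cexp
    have h3 := h1.mul h2
    refine h3.congr_deriv ?_
    simp only [hκ]
    ring
  have hconst := constant_of_has_deriv_right_zero (f := fun t => rr z t * exp (-(I * φ t)))
    (a := 0) (b := b2) (fun t ht => (hgd t ht).continuousAt.continuousWithinAt)
    (fun t ht => (hgd t ⟨ht.1, ht.2.le⟩).hasDerivWithinAt)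
  have h1 := hconst b hb
  have hφ0 : φ 0 = 0 := by simp [hφ]
  simp only [hφ0, mul_zero, neg_zero, exp_zero, mul_one, rr_zero hw] at h1
  have h2 : rr z b = exp (I * φ b) := by
    have : rr z b = rr z b * exp (-(I * φ b)) * exp (I * φ b) := by
      rw [mul_assoc, ← Complex.exp_add]; simp
    rw [this, h1, one_mul]
  rw [h2, Complex.exp_im]
  apply mul_nonneg (Real.exp_pos _).le
  have h3 : (I * φ b).im = (φ b).re := by simp
  rw [h3]
  have h4 : (φ b).re = ∫ s in (0 : ℝ)..b, (κ s).re := by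
    simp only [hφ]
    have := Complex.reCLM.intervalIntegral_comp_comm (hint b hb)
    simpa using this.symm
  have hre : ContinuousOn (fun s => (κ s).re) (Set.Icc 0 b2) :=
    Complex.continuous_re.comp_continuousOn hcont
  have hreint : IntervalIntegrable (fun s => (κ s).re) MeasureTheory.volume 0 b := by
    apply ContinuousOn.intervalIntegrable
    rw [Set.uIcc_of_le hb.1]
    exact hre.mono (Set.Icc_subset_Icc_right hb.2)
  have h5 : 0 ≤ (φ b).re := by
    rw [h4]
    apply intervalIntegral.integral_nonneg hb.1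
    intro u hu
    exact (harc u ⟨hu.1, hu.2.trans hb.2⟩).2.1
  have hK0 : 0 ≤ K := (harc 0 ⟨le_rfl, h0⟩).2.1.trans (harc 0 ⟨le_rfl, h0⟩).2.2
  have h6 : (φ b).re ≤ K * b := by
    rw [h4]
    have : ∫ s in (0 : ℝ)..b, (κ s).re ≤ ∫ s in (0 : ℝ)..b, K := by
      apply intervalIntegral.integral_mono_on hb.1 hreint (by simp)
      intro u hu
      exact (harc u ⟨hu.1, hu.2.trans hb.2⟩).2.2
    refine this.trans (le_of_eq ?_)
    simp [mul_comm]
  apply Real.sin_nonneg_of_nonneg_of_le_pi h5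
  refine h6.trans (le_trans ?_ hK)
  exact mul_le_mul_of_nonneg_left hb.2 hK0

theorem re_hh_mono {z : ℂ} {b1 b2 K : ℝ} (hw : ww z ≠ 0) (h0 : 0 ≤ b1) (h12 : b1 ≤ b2)
    (hK : K * b2 ≤ Real.pi)
    (harc : ∀ b ∈ Set.Icc 0 b2, ww (z * exp ((b : ℂ) * I)) ≠ 0 ∧
      0 ≤ (kap (z * exp ((b : ℂ) * I))).re ∧ (kap (z * exp ((b : ℂ) * I))).re ≤ K) :
    (hh z b2).re ≤ (hh z b1).re := by
  have hd : ∀ b : ℝ, HasDerivAt (fun b : ℝ => (hh z b).re) (-(rr z b).im) b := by
    intro b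
    have h1 := (hh_deriv hw b)
    have h2 := (Complex.reCLM.hasFDerivAt.comp_hasDerivAt b h1)
    refine (h2.congr_deriv ?_)
    simp
  have hanti : AntitoneOn (fun b : ℝ => (hh z b).re) (Set.Icc 0 b2) := by
    apply antitoneOn_of_deriv_nonpos (convex_Icc 0 b2)
    · exact fun t _ => (hd t).continuousAt.continuousWithinAt
    · exact fun t _ => (hd t).differentiableAt.differentiableWithinAt
    · intro t ht
      rw [interior_Icc] at ht
      rw [(hd t).deriv]
      have := im_rr_nonneg hw (h0.trans h12) hK harc (b := t) ⟨ht.1.le, ht.2.le⟩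
      linarith
  exact hanti ⟨h0, h12⟩ ⟨h0.trans h12, le_rfl⟩ h12

private theorem ww_conj (t : ℂ) : ww (starRingEnd ℂ t) = starRingEnd ℂ (ww t) := by
  unfold ww
  simp only [map_add, map_sub, map_mul, map_ofNat, ← Complex.exp_conj, map_neg]

private theorem kap_conj (t : ℂ) : kap (starRingEnd ℂ t) = starRingEnd ℂ (kap t) := by
  unfold kap
  rw [ww_conj]
  simp only [map_add, map_sub, map_mul, map_ofNat, ← Complex.exp_conj, map_neg, map_div₀, map_pow]

private theorem arc_conj (z : ℂ) (b : ℝ) :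
    starRingEnd ℂ z * exp ((b : ℂ) * I) = starRingEnd ℂ (z * exp (((-b : ℝ) : ℂ) * I)) := by
  rw [map_mul, ← Complex.exp_conj]
  simp

private theorem hh_conj (z : ℂ) (b : ℝ) : hh (starRingEnd ℂ z) b = starRingEnd ℂ (hh z (-b)) := by
  unfold hh uu
  rw [ww_conj]
  simp only [map_add, map_sub, map_mul, map_ofNat, ← Complex.exp_conj, map_neg, map_div₀, map_one,
    Complex.conj_I, Complex.conj_ofReal, Complex.ofReal_neg]
  ring_nf

theorem re_hh_mono_neg {z : ℂ} {b1 b2 K : ℝ} (hw : ww z ≠ 0) (h0 : 0 ≤ b1) (h12 : b1 ≤ b2)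
    (hK : K * b2 ≤ Real.pi)
    (harc : ∀ b ∈ Set.Icc 0 b2, ww (z * exp (((-b : ℝ) : ℂ) * I)) ≠ 0 ∧
      0 ≤ (kap (z * exp (((-b : ℝ) : ℂ) * I))).re ∧
        (kap (z * exp (((-b : ℝ) : ℂ) * I))).re ≤ K) :
    (hh z (-b2)).re ≤ (hh z (-b1)).re := by
  have hw' : ww (starRingEnd ℂ z) ≠ 0 := by
    rw [ww_conj]
    exact (map_ne_zero _).2 hw
  have h := re_hh_mono (z := starRingEnd ℂ z) hw' h0 h12 hK (by
    intro b hb
    rw [arc_conj, ww_conj, kap_conj, Complex.conj_re]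
    exact ⟨(map_ne_zero _).2 (harc b hb).1, (harc b hb).2⟩)
  rw [hh_conj, hh_conj, Complex.conj_re, Complex.conj_re] at h
  exact h

end STR
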