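import Pool.Agent.Helper8.STR.A03
import Pool.Agent.Helper8.STR.B01
import Pool.Agent.Helper8.STR.B02
import Pool.Agent.Helper8.STR.B04

/-!
# STR-B05: `-Re hh` is increasing in `|b|` for `0 <= b <= pi/R` and for `-0.39 <= b <= 0`
(from B01, B02, B04 with `K = R`).
-/

namespace STR

open Complex SCE

theorem mono_pos {R x p : ℝ} (h : Rg R x p) {b1 b2 : ℝ} (h0 : 0 ≤ b1) (h12 : b1 ≤ b2)
    (hb : b2 ≤ Real.pi / R) : (hh (zz x p) b2).re ≤ (hh (zz x p) b1).re := by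
  have hR := h.hR
  have hRp : 0 < R := by linarith
  refine re_hh_mono (K := R) (ww_ge h).2.2.1 h0 h12 ?_ ?_
  · rw [mul_comm]
    exact (le_div_iff₀ hRp).1 hb
  · intro b hb'
    obtain ⟨e1, e2⟩ := arc_pos h hb'.1 (hb'.2.trans hb)
    have e3 : 9 / 2 ≤ ‖zz x p * exp ((b : ℂ) * I)‖ := by rw [e1]; exact hR
    have e4 : ‖zz x p * exp ((b : ℂ) * I)‖ ≤ 8 := by rw [e1]; exact h.hR8
    refine ⟨(arc_eta e3 e4 e2).1, arc_kap_nonneg e3 e4 e2, ?_⟩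
    have := arc_kap_le e3 e4 e2
    rwa [e1] at this

theorem mono_neg {R x p : ℝ} (h : Rg R x p) {a1 a2 : ℝ} (h0 : 0 ≤ a1) (h12 : a1 ≤ a2)
    (ha : a2 ≤ 39 / 100) : (hh (zz x p) (-a2)).re ≤ (hh (zz x p) (-a1)).re := by
  have hR := h.hR
  have hR8 := h.hR8
  have hpi := Real.pi_gt_d2
  refine re_hh_mono_neg (K := R) (ww_ge h).2.2.1 h0 h12 ?_ ?_
  · nlinarith
  · intro b hb'
    obtain ⟨e1, e2⟩ := arc_neg h hb'.1 (hb'.2.trans ha)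
    have e3 : 9 / 2 ≤ ‖zz x p * exp (((-b : ℝ) : ℂ) * I)‖ := by rw [e1]; exact hR
    have e4 : ‖zz x p * exp (((-b : ℝ) : ℂ) * I)‖ ≤ 8 := by rw [e1]; exact h.hR8
    refine ⟨(arc_eta e3 e4 e2).1, arc_kap_nonneg e3 e4 e2, ?_⟩
    have := arc_kap_le e3 e4 e2
    rwa [e1] at this

end STR
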