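import Pool.Agent.Helper8.STR.A03
import Pool.Agent.Helper8.STR.B01

/-!
# STR-C01: bounds for `kappa(z)`
`kappa = z - 1 + 2/(z-2) - eta_z`, `eta_z = z^3 e^(-z)/(w (z-2))` (B01 `kap_eq`).
1. `eta_z_le`: `|eta_z| <= eta0 := R^3 e^(-x)/(S^2 - (R^2+4)e^(-x))`, the denominator is positive
   (`|w||z-2| >= |z-2|^2 - |z^2-4|e^(-x)`), in the form
   `|eta_z| (S^2 - (R^2+4) e^(-x)) <= R^3 e^(-x)`.
2. `eta_num`: `|eta_z| <= 0.27`, `<= 0.17` if `R >= 5`, `<= 0.06` if `R >= 6`.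
   It is enough that `R^3/c + R^2 + 4 <= S^2 e^x = (R^2+4-4x) e^x`; the right side is increasing in
   `x <= R` (its derivative is `(R^2 - 4x) e^x`, `>= (R^2-4R) e^x > 0`), so one may
   take `x = xi := 1.114 R - 1.359` (A01 `x_chord`), and `e^xi >= e^(xi0)(1 + d + d^2/2 + d^3/6)`,
   `d = 1.114 (R - R0)`, `xi0 = 1.114 R0 - 1.359`; it remains a polynomial inequality in `R`:
   * `R0 = 9/2`, `c = 0.27`: `xi0 = 3.654`, `e^xi0 >= 38.6`; at `R = 9/2`: `361.8 <= 371.9`.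
   * `R0 = 5`, `c = 0.17`: `xi0 = 4.211`, `e^xi0 >= 67.3`; `764.3 <= 12.156*67.3 = 818`.
   * `R0 = 6`, `c = 0.06`: `xi0 = 5.325`, `e^xi0 >= 205`; `3640 <= 18.7*205 = 3833`.
3. `kap_re`: `Re kappa >= (x-1) + 2(x-2)/S^2 - |eta_z| >= 1.16 R - 2.52`.  By `x_chord`
   `x - 1 - (1.16 R - 2.52) >= 0.161 - 0.046 R`, and `2(x-2)/S^2` is increasing in `x`
   (`S^2 = R^2+4-4x`), so with `xi`: `2(1.114 R - 3.359)/(R^2 + 9.436 - 4.456 R)`; need
   `0.161 - 0.046 R + 2(1.114R - 3.359)/(R^2+9.436-4.456R) >= |eta_z|`: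
   `[4.5,5]`: left side `>= 0.297` (`R = 4.5`), `0.307` (`R = 5`); `[5,6]`: `>= 0.25`;
   `[6,8]`: `>= 0.085` (`R = 8`).
4. `kap_norm`: `|kappa| <= |z-1| + 2/S + |eta_z| <= 0.98 R + 0.07 R`.  With `S^2 = R^2+4-4x`:
   `|z-1|^2 = R^2 - 2x + 1 = (R^2+S^2)/2 - 1`, and `R-2 <= S <= R-2+7.62/(R(R-2))` (A01).
   `sqrt((R^2+S^2)/2 - 1) + 2/S <= 0.98 R`: equivalently
   `(R^2+S^2)/2 - 1 <= (0.98 R - 2/S)^2` (at the corner `13.94 <= 14.18`).
   `|eta_z| <= 0.07 R` from `eta_num` (`0.27 <= 0.315`).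
-/

namespace STR

open Complex SCE

theorem eta_z_le {R x p : ℝ} (h : Rg R x p) :
    ‖zz x p ^ 3 * exp (-(zz x p)) / (ww (zz x p) * (zz x p - 2))‖ *
      (SS x p ^ 2 - (R ^ 2 + 4) * Real.exp (-x)) ≤ R ^ 3 * Real.exp (-x) ∧
    0 < SS x p ^ 2 - (R ^ 2 + 4) * Real.exp (-x) := by
  obtain ⟨-, -, hw0, hz0⟩ := ww_ge h
  have hR := h.hR
  have hR8 := h.hR8
  have hS := SS_ge h
  have he := eps_le h
  have hE := Real.exp_pos (-x)
  have hnz := norm_zz h
  have hen : ‖exp (-(zz x p))‖ = Real.exp (-x) := SCE.norm_exp_neg x p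
  have hS2 := SS_eq x p
  have hne : ww (zz x p) * (zz x p - 2) ≠ 0 := mul_ne_zero hw0 hz0
  have h1 : SS x p ^ 2 - (R ^ 2 + 4) * Real.exp (-x) ≤ ‖ww (zz x p) * (zz x p - 2)‖ := by
    have h2 : (zz x p - 2) ^ 2 = ww (zz x p) * (zz x p - 2) -
        (zz x p ^ 2 - 4) * exp (-(zz x p)) := by
      unfold ww
      ring
    have h3 : ‖(zz x p - 2) ^ 2‖ ≤ ‖ww (zz x p) * (zz x p - 2)‖ +
        ‖(zz x p ^ 2 - 4) * exp (-(zz x p))‖ := by
      rw [h2]
      exact norm_sub_le _ _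
    rw [norm_pow, hS2] at h3
    have h4 : ‖(zz x p ^ 2 - 4) * exp (-(zz x p))‖ ≤ (R ^ 2 + 4) * Real.exp (-x) := by
      rw [norm_mul, hen]
      refine mul_le_mul_of_nonneg_right ?_ hE.le
      refine (norm_sub_le _ _).trans ?_
      rw [norm_pow, hnz]
      have : ‖(4 : ℂ)‖ = 4 := by simp
      rw [this]
    linarith
  constructor
  · have hpos : 0 < ‖ww (zz x p) * (zz x p - 2)‖ := norm_pos_iff.2 hne
    have h2 := mul_le_mul_of_nonneg_left h1 (norm_nonneg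
      (zz x p ^ 3 * exp (-(zz x p)) / (ww (zz x p) * (zz x p - 2))))
    refine h2.trans (le_of_eq ?_)
    rw [norm_div, div_mul_cancel₀ _ hpos.ne', norm_mul, norm_pow, hnz, hen]
  · have h2 : (R ^ 2 + 4) * Real.exp (-x) ≤ (R + 2) * (545 / 10000 * SS x p) := by
      have h3 : (R ^ 2 + 4) * Real.exp (-x) ≤ (R + 2) * ((R + 2) * Real.exp (-x)) := by
        nlinarith
      exact h3.trans (mul_le_mul_of_nonneg_left he (by linarith))
    nlinarith

private theorem c01_num {R x p c : ℝ} (h : Rg R x p) (hc : 0 < c)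
    (hkey : R ^ 3 / c + R ^ 2 + 4 ≤ (R ^ 2 + 4 - 4 * (1114 / 1000 * R - 1359 / 1000)) *
      Real.exp (1114 / 1000 * R - 1359 / 1000)) :
    ‖zz x p ^ 3 * exp (-(zz x p)) / (ww (zz x p) * (zz x p - 2))‖ ≤ c := by
  obtain ⟨h1, h2⟩ := eta_z_le h
  generalize ‖zz x p ^ 3 * exp (-(zz x p)) / (ww (zz x p) * (zz x p - 2))‖ = N at h1 ⊢
  have hR := h.hR
  have hxR := x_le h
  have hch := x_chord h
  have hSq := SS_sq h
  rw [hSq] at h1 h2
  obtain ⟨ξ, hξ⟩ : ∃ ξ : ℝ, ξ = 1114 / 1000 * R - 1359 / 1000 := ⟨_, rfl⟩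
  rw [← hξ] at hkey hch
  have hx4 : 0 ≤ R ^ 2 - 4 * x + 4 := by
    rw [← hSq]
    exact sq_nonneg _
  have hEx : Real.exp ξ * (1 + (x - ξ)) ≤ Real.exp x := by
    have h3 : Real.exp x = Real.exp ξ * Real.exp (x - ξ) := by
      rw [← Real.exp_add]
      congr 1
      ring
    rw [h3]
    refine mul_le_mul_of_nonneg_left ?_ (Real.exp_pos ξ).le
    have := Real.add_one_le_exp (x - ξ)
    linarith
  have hmono : (R ^ 2 + 4 - 4 * ξ) * Real.exp ξ ≤ (R ^ 2 - 4 * x + 4) * Real.exp x := by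
    refine le_trans ?_ (mul_le_mul_of_nonneg_left hEx hx4)
    have h3 : 0 ≤ (x - ξ) * (R ^ 2 - 4 * x) := mul_nonneg (by linarith) (by nlinarith)
    have h4 : 0 ≤ (x - ξ) * (R ^ 2 - 4 * x) * Real.exp ξ := mul_nonneg h3 (Real.exp_pos ξ).le
    have h5 : (R ^ 2 - 4 * x + 4) * (Real.exp ξ * (1 + (x - ξ))) =
        (R ^ 2 + 4 - 4 * ξ) * Real.exp ξ + (x - ξ) * (R ^ 2 - 4 * x) * Real.exp ξ := by
      ring
    rw [h5]
    linarith
  have hk : R ^ 3 / c + R ^ 2 + 4 ≤ (R ^ 2 - 4 * x + 4) * Real.exp x := hkey.trans hmono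
  have hE := Real.exp_pos (-x)
  have hEE : Real.exp x * Real.exp (-x) = 1 := by
    rw [← Real.exp_add, add_neg_cancel, Real.exp_zero]
  have h6 : R ^ 3 * Real.exp (-x) ≤ c * (R ^ 2 - 4 * x + 4 - (R ^ 2 + 4) * Real.exp (-x)) := by
    have h7 := mul_le_mul_of_nonneg_left hk (mul_pos hc hE).le
    have h8 : c * Real.exp (-x) * (R ^ 3 / c + R ^ 2 + 4) =
        R ^ 3 * Real.exp (-x) + c * ((R ^ 2 + 4) * Real.exp (-x)) := by
      field_simp
      ring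
    have h9 : c * Real.exp (-x) * ((R ^ 2 - 4 * x + 4) * Real.exp x) =
        c * (R ^ 2 - 4 * x + 4) := by
      linear_combination (c * (R ^ 2 - 4 * x + 4)) * hEE
    rw [h8, h9] at h7
    linarith
  have h10 := h1.trans h6
  exact le_of_mul_le_mul_right h10 h2

private theorem c01_exp {ξ0 d E0 : ℝ} (hE0 : E0 ≤ Real.exp ξ0) (hd : 0 ≤ d) :
    E0 * (1 + d + d ^ 2 / 2 + d ^ 3 / 6) ≤ Real.exp (ξ0 + d) := by
  rw [Real.exp_add]
  have h1 := Real.sum_le_exp_of_nonneg hd 4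
  have h2 : (∑ i ∈ Finset.range 4, d ^ i / (i.factorial : ℝ)) = 1 + d + d ^ 2 / 2 + d ^ 3 / 6 := by
    simp [Finset.sum_range_succ, Nat.factorial]
  rw [h2] at h1
  exact mul_le_mul hE0 h1 (by positivity) (Real.exp_pos _).le

private theorem c01_e1 : (386 / 10 : ℝ) ≤ Real.exp (3654 / 1000) := by
  have h1 := Real.exp_one_gt_d9
  have h2 := Real.sum_le_exp_of_nonneg (x := 654 / 1000) (by norm_num) 6
  have h3 : Real.exp (3654 / 1000) = Real.exp 1 ^ 3 * Real.exp (654 / 1000) := by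
    rw [← Real.exp_nat_mul, ← Real.exp_add]
    congr 1
    norm_num
  rw [h3]
  have h4 : (20085 / 1000 : ℝ) ≤ Real.exp 1 ^ 3 := by
    refine le_trans ?_ (pow_le_pow_left₀ (by norm_num) h1.le 3)
    norm_num
  have h5 : (19225 / 10000 : ℝ) ≤ Real.exp (654 / 1000) := by
    refine le_trans ?_ h2
    norm_num [Finset.sum_range_succ, Nat.factorial]
  refine le_trans ?_ (mul_le_mul h4 h5 (by norm_num) (by positivity))
  norm_num

private theorem c01_e2 : (673 / 10 : ℝ) ≤ Real.exp (4211 / 1000) := by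
  have h1 := Real.exp_one_gt_d9
  have h2 := Real.sum_le_exp_of_nonneg (x := 211 / 1000) (by norm_num) 4
  have h3 : Real.exp (4211 / 1000) = Real.exp 1 ^ 4 * Real.exp (211 / 1000) := by
    rw [← Real.exp_nat_mul, ← Real.exp_add]
    congr 1
    norm_num
  rw [h3]
  have h4 : (5459 / 100 : ℝ) ≤ Real.exp 1 ^ 4 := by
    refine le_trans ?_ (pow_le_pow_left₀ (by norm_num) h1.le 4)
    norm_num
  have h5 : (1234 / 1000 : ℝ) ≤ Real.exp (211 / 1000) := by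
    refine le_trans ?_ h2
    norm_num [Finset.sum_range_succ, Nat.factorial]
  refine le_trans ?_ (mul_le_mul h4 h5 (by norm_num) (by positivity))
  norm_num

private theorem c01_e3 : (205 : ℝ) ≤ Real.exp (5325 / 1000) := by
  have h1 := Real.exp_one_gt_d9
  have h2 := Real.sum_le_exp_of_nonneg (x := 325 / 1000) (by norm_num) 5
  have h3 : Real.exp (5325 / 1000) = Real.exp 1 ^ 5 * Real.exp (325 / 1000) := by
    rw [← Real.exp_nat_mul, ← Real.exp_add]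
    congr 1
    norm_num
  rw [h3]
  have h4 : (1484 / 10 : ℝ) ≤ Real.exp 1 ^ 5 := by
    refine le_trans ?_ (pow_le_pow_left₀ (by norm_num) h1.le 5)
    norm_num
  have h5 : (13839 / 10000 : ℝ) ≤ Real.exp (325 / 1000) := by
    refine le_trans ?_ h2
    norm_num [Finset.sum_range_succ, Nat.factorial]
  refine le_trans ?_ (mul_le_mul h4 h5 (by norm_num) (by positivity))
  norm_num

theorem eta_num {R x p : ℝ} (h : Rg R x p) :
    ‖zz x p ^ 3 * exp (-(zz x p)) / (ww (zz x p) * (zz x p - 2))‖ ≤ 27 / 100 ∧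
    (5 ≤ R → ‖zz x p ^ 3 * exp (-(zz x p)) / (ww (zz x p) * (zz x p - 2))‖ ≤ 17 / 100) ∧
    (6 ≤ R → ‖zz x p ^ 3 * exp (-(zz x p)) / (ww (zz x p) * (zz x p - 2))‖ ≤ 6 / 100) := by
  refine ⟨c01_num h (by norm_num) ?_, fun h5 => c01_num h (by norm_num) ?_,
    fun h6 => c01_num h (by norm_num) ?_⟩
  · obtain ⟨t, ht⟩ : ∃ t : ℝ, R = 9 / 2 + t := ⟨R - 9 / 2, by ring⟩
    have ht0 : 0 ≤ t := by linarith [h.hR]
    have h1 := c01_exp (d := 1114 / 1000 * t) c01_e1 (by positivity)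
    have h2 : 1114 / 1000 * R - 1359 / 1000 = 3654 / 1000 + 1114 / 1000 * t := by
      rw [ht]
      ring
    rw [h2]
    have h3 : 0 ≤ R ^ 2 + 4 - 4 * (3654 / 1000 + 1114 / 1000 * t) := by
      rw [ht]
      nlinarith
    refine le_trans ?_ (mul_le_mul_of_nonneg_left h1 h3)
    rw [ht]
    have k2 : 0 ≤ t ^ 2 := by positivity
    have k3 : 0 ≤ t ^ 3 := by positivity
    have k4 : 0 ≤ t ^ 4 := by positivity
    have k5 : 0 ≤ t ^ 5 := by positivity
    ring_nf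
    linarith
  · obtain ⟨t, ht⟩ : ∃ t : ℝ, R = 5 + t := ⟨R - 5, by ring⟩
    have ht0 : 0 ≤ t := by linarith
    have h1 := c01_exp (d := 1114 / 1000 * t) c01_e2 (by positivity)
    have h2 : 1114 / 1000 * R - 1359 / 1000 = 4211 / 1000 + 1114 / 1000 * t := by
      rw [ht]
      ring
    rw [h2]
    have h3 : 0 ≤ R ^ 2 + 4 - 4 * (4211 / 1000 + 1114 / 1000 * t) := by
      rw [ht]
      nlinarith
    refine le_trans ?_ (mul_le_mul_of_nonneg_left h1 h3)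
    rw [ht]
    have k2 : 0 ≤ t ^ 2 := by positivity
    have k3 : 0 ≤ t ^ 3 := by positivity
    have k4 : 0 ≤ t ^ 4 := by positivity
    have k5 : 0 ≤ t ^ 5 := by positivity
    ring_nf
    linarith
  · obtain ⟨t, ht⟩ : ∃ t : ℝ, R = 6 + t := ⟨R - 6, by ring⟩
    have ht0 : 0 ≤ t := by linarith
    have h1 := c01_exp (d := 1114 / 1000 * t) c01_e3 (by positivity)
    have h2 : 1114 / 1000 * R - 1359 / 1000 = 5325 / 1000 + 1114 / 1000 * t := by
      rw [ht]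
      ring
    rw [h2]
    have h3 : 0 ≤ R ^ 2 + 4 - 4 * (5325 / 1000 + 1114 / 1000 * t) := by
      rw [ht]
      nlinarith
    refine le_trans ?_ (mul_le_mul_of_nonneg_left h1 h3)
    rw [ht]
    have k2 : 0 ≤ t ^ 2 := by positivity
    have k3 : 0 ≤ t ^ 3 := by positivity
    have k4 : 0 ≤ t ^ 4 := by positivity
    have k5 : 0 ≤ t ^ 5 := by positivity
    ring_nf
    linarith

private theorem c01_kap {R x p : ℝ} (h : Rg R x p) : kap (zz x p) = zz x p - 1 +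
    2 / (zz x p - 2) - zz x p ^ 3 * exp (-(zz x p)) / (ww (zz x p) * (zz x p - 2)) := by
  obtain ⟨-, -, hw0, hz0⟩ := ww_ge h
  exact kap_eq hw0 (sub_ne_zero.1 hz0)

private theorem c01_re2 (x p : ℝ) :
    (2 / (zz x p - 2)).re = 2 * (x - 2) / SS x p ^ 2 := by
  have hn : Complex.normSq (zz x p - 2) = SS x p ^ 2 := by
    rw [Complex.normSq_eq_norm_sq, SS_eq]
  have hre : (zz x p - 2).re = x - 2 := by
    simp [zz]
  rw [Complex.div_re, hn, hre]
  simp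

private theorem c01_pt {R x p c : ℝ} (h : Rg R x p)
    (hη : ‖zz x p ^ 3 * exp (-(zz x p)) / (ww (zz x p) * (zz x p - 2))‖ ≤ c)
    (hk0 : 0 ≤ c + 46 / 1000 * R - 161 / 1000)
    (hkey : (c + 46 / 1000 * R - 161 / 1000) * (R ^ 2 + 9436 / 1000 - 4456 / 1000 * R) ≤
      2 * (1114 / 1000 * R - 3359 / 1000)) :
    116 / 100 * R - 252 / 100 ≤ (kap (zz x p)).re := by
  have hch := x_chord h
  have hSq := SS_sq h
  have hS := SS_ge h
  have hR := h.hR
  have hS0 : 0 < SS x p ^ 2 := by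
    have : 0 < SS x p := by linarith
    positivity
  rw [c01_kap h, Complex.sub_re, Complex.add_re, c01_re2]
  have h1 : (zz x p - 1).re = x - 1 := by
    simp [zz]
  rw [h1]
  have h2 := (le_abs_self _).trans ((Complex.abs_re_le_norm _).trans hη)
  have h3 : c + 116 / 100 * R - 152 / 100 - x ≤ 2 * (x - 2) / SS x p ^ 2 := by
    rw [le_div_iff₀ hS0]
    have h4 : (c + 116 / 100 * R - 152 / 100 - x) * SS x p ^ 2 ≤
        (c + 46 / 1000 * R - 161 / 1000) * SS x p ^ 2 :=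
      mul_le_mul_of_nonneg_right (by linarith) hS0.le
    have h5 : (c + 46 / 1000 * R - 161 / 1000) * SS x p ^ 2 ≤
        (c + 46 / 1000 * R - 161 / 1000) * (R ^ 2 + 9436 / 1000 - 4456 / 1000 * R) := by
      refine mul_le_mul_of_nonneg_left ?_ hk0
      rw [hSq]
      linarith
    linarith
  linarith

theorem kap_re {R x p : ℝ} (h : Rg R x p) :
    116 / 100 * R - 252 / 100 ≤ (kap (zz x p)).re := by
  obtain ⟨h1, h2, h3⟩ := eta_num h
  have hR := h.hR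
  have hR8 := h.hR8
  rcases le_total 6 R with h6 | h6
  · refine c01_pt h (h3 h6) (by linarith) ?_
    obtain ⟨t, ht⟩ : ∃ t : ℝ, R = 6 + t := ⟨R - 6, by ring⟩
    have ht0 : 0 ≤ t := by linarith
    have ht1 : t ≤ 2 := by linarith
    have k2 : t ^ 2 ≤ 2 ^ 2 := pow_le_pow_left₀ ht0 ht1 2
    have k3 : t ^ 3 ≤ 2 ^ 3 := pow_le_pow_left₀ ht0 ht1 3
    rw [ht]
    ring_nf
    linarith
  · rcases le_total 5 R with h5 | h5
    · refine c01_pt h (h2 h5) (by linarith) ?_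
      obtain ⟨t, ht⟩ : ∃ t : ℝ, R = 5 + t := ⟨R - 5, by ring⟩
      have ht0 : 0 ≤ t := by linarith
      have ht1 : t ≤ 1 := by linarith
      have k2 : t ^ 2 ≤ 1 ^ 2 := pow_le_pow_left₀ ht0 ht1 2
      have k3 : t ^ 3 ≤ 1 ^ 3 := pow_le_pow_left₀ ht0 ht1 3
      rw [ht]
      ring_nf
      linarith
    · refine c01_pt h h1 (by linarith) ?_
      obtain ⟨t, ht⟩ : ∃ t : ℝ, R = 9 / 2 + t := ⟨R - 9 / 2, by ring⟩
      have ht0 : 0 ≤ t := by linarith
      have ht1 : t ≤ 1 / 2 := by linarith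
      have k2 : t ^ 2 ≤ (1 / 2) ^ 2 := pow_le_pow_left₀ ht0 ht1 2
      have k3 : t ^ 3 ≤ (1 / 2) ^ 3 := pow_le_pow_left₀ ht0 ht1 3
      rw [ht]
      ring_nf
      linarith

theorem kap_norm {R x p : ℝ} (h : Rg R x p) : ‖kap (zz x p)‖ ≤ 105 / 100 * R := by
  obtain ⟨h1, -, -⟩ := eta_num h
  have hR := h.hR
  have hR8 := h.hR8
  have hS := SS_ge h
  have hSle := SS_le h
  have hSq := SS_sq h
  have hS0 : 0 < SS x p := by linarith
  have hz1 : ‖zz x p - 1‖ ^ 2 = (R ^ 2 + SS x p ^ 2) / 2 - 1 := by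
    rw [hSq, Complex.sq_norm, Complex.normSq_apply]
    have e1 : (zz x p - 1).re = x - 1 := by simp [zz]
    have e2 : (zz x p - 1).im = -p := by simp [zz]
    rw [e1, e2]
    have := h.hxp
    linear_combination this
  have h2S : ‖2 / (zz x p - 2)‖ = 2 / SS x p := by
    rw [norm_div, SS_eq]
    simp
  have hs : SS x p ≤ R - 2 + 678 / 1000 := by
    have h2 : 762 / 100 / (R * (R - 2)) ≤ 678 / 1000 := by
      rw [div_le_iff₀ (by nlinarith)]
      nlinarith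
    linarith
  rw [c01_kap h]
  refine (norm_sub_le _ _).trans ?_
  have h3 : ‖zz x p - 1 + 2 / (zz x p - 2)‖ ≤ ‖zz x p - 1‖ + 2 / SS x p := by
    rw [← h2S]
    exact norm_add_le _ _
  have h4 : ‖zz x p - 1‖ + 2 / SS x p ≤ 105 / 100 * R - 27 / 100 := by
    have hn := norm_nonneg (zz x p - 1)
    generalize ‖zz x p - 1‖ = n at hz1 hn ⊢
    generalize SS x p = S at hz1 hS hs hS0 ⊢
    obtain ⟨t, ht⟩ : ∃ t : ℝ, R = 9 / 2 + t := ⟨R - 9 / 2, by ring⟩
    obtain ⟨s, hs'⟩ : ∃ s : ℝ, S = R - 2 + s := ⟨S - (R - 2), by ring⟩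
    have ht0 : 0 ≤ t := by linarith
    have hs0 : 0 ≤ s := by linarith
    have hs1 : s ≤ 678 / 1000 := by linarith
    have k2 : s ^ 2 ≤ (678 / 1000) ^ 2 := pow_le_pow_left₀ hs0 hs1 2
    have k3 : s ^ 3 ≤ (678 / 1000) ^ 3 := pow_le_pow_left₀ hs0 hs1 3
    have k4 : s ^ 4 ≤ (678 / 1000) ^ 4 := pow_le_pow_left₀ hs0 hs1 4
    norm_num at k2 k3 k4
    have m1 : 0 ≤ t * ((678 / 1000) ^ 2 - s ^ 2) := mul_nonneg ht0 (by norm_num; linarith)
    have m2 : 0 ≤ t * ((678 / 1000) ^ 3 - s ^ 3) := mul_nonneg ht0 (by norm_num; linarith)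
    have m3 : 0 ≤ t ^ 2 * ((678 / 1000) ^ 2 - s ^ 2) :=
      mul_nonneg (by positivity) (by norm_num; linarith)
    have m4 : 0 ≤ t ^ 2 * (678 / 1000 - s) := mul_nonneg (by positivity) (by linarith)
    have m5 : 0 ≤ t ^ 3 * (678 / 1000 - s) := mul_nonneg (by positivity) (by linarith)
    have m6 : 0 ≤ t * s := mul_nonneg ht0 hs0
    have m7 : 0 ≤ t ^ 2 := by positivity
    have m8 : 0 ≤ t ^ 3 := by positivity
    have m9 : 0 ≤ t ^ 4 := by positivity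
    have hg : S ^ 2 * ((R ^ 2 + S ^ 2) / 2 - 1) ≤
        ((105 / 100 * R - 27 / 100) * S - 2) ^ 2 := by
      rw [hs', ht]
      ring_nf
      norm_num at m1 m2 m3
      nlinarith
    have hB : 0 ≤ (105 / 100 * R - 27 / 100) * S - 2 := by nlinarith
    have h5 : (S * n) ^ 2 ≤ ((105 / 100 * R - 27 / 100) * S - 2) ^ 2 := by
      rw [mul_pow, hz1]
      exact hg
    have h6 : S * n ≤ (105 / 100 * R - 27 / 100) * S - 2 :=
      (sq_le_sq₀ (mul_nonneg hS0.le hn) hB).1 h5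
    have h7 : n + 2 / S = (S * n + 2) / S := by
      field_simp
    rw [h7, div_le_iff₀ hS0]
    linarith
  linarith

end STR
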