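import Pool.Agent.Helper8.STR.A03
import Pool.Agent.Helper22.SCE.M06

/-!
# STR-C02: the cubic Taylor remainder of `hh` for `|b| <= 1/10`
As in `SCE/M06.lean` (`expR3`, `expI3` and the identity `m06_identity` are there for all `z, b`):
`w (hh + kappa b^2/2) = (e^u - 1 - u - u^2/2) + (u^2 + (z-2)^2 b^2)/2 + z (e^(ib)-1-ib+b^2/2)
   - e^(-z) [(e^(-2ib) - 1 + 2ib + 2b^2) + z (e^(-ib) - 1 + ib + b^2/2)]`.
With `S = |z-2|`, `|b| <= 1/10`: `u = i(z-2)b + z(e^(ib)-1-ib)`, `|e^(ib)-1-ib| <= b^2/2`, so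
`|u| <= |b|(S + R|b|/2) <= |b|(S + R/20)`,
`|u^2 + (z-2)^2b^2| = |u - i(z-2)b||u + i(z-2)b| <= (R b^2/2)|b|(2S + R/20)`,
`Re u = -s <= p |b| <= 0.2625` (`s = x(1-cos b) - p sin b`), `M = e^0.2625 <= 1.3003`:
`|w||hh + kappa b^2/2| <= (|b|^3/6) [1.3003 (S + R/20)^3 + 1.5 R (2S + R/20) + R + (8+R)e^(-x)]`.
`(8+R) e^(-x) <= (R+2)e^(-x) + 6 e^(-x) <= 0.169 + 0.1553 <= 0.33` (A02), `|w| >= S - 0.169`.
It remains, for `R - 2 <= S <= R - 2 + 7.62/(R(R-2))`: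
`1.3003 (S+R/20)^3 + 1.5 R (2S + R/20) + R + 0.33 <= (15.66 R - 34.02)(S - 0.169)`
(checked on a grid: the difference is at least `9`, smallest at `R = 4.5`, `S = 3.18`).
(difference right - left is decreasing in `S`: derivative
`15.66R - 34.02 - 3.9009 (S+R/20)^2 - 3R < 0`; at the largest `S` it is a function of `R` only:
subdivide `[4.5, 8]`, or put `S = R - 2 + e`, `0 <= e`, `e R (R-2) <= 7.62` and use `nlinarith`.)
-/

namespace STR

open Complex SCE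

/-- one interval `[a, b]` for `R`, with `S ≤ R - 2 + E` -/
theorem c02_interval {R S a b E : ℝ} (hE : 0 < E) (ha : 9 / 2 ≤ a) (h1 : a ≤ R) (h2 : R ≤ b)
    (hS : R - 2 ≤ S) (hSE : S ≤ R - 2 + E)
    (hF0 : ∀ R, a ≤ R → R ≤ b → 0 ≤ (1566 / 100 * R - 3402 / 100) * (R - 2 - 169 / 1000) -
      13003 / 10000 * (R - 2 + R / 20) ^ 3 - 3 / 2 * R * (2 * (R - 2) + R / 20) - R - 33 / 100)
    (hF1 : ∀ R, a ≤ R → R ≤ b → 0 ≤ (1566 / 100 * R - 3402 / 100) * (R - 2 + E - 169 / 1000) -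
      13003 / 10000 * (R - 2 + E + R / 20) ^ 3 - 3 / 2 * R * (2 * (R - 2 + E) + R / 20) - R -
      33 / 100) :
    13003 / 10000 * (S + R / 20) ^ 3 + 3 / 2 * R * (2 * S + R / 20) + R + 33 / 100 ≤
      (1566 / 100 * R - 3402 / 100) * (S - 169 / 1000) := by
  obtain ⟨e, rfl⟩ : ∃ e, S = R - 2 + e := ⟨S - (R - 2), by ring⟩
  have he0 : 0 ≤ e := by linarith
  have heE : e ≤ E := by linarith
  have f0 := hF0 R h1 h2
  have f1 := hF1 R h1 h2
  obtain ⟨T, hT⟩ : ∃ T, T = R - 2 + R / 20 := ⟨_, rfl⟩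
  have hT0 : 0 ≤ T := by rw [hT]; linarith
  have c1 : (R - 2 + e + R / 20) ^ 3 = (T + e) ^ 3 := by rw [hT]; ring
  have c2 : (R - 2 + E + R / 20) ^ 3 = (T + E) ^ 3 := by rw [hT]; ring
  rw [c2] at f1
  rw [← hT] at f0
  rw [c1]
  -- convexity
  have hconv : E * (T + e) ^ 3 ≤ (E - e) * T ^ 3 + e * (T + E) ^ 3 := by
    have : (E - e) * T ^ 3 + e * (T + E) ^ 3 - E * (T + e) ^ 3 =
        e * E * (E - e) * (3 * T + E + e) := by ring
    have h3 : 0 ≤ e * E * (E - e) * (3 * T + E + e) := by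
      have : 0 ≤ E - e := by linarith
      positivity
    linarith
  have g0 := mul_nonneg (sub_nonneg.2 heE) f0
  have g1 := mul_nonneg he0 f1
  have hgoal : 0 ≤ E * ((1566 / 100 * R - 3402 / 100) * (R - 2 + e - 169 / 1000) -
      (13003 / 10000 * (T + e) ^ 3 + 3 / 2 * R * (2 * (R - 2 + e) + R / 20) + R + 33 / 100)) := by
    nlinarith [hconv, g0, g1]
  have := nonneg_of_mul_nonneg_right hgoal hE
  linarith

theorem taylor_num {R S : ℝ} (hR : 9 / 2 ≤ R) (hR8 : R ≤ 8) (hS : R - 2 ≤ S)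
    (hS2 : S ≤ R - 2 + 762 / 100 / (R * (R - 2))) :
    13003 / 10000 * (S + R / 20) ^ 3 + 3 / 2 * R * (2 * S + R / 20) + R + 33 / 100 ≤
      (1566 / 100 * R - 3402 / 100) * (S - 169 / 1000) := by
  have hE : ∀ a : ℝ, 9 / 2 ≤ a → a ≤ R →
      762 / 100 / (R * (R - 2)) ≤ 762 / 100 / (a * (a - 2)) := by
    intro a ha haR
    apply div_le_div_of_nonneg_left (by norm_num)
    · nlinarith
    · nlinarith
  rcases le_total R 5 with h5 | h5
  · have hb := hE (9 / 2) le_rfl hR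
    refine c02_interval (a := 9 / 2) (b := 5) (E := 678 / 1000) (by norm_num) le_rfl hR h5 hS ?_
      ?_ ?_
    · have : (762 / 100 / (9 / 2 * (9 / 2 - 2)) : ℝ) ≤ 678 / 1000 := by norm_num
      linarith
    · intro R h1 h2
      nlinarith [mul_nonneg (sub_nonneg.2 h1) (sub_nonneg.2 h2),
        mul_nonneg (mul_nonneg (sub_nonneg.2 h1) (sub_nonneg.2 h2)) (sub_nonneg.2 h2),
        mul_nonneg (mul_nonneg (sub_nonneg.2 h1) (sub_nonneg.2 h2)) (sub_nonneg.2 h1)]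
    · intro R h1 h2
      nlinarith [mul_nonneg (sub_nonneg.2 h1) (sub_nonneg.2 h2),
        mul_nonneg (mul_nonneg (sub_nonneg.2 h1) (sub_nonneg.2 h2)) (sub_nonneg.2 h2),
        mul_nonneg (mul_nonneg (sub_nonneg.2 h1) (sub_nonneg.2 h2)) (sub_nonneg.2 h1)]
  · rcases le_total R (13 / 2) with h6 | h6
    · have hb := hE 5 (by norm_num) h5
      refine c02_interval (a := 5) (b := 13 / 2) (E := 508 / 1000) (by norm_num) (by norm_num)
        h5 h6 hS ?_ ?_ ?_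
      · have : (762 / 100 / (5 * (5 - 2)) : ℝ) ≤ 508 / 1000 := by norm_num
        linarith
      · intro R h1 h2
        nlinarith [mul_nonneg (sub_nonneg.2 h1) (sub_nonneg.2 h2),
          mul_nonneg (mul_nonneg (sub_nonneg.2 h1) (sub_nonneg.2 h2)) (sub_nonneg.2 h2),
          mul_nonneg (mul_nonneg (sub_nonneg.2 h1) (sub_nonneg.2 h2)) (sub_nonneg.2 h1)]
      · intro R h1 h2
        nlinarith [mul_nonneg (sub_nonneg.2 h1) (sub_nonneg.2 h2),
          mul_nonneg (mul_nonneg (sub_nonneg.2 h1) (sub_nonneg.2 h2)) (sub_nonneg.2 h2),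
          mul_nonneg (mul_nonneg (sub_nonneg.2 h1) (sub_nonneg.2 h2)) (sub_nonneg.2 h1)]
    · have hb := hE (13 / 2) (by norm_num) h6
      refine c02_interval (a := 13 / 2) (b := 8) (E := 261 / 1000) (by norm_num) (by norm_num)
        h6 hR8 hS ?_ ?_ ?_
      · have : (762 / 100 / (13 / 2 * (13 / 2 - 2)) : ℝ) ≤ 261 / 1000 := by norm_num
        linarith
      · intro R h1 h2
        nlinarith [mul_nonneg (sub_nonneg.2 h1) (sub_nonneg.2 h2),
          mul_nonneg (mul_nonneg (sub_nonneg.2 h1) (sub_nonneg.2 h2)) (sub_nonneg.2 h2),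
          mul_nonneg (mul_nonneg (sub_nonneg.2 h1) (sub_nonneg.2 h2)) (sub_nonneg.2 h1)]
      · intro R h1 h2
        nlinarith [mul_nonneg (sub_nonneg.2 h1) (sub_nonneg.2 h2),
          mul_nonneg (mul_nonneg (sub_nonneg.2 h1) (sub_nonneg.2 h2)) (sub_nonneg.2 h2),
          mul_nonneg (mul_nonneg (sub_nonneg.2 h1) (sub_nonneg.2 h2)) (sub_nonneg.2 h1)]

theorem c02_uu_norm {R x p : ℝ} (h : Rg R x p) {b : ℝ} (hb : |b| ≤ 1 / 10) :
    ‖uu (zz x p) b‖ ≤ |b| * (SS x p + R / 20) ∧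
    ‖(uu (zz x p) b) ^ 2 + (zz x p - 2) ^ 2 * b ^ 2‖ ≤
      |b| ^ 3 * (R / 2) * (2 * SS x p + R / 20) := by
  have hR := h.hR
  have hR0 : 0 < R := by linarith
  rw [← SS_eq]
  set z : ℂ := zz x p with hz
  set S : ℝ := ‖z - 2‖ with hS
  set v : ℂ := z * (exp (b * I) - 1 - b * I) with hv
  have hu : uu z b = I * (z - 2) * b + v := uu_eq z b
  have hvn : ‖v‖ ≤ R * (b ^ 2 / 2) := by
    rw [hv, norm_mul, norm_zz h]
    exact mul_le_mul_of_nonneg_left (exp_I_sub b) hR0.le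
  have hb2 : b ^ 2 = |b| ^ 2 := (sq_abs b).symm
  have hvn2 : ‖v‖ ≤ |b| * (R / 20) := by
    refine hvn.trans ?_
    rw [hb2]
    have h1 : |b| ^ 2 ≤ |b| * (1 / 10) := by
      rw [sq]
      exact mul_le_mul_of_nonneg_left hb (abs_nonneg b)
    have h2 := mul_le_mul_of_nonneg_left h1 hR0.le
    linarith
  have hlin : ‖I * (z - 2) * b‖ = |b| * S := by
    rw [norm_mul, norm_mul, Complex.norm_I, one_mul, Complex.norm_real, Real.norm_eq_abs, mul_comm]
  constructor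
  · rw [hu]
    refine (norm_add_le _ _).trans ?_
    rw [hlin]
    linarith
  · have e : (uu z b) ^ 2 + (z - 2) ^ 2 * b ^ 2 = v * (2 * (I * (z - 2) * b) + v) := by
      rw [hu]
      have hI : I ^ 2 = -1 := I_sq
      linear_combination ((z - 2) ^ 2 * (b : ℂ) ^ 2) * hI
    rw [e, norm_mul]
    have h2 : ‖2 * (I * (z - 2) * b) + v‖ ≤ |b| * (2 * S + R / 20) := by
      refine (norm_add_le _ _).trans ?_
      rw [norm_mul, hlin]
      have : ‖(2 : ℂ)‖ = 2 := by simp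
      rw [this]
      linarith
    calc ‖v‖ * ‖2 * (I * (z - 2) * b) + v‖ ≤ (R * (b ^ 2 / 2)) * (|b| * (2 * S + R / 20)) :=
          mul_le_mul hvn h2 (norm_nonneg _) (by positivity)
      _ = |b| ^ 3 * (R / 2) * (2 * S + R / 20) := by
          rw [hb2]
          ring

theorem c02_exp : Real.exp (2625 / 10000) ≤ 13003 / 10000 := by
  have h1 := Real.exp_bound' (show (0 : ℝ) ≤ 2625 / 10000 by norm_num) (by norm_num) (n := 6)
    (by norm_num)
  refine h1.trans ?_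
  simp only [Finset.sum_range_succ, Finset.sum_range_zero, Nat.factorial]
  norm_num

theorem c02_M {R x p : ℝ} (h : Rg R x p) {b : ℝ} (hb : |b| ≤ 1 / 10) :
    Real.exp (-(sS x p b)) ≤ 13003 / 10000 := by
  refine le_trans (Real.exp_le_exp.2 ?_) c02_exp
  unfold sS
  have h1 : 0 ≤ x * (1 - Real.cos b) := mul_nonneg h.hx.le (by linarith [Real.cos_le_one b])
  have h2 : Real.sin b ≤ |b| := (le_abs_self _).trans Real.abs_sin_le_abs
  have h3 : p * Real.sin b ≤ p * |b| := mul_le_mul_of_nonneg_left h2 h.hp0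
  have h4 : p * |b| ≤ 21 / 8 * (1 / 10) := mul_le_mul h.hp hb (abs_nonneg b) (by norm_num)
  linarith

theorem c02_eps {R x p : ℝ} (h : Rg R x p) : (8 + R) * Real.exp (-x) ≤ 33 / 100 := by
  have h1 := eps_abs h
  have h2 := exp_x (x_ge h)
  have h3 := x_ge h
  have h4 : Real.exp (-x) ≤ 2587 / 100000 := by
    have h5 : 0 < Real.exp (-x) := Real.exp_pos _
    have h6 : 1 ≤ 1 + (x - 3655 / 1000) + (x - 3655 / 1000) ^ 2 / 2 := by nlinarith [sq_nonneg (x - 3655 / 1000)]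
    nlinarith
  linarith

theorem taylor {R x p : ℝ} (h : Rg R x p) {b : ℝ} (hb : |b| ≤ 1 / 10) :
    ‖hh (zz x p) b + kap (zz x p) * b ^ 2 / 2‖ ≤
      (1566 / 100 * R - 3402 / 100) * |b| ^ 3 / 6 := by
  have hR := h.hR
  have hR0 : 0 < R := by linarith
  obtain ⟨hu1, hu2⟩ := c02_uu_norm h hb
  obtain ⟨_, hw2, hw, _⟩ := ww_ge h
  have hM := c02_M h hb
  have heps := c02_eps h
  have hnum := taylor_num h.hR h.hR8 (SS_ge h) (SS_le h)
  have hS0 : 0 ≤ SS x p := by unfold SS; exact Real.sqrt_nonneg _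
  have hSw : SS x p - 169 / 1000 ≤ ‖ww (zz x p)‖ := by
    have := eps_abs h
    linarith
  have hw0 : 0 < ‖ww (zz x p)‖ := norm_pos_iff.2 hw
  have hid := m06_identity (zz x p) b hw
  set z : ℂ := zz x p with hz
  set S : ℝ := SS x p with hS
  have hzn : ‖z‖ = R := norm_zz h
  have hez : ‖exp (-z)‖ = Real.exp (-x) := norm_exp_neg x p
  have t1 : ‖exp (uu z b) - 1 - uu z b - (uu z b) ^ 2 / 2‖ ≤
      |b| ^ 3 / 6 * (13003 / 10000 * (S + R / 20) ^ 3) := by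
    refine (expR3 _).trans ?_
    have e1 : max 1 (Real.exp (uu z b).re) ≤ 13003 / 10000 := by
      rw [hz, uu_re]
      exact max_le (by norm_num) hM
    have e2 : ‖uu z b‖ ^ 3 ≤ (|b| * (S + R / 20)) ^ 3 := pow_le_pow_left₀ (norm_nonneg _) hu1 3
    calc ‖uu z b‖ ^ 3 / 6 * max 1 (Real.exp (uu z b).re)
        ≤ (|b| * (S + R / 20)) ^ 3 / 6 * (13003 / 10000) := by
          refine mul_le_mul (by linarith) e1 (le_trans zero_le_one (le_max_left _ _)) ?_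
          positivity
      _ = |b| ^ 3 / 6 * (13003 / 10000 * (S + R / 20) ^ 3) := by ring
  have t2 : ‖((uu z b) ^ 2 + (z - 2) ^ 2 * b ^ 2) / 2‖ ≤
      |b| ^ 3 / 6 * (3 / 2 * R * (2 * S + R / 20)) := by
    rw [norm_div]
    have : ‖(2 : ℂ)‖ = 2 := by simp
    rw [this]
    linarith
  have t3 : ‖z * (exp (b * I) - 1 - b * I + b ^ 2 / 2)‖ ≤ |b| ^ 3 / 6 * R := by
    rw [norm_mul, hzn]
    have := mul_le_mul_of_nonneg_left (expI3 b) hR0.le
    linarith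
  have t4 : ‖exp (-z) * ((exp (-2 * b * I) - 1 + 2 * b * I + 2 * b ^ 2) +
        z * (exp (-b * I) - 1 + b * I + b ^ 2 / 2))‖ ≤ |b| ^ 3 / 6 * (33 / 100) := by
    rw [norm_mul, hez]
    have a1 : ‖exp (-2 * b * I) - 1 + 2 * b * I + 2 * b ^ 2‖ ≤ 8 * |b| ^ 3 / 6 := by
      have h1 := expI3 (-2 * b)
      have e1 : exp (((-2 * b : ℝ) : ℂ) * I) - 1 - ((-2 * b : ℝ) : ℂ) * I +
          ((-2 * b : ℝ) : ℂ) ^ 2 / 2 = exp (-2 * b * I) - 1 + 2 * b * I + 2 * b ^ 2 := by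
        push_cast
        ring_nf
      have e2 : |(-2 * b : ℝ)| ^ 3 = 8 * |b| ^ 3 := by
        rw [abs_mul]
        norm_num
        ring
      rw [e1, e2] at h1
      exact h1
    have a2 : ‖exp (-b * I) - 1 + b * I + b ^ 2 / 2‖ ≤ |b| ^ 3 / 6 := by
      have h1 := expI3 (-b)
      have e1 : exp (((-b : ℝ) : ℂ) * I) - 1 - ((-b : ℝ) : ℂ) * I +
          ((-b : ℝ) : ℂ) ^ 2 / 2 = exp (-b * I) - 1 + b * I + b ^ 2 / 2 := by
        push_cast
        ring_nf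
      rw [e1, abs_neg] at h1
      exact h1
    have a3 : ‖(exp (-2 * b * I) - 1 + 2 * b * I + 2 * b ^ 2) +
        z * (exp (-b * I) - 1 + b * I + b ^ 2 / 2)‖ ≤ (8 + R) * (|b| ^ 3 / 6) := by
      refine (norm_add_le _ _).trans ?_
      rw [norm_mul, hzn]
      have := mul_le_mul_of_nonneg_left a2 hR0.le
      linarith
    calc Real.exp (-x) * ‖(exp (-2 * b * I) - 1 + 2 * b * I + 2 * b ^ 2) +
        z * (exp (-b * I) - 1 + b * I + b ^ 2 / 2)‖
        ≤ Real.exp (-x) * ((8 + R) * (|b| ^ 3 / 6)) :=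
          mul_le_mul_of_nonneg_left a3 (Real.exp_pos _).le
      _ = ((8 + R) * Real.exp (-x)) * (|b| ^ 3 / 6) := by ring
      _ ≤ 33 / 100 * (|b| ^ 3 / 6) := mul_le_mul_of_nonneg_right heps (by positivity)
      _ = _ := by ring
  have hcore : ‖ww z‖ * ‖hh z b + kap z * b ^ 2 / 2‖ ≤
      |b| ^ 3 / 6 * (13003 / 10000 * (S + R / 20) ^ 3 + 3 / 2 * R * (2 * S + R / 20) + R +
        33 / 100) := by
    rw [← norm_mul, hid]
    refine (norm_sub_le _ _).trans ?_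
    have t123 := norm_add_le (exp (uu z b) - 1 - uu z b - (uu z b) ^ 2 / 2 +
      ((uu z b) ^ 2 + (z - 2) ^ 2 * b ^ 2) / 2) (z * (exp (b * I) - 1 - b * I + b ^ 2 / 2))
    have t12 := norm_add_le (exp (uu z b) - 1 - uu z b - (uu z b) ^ 2 / 2)
      (((uu z b) ^ 2 + (z - 2) ^ 2 * b ^ 2) / 2)
    linarith
  have hc0 : 0 ≤ 1566 / 100 * R - 3402 / 100 := by linarith
  have e5 : 13003 / 10000 * (S + R / 20) ^ 3 + 3 / 2 * R * (2 * S + R / 20) + R + 33 / 100 ≤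
      (1566 / 100 * R - 3402 / 100) * ‖ww z‖ :=
    hnum.trans (mul_le_mul_of_nonneg_left hSw hc0)
  have e6 := mul_le_mul_of_nonneg_left e5 (show 0 ≤ |b| ^ 3 / 6 by positivity)
  have e7 : ‖ww z‖ * ‖hh z b + kap z * b ^ 2 / 2‖ ≤
      ‖ww z‖ * ((1566 / 100 * R - 3402 / 100) * |b| ^ 3 / 6) := by
    refine hcore.trans (e6.trans (le_of_eq ?_))
    ring
  exact le_of_mul_le_mul_left e7 hw0

end STR
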