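import Pool.Agent.Helper8.STR.C01
import Pool.Agent.Helper8.STR.C02

/-!
# STR-C03: the lower bound of `-Re hh` for `|b| <= 1/10`
`-Re hh >= Re kappa b^2/2 - M3 |b|^3/6`, `M3 = 13.5 (1.16 R - 2.52)`, `Re kappa >= 1.16 R - 2.52`,
so `-Re hh >= (1.16R - 2.52) b^2 (1/2 - 13.5 |b|/6) >= 0.275 (1.16 R - 2.52) b^2`.
-/

namespace STR

open Complex SCE

theorem near {R x p : ℝ} (h : Rg R x p) {b : ℝ} (hb : |b| ≤ 1 / 10) :
    (hh (zz x p) b).re ≤ -(275 / 1000 * (116 / 100 * R - 252 / 100) * b ^ 2) := by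
  have hR := h.hR
  have h1 := kap_re h
  have h2 := taylor h hb
  have h3 : (hh (zz x p) b + kap (zz x p) * b ^ 2 / 2).re ≤
      (1566 / 100 * R - 3402 / 100) * |b| ^ 3 / 6 :=
    (Complex.re_le_norm _).trans h2
  have h4 : (hh (zz x p) b + kap (zz x p) * b ^ 2 / 2).re =
      (hh (zz x p) b).re + (kap (zz x p)).re * b ^ 2 / 2 := by
    have : (kap (zz x p) * (b : ℂ) ^ 2 / 2) = ((b ^ 2 / 2 : ℝ) : ℂ) * kap (zz x p) := by
      push_cast
      ring
    rw [this, Complex.add_re, Complex.re_ofReal_mul]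
    ring
  rw [h4] at h3
  have hb2 : |b| ^ 3 ≤ 1 / 10 * b ^ 2 := by
    have : |b| ^ 3 = |b| * b ^ 2 := by
      rw [pow_succ, sq_abs]
      ring
    rw [this]
    exact mul_le_mul_of_nonneg_right hb (sq_nonneg b)
  have hk : 0 ≤ 116 / 100 * R - 252 / 100 := by linarith
  have h5 : (1566 / 100 * R - 3402 / 100) * |b| ^ 3 / 6 ≤
      225 / 1000 * (116 / 100 * R - 252 / 100) * b ^ 2 := by
    have h6 : (1566 / 100 * R - 3402 / 100) * |b| ^ 3 ≤
        (1566 / 100 * R - 3402 / 100) * (1 / 10 * b ^ 2) :=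
      mul_le_mul_of_nonneg_left hb2 (by linarith)
    nlinarith
  have h7 : (116 / 100 * R - 252 / 100) * b ^ 2 ≤ (kap (zz x p)).re * b ^ 2 :=
    mul_le_mul_of_nonneg_right h1 (sq_nonneg b)
  nlinarith

end STR
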