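import Pool.Agent.Helper8.STR.A03

/-!
# STR-D00: the numerical lemma: reduction to the corner `(x1, P)`
`num`: put `t = x - x1 >= 0` (`t <= 8 - x1`), `A1 = x1 - 2`, `S = SS x p`.
`S^2 = (x-2)^2 + p^2 <= (A1+t)^2 + P^2 <= S1^2 + 2 A1 t + t^2` (so `S <= S1 + t`, as `A1 <= S1`),
`R^2 = x^2 + p^2 <= R1^2 + 2 x1 t + t^2`, so `R <= R1 + t` (`x1 <= R1`), `e^(-x) <= E1 e^(-t)`.
* `(R+2) e^(-x) <= (R1+2+t) e^(-t) E1 <= (R1+2) E1` (`1 + t/(R1+2) <= e^t`).
* `S e^(-x) (c2+c3 R) <= (S1+t)(c2+c3 R1 + c3 t) e^(-t) E1 <= S1 (c2+c3 R1) E1` because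
  `(1+t/S1)(1+c3 t/(c2+c3 R1)) <= e^(t/S1 + c3 t/(c2+c3 R1)) <= e^t`
  (`1/S1 <= 0.4`, `c3/(c2+c3 R1) <= 1/R1 <= 2/9`).
* so the left side is at most `c S1 + ... + 0.012 S1^2 + c t + 0.012 (2 A1 t + t^2)
  <= A1 + t (c + 0.024 A1 + 0.012 t) <= A1 + t = x - 2`.
`re_of_num`: A03 `re_le`: `S^2 Re hh <= -(x-2) AA + 1.058(...) <= -(x-2) + c S + 1.058(...)
<= -0.012 S^2`, divide by `S^2 > 0`.
`AA_ge_c`: `(x-2) AA = (x-2) - e^(-s)((x-2) cos tau - p sin tau)`, and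
`|(x-2) cos tau - p sin tau| <= S` (Cauchy-Schwarz).
`AA_cos`: `(x-2) cos tau - p sin tau = S cos(tau + gam)` (`x > 2`; `cos arctan q = (x-2)/S`,
`sin arctan q = p/S`, `q = p/(x-2)`; see `AA_eq` in `SCE/M17.lean`).
`dl_le`: `y = sin(b/2) in [0,1]`, `k = cos(b/2) >= 0`: `2 sin b + 2 R sin(b/2) = 4 y k + 2 R y
= 2R + 4 y k - 2R(1-y)`, `1 - y = k^2/(1+y) >= k^2/2`, so it is `<= 2R + 4k - R k^2 <= 2R + 4/R
<= 2R + 9/10`.
-/

namespace STR

open Complex SCE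

theorem num {R x p P x1 S1 R1 E1 c k c2 c3 : ℝ} (h : Rg R x p) (hP0 : 0 ≤ P) (hpP : p ≤ P)
    (hx1 : x1 ≤ x) (hx1' : 3655 / 1000 ≤ x1)
    (hS1 : (x1 - 2) ^ 2 + P ^ 2 ≤ S1 ^ 2) (hS1' : 5 / 2 ≤ S1)
    (hR1 : x1 ^ 2 + P ^ 2 ≤ R1 ^ 2) (hR1' : 9 / 2 ≤ R1) (hE : Real.exp (-x1) ≤ E1)
    (hc0 : 0 ≤ c) (hk0 : 0 ≤ k) (hc2 : 0 ≤ c2) (hc3 : 0 ≤ c3)
    (hslope : c + 24 / 1000 * (x1 - 2) + 12 / 1000 * (8 - x1) ≤ 1)
    (hm : c * S1 + 1058 / 1000 * (k * ((R1 + 2) * E1) + S1 * (E1 * (c2 + c3 * R1))) +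
      12 / 1000 * S1 ^ 2 ≤ x1 - 2) :
    c * SS x p + 1058 / 1000 * (k * ((R + 2) * Real.exp (-x)) +
      SS x p * (Real.exp (-x) * (c2 + c3 * R))) + 12 / 1000 * SS x p ^ 2 ≤ x - 2 := by
  have hxR := x_le h
  have hR8 := h.hR8
  have hR45 := h.hR
  have hxp := h.hxp
  have hp0 := h.hp0
  obtain ⟨t, ht⟩ : ∃ t, t = x - x1 := ⟨_, rfl⟩
  have ht0 : 0 ≤ t := by linarith
  have ht8 : t ≤ 8 - x1 := by linarith
  have hx : x = x1 + t := by linarith
  have hS0 : 0 ≤ SS x p := Real.sqrt_nonneg _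
  have hpP2 : p ^ 2 ≤ P ^ 2 := pow_le_pow_left₀ hp0 hpP 2
  have hSsq : SS x p ^ 2 ≤ S1 ^ 2 + 2 * (x1 - 2) * t + t ^ 2 := by
    rw [SS_sq', hx]
    linarith
  have hA1 : x1 - 2 ≤ S1 := by
    refine abs_le_of_sq_le_sq' ?_ (by linarith) |>.2
    linarith [sq_nonneg P]
  have hS : SS x p ≤ S1 + t := by
    refine abs_le_of_sq_le_sq' ?_ (by linarith) |>.2
    linarith [mul_le_mul_of_nonneg_right hA1 ht0]
  have hx1R1 : x1 ≤ R1 := by
    refine abs_le_of_sq_le_sq' ?_ (by linarith) |>.2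
    linarith [sq_nonneg P]
  have hR : R ≤ R1 + t := by
    refine abs_le_of_sq_le_sq' ?_ (by linarith) |>.2
    rw [← hxp, hx]
    linarith [mul_le_mul_of_nonneg_right hx1R1 ht0]
  have hE1 : 0 < E1 := (Real.exp_pos _).trans_le hE
  have hex : Real.exp (-x) ≤ E1 * Real.exp (-t) := by
    rw [hx, neg_add, Real.exp_add]
    exact mul_le_mul_of_nonneg_right hE (Real.exp_pos _).le
  have het : Real.exp t * Real.exp (-t) = 1 := by
    rw [← Real.exp_add, add_neg_cancel, Real.exp_zero]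
  have hq : 1 + t + t ^ 2 / 2 ≤ Real.exp t := Real.quadratic_le_exp_of_nonneg ht0
  have hem := (Real.exp_pos (-t)).le
  -- first term
  have h1 : (R + 2) * Real.exp (-x) ≤ (R1 + 2) * E1 := by
    have a1 : (R + 2) * Real.exp (-x) ≤ (R1 + 2 + t) * (E1 * Real.exp (-t)) :=
      mul_le_mul (by linarith) hex (Real.exp_pos _).le (by linarith)
    have a2 : R1 + 2 + t ≤ (R1 + 2) * Real.exp t := by
      have b1 : 1 + t ≤ Real.exp t := by linarith [sq_nonneg t]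
      linarith [mul_le_mul_of_nonneg_left b1 (by linarith : (0 : ℝ) ≤ R1 + 2),
        mul_nonneg (by linarith : (0 : ℝ) ≤ R1 + 1) ht0]
    have a3 : (R1 + 2 + t) * (E1 * Real.exp (-t)) ≤
        (R1 + 2) * Real.exp t * (E1 * Real.exp (-t)) :=
      mul_le_mul_of_nonneg_right a2 (mul_nonneg hE1.le hem)
    calc _ ≤ _ := a1.trans a3
      _ = (R1 + 2) * E1 * (Real.exp t * Real.exp (-t)) := by ring
      _ = _ := by rw [het, mul_one]
  -- second term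
  have hC0 : 0 ≤ c2 + c3 * R1 := add_nonneg hc2 (mul_nonneg hc3 (by linarith))
  have hCt : 0 ≤ c3 * t := mul_nonneg hc3 ht0
  have h2 : SS x p * (Real.exp (-x) * (c2 + c3 * R)) ≤ S1 * (E1 * (c2 + c3 * R1)) := by
    have a0 : c2 + c3 * R ≤ c2 + c3 * R1 + c3 * t := by
      have := mul_le_mul_of_nonneg_left hR hc3
      linarith
    have a00 : 0 ≤ c2 + c3 * R := by
      have : 0 ≤ c3 * R := mul_nonneg hc3 (by linarith)
      linarith
    have a1 : SS x p * (Real.exp (-x) * (c2 + c3 * R)) ≤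
        (S1 + t) * (E1 * Real.exp (-t) * (c2 + c3 * R1 + c3 * t)) := by
      refine mul_le_mul hS (mul_le_mul hex a0 a00 (mul_nonneg hE1.le hem)) ?_ (by linarith)
      exact mul_nonneg (Real.exp_pos _).le a00
    have a2 : (S1 + t) * (c2 + c3 * R1 + c3 * t) ≤ S1 * (c2 + c3 * R1) * Real.exp t := by
      have b0 : 9 / 2 * c3 ≤ c2 + c3 * R1 := by
        linarith [mul_le_mul_of_nonneg_left hR1' hc3]
      have b00 : 0 ≤ S1 * (c2 + c3 * R1) := mul_nonneg (by linarith) hC0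
      have b1 : S1 * (c2 + c3 * R1) * (1 + t + t ^ 2 / 2) ≤
          S1 * (c2 + c3 * R1) * Real.exp t := mul_le_mul_of_nonneg_left hq b00
      have b2 : (c2 + c3 * R1) + S1 * c3 ≤ S1 * (c2 + c3 * R1) := by
        linarith [mul_le_mul_of_nonneg_left b0 (by linarith : (0 : ℝ) ≤ S1 - 1),
          mul_nonneg hc3 (by linarith : (0 : ℝ) ≤ S1 - 5 / 2)]
      have b3 : c3 ≤ S1 * (c2 + c3 * R1) / 2 := by
        linarith [mul_nonneg hC0 (by linarith : (0 : ℝ) ≤ S1 - 5 / 2)]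
      have b4 := mul_le_mul_of_nonneg_right b2 ht0
      have b5 := mul_le_mul_of_nonneg_right b3 (sq_nonneg t)
      linarith
    have a3 : (S1 + t) * (E1 * Real.exp (-t) * (c2 + c3 * R1 + c3 * t)) ≤
        S1 * (E1 * (c2 + c3 * R1)) := by
      calc _ = ((S1 + t) * (c2 + c3 * R1 + c3 * t)) * (E1 * Real.exp (-t)) := by ring
        _ ≤ (S1 * (c2 + c3 * R1) * Real.exp t) * (E1 * Real.exp (-t)) :=
          mul_le_mul_of_nonneg_right a2 (mul_nonneg hE1.le hem)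
        _ = S1 * (E1 * (c2 + c3 * R1)) * (Real.exp t * Real.exp (-t)) := by ring
        _ = _ := by rw [het, mul_one]
    exact a1.trans a3
  have h3 := mul_le_mul_of_nonneg_left h1 hk0
  have h4 := mul_le_mul_of_nonneg_left hS hc0
  have h5 : t * (c + 24 / 1000 * (x1 - 2) + 12 / 1000 * t) ≤ t * 1 :=
    mul_le_mul_of_nonneg_left (by linarith) ht0
  linarith

theorem re_of_num {R x p b c k c2 c3 : ℝ} (h : Rg R x p)
    (hA : (x - 2) - c * SS x p ≤ (x - 2) * AA x p b)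
    (hk : 1 + Real.exp (-(sS x p b)) ≤ k)
    (hd : 2 * |Real.sin b| + 2 * R * |Real.sin (b / 2)| ≤ c2 + c3 * R)
    (hn : c * SS x p + 1058 / 1000 * (k * ((R + 2) * Real.exp (-x)) +
      SS x p * (Real.exp (-x) * (c2 + c3 * R))) + 12 / 1000 * SS x p ^ 2 ≤ x - 2) :
    (hh (zz x p) b).re ≤ -(12 / 1000) := by
  have h1 := re_le h b
  have hS2 : 0 < SS x p := by
    have h2 := SS_ge h
    have h3 := h.hR
    linarith
  have hR0 := h.hR
  have he := Real.exp_pos (-x)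
  have h4 : (1 + Real.exp (-(sS x p b))) * ((R + 2) * Real.exp (-x)) ≤
      k * ((R + 2) * Real.exp (-x)) :=
    mul_le_mul_of_nonneg_right hk (mul_nonneg (by linarith) he.le)
  have h5 : SS x p * (Real.exp (-x) * (2 * |Real.sin b| + 2 * R * |Real.sin (b / 2)|)) ≤
      SS x p * (Real.exp (-x) * (c2 + c3 * R)) :=
    mul_le_mul_of_nonneg_left (mul_le_mul_of_nonneg_left hd he.le) hS2.le
  have h6 : SS x p ^ 2 * (hh (zz x p) b).re ≤ SS x p ^ 2 * (-(12 / 1000)) := by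
    linarith
  exact le_of_mul_le_mul_left h6 (by positivity)

theorem AA_ge_c {R x p b c : ℝ} (h : Rg R x p) (hc : Real.exp (-(sS x p b)) ≤ c) :
    (x - 2) - c * SS x p ≤ (x - 2) * AA x p b := by
  have hx := x_ge h
  have hx2 : x - 2 ≠ 0 := by
    intro h0
    linarith
  have hS0 : 0 ≤ SS x p := Real.sqrt_nonneg _
  have e1 : (x - 2) * AA x p b = (x - 2) - Real.exp (-(sS x p b)) *
      ((x - 2) * Real.cos (tT x p b) - p * Real.sin (tT x p b)) := by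
    unfold AA
    field_simp
  have e2 : (x - 2) * Real.cos (tT x p b) - p * Real.sin (tT x p b) ≤ SS x p := by
    refine abs_le_of_sq_le_sq' ?_ hS0 |>.2
    rw [SS_sq']
    nlinarith [Real.sin_sq_add_cos_sq (tT x p b),
      sq_nonneg ((x - 2) * Real.sin (tT x p b) + p * Real.cos (tT x p b))]
  have e3 := mul_le_mul_of_nonneg_left e2 (Real.exp_pos (-(sS x p b))).le
  have e4 := mul_le_mul_of_nonneg_right hc hS0
  rw [e1]
  linarith

theorem AA_cos {R x p : ℝ} (h : Rg R x p) (b : ℝ) :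
    (x - 2) * AA x p b =
      (x - 2) - Real.exp (-(sS x p b)) * (SS x p * Real.cos (tT x p b + gam x p)) := by
  have hx := x_ge h
  have hx2 : 0 < x - 2 := by linarith
  have hS : SS x p = (x - 2) * Real.sqrt (1 + (p / (x - 2)) ^ 2) := by
    rw [SS, ← Real.sqrt_sq hx2.le, ← Real.sqrt_mul (sq_nonneg _), Real.sqrt_sq hx2.le]
    congr 1
    field_simp
  have h1 : 0 < Real.sqrt (1 + (p / (x - 2)) ^ 2) := Real.sqrt_pos.2 (by positivity)
  rw [hS, gam, Real.cos_add, Real.cos_arctan, Real.sin_arctan]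
  unfold AA
  field_simp

theorem dl_le {R b : ℝ} (hR : 9 / 2 ≤ R) (hb0 : 0 ≤ b) (hb : b ≤ Real.pi) :
    2 * |Real.sin b| + 2 * R * |Real.sin (b / 2)| ≤ 9 / 10 + 2 * R := by
  have hs : 0 ≤ Real.sin b := Real.sin_nonneg_of_nonneg_of_le_pi hb0 hb
  have hy : 0 ≤ Real.sin (b / 2) := Real.sin_nonneg_of_nonneg_of_le_pi (by linarith) (by linarith)
  have hk : 0 ≤ Real.cos (b / 2) := Real.cos_nonneg_of_mem_Icc ⟨by linarith [Real.pi_pos], by linarith⟩
  have h2 : Real.sin b = 2 * Real.sin (b / 2) * Real.cos (b / 2) := by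
    rw [← Real.sin_two_mul]
    congr 1
    ring
  rw [abs_of_nonneg hs, abs_of_nonneg hy, h2]
  have hyk := Real.sin_sq_add_cos_sq (b / 2)
  generalize Real.sin (b / 2) = y at *
  generalize Real.cos (b / 2) = k at *
  have hy1 : y ≤ 1 := by nlinarith
  have hk2 : k ^ 2 ≤ 2 * (1 - y) := by nlinarith
  have h3 : 9 / 2 * (1 - y) ≤ R * (1 - y) := mul_le_mul_of_nonneg_right hR (by linarith)
  have h4 : y * k ≤ k := by nlinarith
  nlinarith [sq_nonneg (k - 4 / 9)]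

theorem neg_sS_le {R x p : ℝ} (h : Rg R x p) (b : ℝ) : -(sS x p b) ≤ R - x := by
  have hR := h.hR
  have hxp := h.hxp
  have e2 : x * Real.cos b + p * Real.sin b ≤ R := by
    refine abs_le_of_sq_le_sq' ?_ (by linarith) |>.2
    rw [← hxp]
    nlinarith [Real.sin_sq_add_cos_sq b, sq_nonneg (x * Real.sin b - p * Real.cos b)]
  unfold sS
  linarith

end STR
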