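import Pool.Agent.Helper8.STR.D00

/-!
# STR-D01: the far zone on the left, `b = -a`, `0.39 <= a <= pi`
`s = sS x p (-a) = x (1 - cos a) + p sin a`.  Use `re_of_num` with `AA_ge_c` (`c = e^(-s0)` or a
rational upper bound, `s0 <= s`, `k = 1 + c`), `2|sin a| + 2R|sin(a/2)| <= c2 + c3 R`, and `num`
(A01 `x_ge_of_p` gives `x1 <= x` when `x1^2 + P^2 <= 81/4`).  Instances (margin = right - left in
`hm`; all with `R1 = 9/2`):
* `0.39 <= a <= 0.6`: `1 - cos a >= 0.0750`, `sin a >= 0.3801`, `c2 = 2 sin 0.6 <= 1.1293`,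
  `c3 = 2 sin 0.3 <= 0.5911`; for `p1 <= p <= P`: `s >= 0.0750 x1 + 0.3801 p1`:
  `[0, 0.7]`: `x1 = 4.4452`, `c = 0.7165`, `S1 = 2.5435`, `E1 = 0.01174`: margin `0.28`;
  `[0.7, 1.4]`: `x1 = 4.2767`, `c = 0.5562`, `S1 = 2.6728`, `E1 = 0.01389`: `0.40`;
  `[1.4, 1.9]`: `x1 = 4.0792`, `c = 0.4326`, `S1 = 2.8167`, `E1 = 0.01693`: `0.40`;
  `[1.9, 2.2]`: `x1 = 3.9255`, `c = 0.362`, `S1 = 2.9237`, `E1 = 0.01974`: `0.34`;
  `[2.2, 2.45]`: `x1 = 3.7746`, `c = 0.3266`, `S1 = 3.0241`, `E1 = 0.02295`: `0.18`;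
  `[2.45, 2.625]`: `x1 = 3.655`, `c = 0.2998`, `S1 = 3.1032`, `E1 = 0.02587`: `0.055`.
* `0.6 <= a <= 1.2`: `1 - cos a >= 0.1746`, `sin a >= 0.5646`, `c2 = 1.8641`, `c3 = 1.1293`:
  `[0, 1]`: `x1 = 4.3874`, `c = 0.4650`, `S1 = 2.5885`, `E1 = 0.01244`: `0.74`;
  `[1, 1.9]`: `x1 = 4.0792`, `c = 0.2791`, `S1 = 2.8167`, `E1 = 0.01693`: `0.69`;
  `[1.9, 2.625]`: `x1 = 3.655`, `c = 0.1808`, `S1 = 3.1032`, `E1 = 0.02587`: `0.17`.
* `1.2 <= a <= pi`: `s >= (1 - cos a) x >= 0.6376 * 3.655`, `c = 0.0973`, `P = 21/8`, `x1 = 3.655`,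
  `c2 = 9/10`, `c3 = 2` (`dl_le`): `0.20`.
-/

namespace STR

open Complex SCE

theorem d01_expneg {x E : ℝ} (hx : 0 ≤ x) (hE : 0 ≤ E)
    (h : 1 ≤ E * (1 + x / 8 + (x / 8) ^ 2 / 2 + (x / 8) ^ 3 / 6 + (x / 8) ^ 4 / 24 +
      (x / 8) ^ 5 / 120 + (x / 8) ^ 6 / 720) ^ 8) : Real.exp (-x) ≤ E := by
  have h1 := Real.sum_le_exp_of_nonneg (x := x / 8) (by positivity) 7
  simp only [Finset.sum_range_succ, Finset.sum_range_zero, Nat.factorial] at h1
  norm_num at h1
  have h2 : Real.exp x = Real.exp (x / 8) ^ 8 := by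
    rw [← Real.exp_nat_mul]
    congr 1
    push_cast
    ring
  have h3 : (1 + x / 8 + (x / 8) ^ 2 / 2 + (x / 8) ^ 3 / 6 + (x / 8) ^ 4 / 24 +
      (x / 8) ^ 5 / 120 + (x / 8) ^ 6 / 720) ^ 8 ≤ Real.exp x := by
    rw [h2]
    exact pow_le_pow_left₀ (by positivity) (by linarith) 8
  rw [Real.exp_neg, ← one_div, div_le_iff₀ (Real.exp_pos _)]
  exact h.trans (mul_le_mul_of_nonneg_left h3 hE)

theorem d01_inst {R x p a p1 P x1 S1 E1 c c2 c3 uc us : ℝ} (h : Rg R x p) (hp1 : p1 ≤ p)
    (hpP : p ≤ P) (hp10 : 0 ≤ p1)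
    (hx1 : x1 ^ 2 + P ^ 2 ≤ 81 / 4) (hx1' : 3655 / 1000 ≤ x1)
    (hS1 : (x1 - 2) ^ 2 + P ^ 2 ≤ S1 ^ 2) (hS1' : 5 / 2 ≤ S1)
    (huc0 : 0 ≤ uc) (hus0 : 0 ≤ us) (huc : uc ≤ 1 - Real.cos a) (hus : us ≤ Real.sin a)
    (hE : Real.exp (-x1) ≤ E1) (hc : Real.exp (-(uc * x1 + us * p1)) ≤ c)
    (hc2 : 0 ≤ c2) (hc3 : 0 ≤ c3)
    (hd : 2 * |Real.sin a| + 2 * R * |Real.sin (a / 2)| ≤ c2 + c3 * R)
    (hslope : c + 24 / 1000 * (x1 - 2) + 12 / 1000 * (8 - x1) ≤ 1)
    (hm : c * S1 + 1058 / 1000 * ((1 + c) * ((9 / 2 + 2) * E1) +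
      S1 * (E1 * (c2 + c3 * (9 / 2)))) + 12 / 1000 * S1 ^ 2 ≤ x1 - 2) :
    (hh (zz x p) (-a)).re ≤ -(12 / 1000) := by
  have hx := x_ge_of_p h hpP hx1
  have hp0 := h.hp0
  have hs : uc * x1 + us * p1 ≤ sS x p (-a) := by
    rw [sS, Real.cos_neg, Real.sin_neg]
    have e1 : uc * x1 ≤ (1 - Real.cos a) * x :=
      mul_le_mul huc hx (by linarith) (by linarith)
    have e2 : us * p1 ≤ Real.sin a * p := mul_le_mul hus hp1 hp10 (by linarith)
    linarith
  have hcs : Real.exp (-(sS x p (-a))) ≤ c :=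
    (Real.exp_le_exp.2 (by linarith)).trans hc
  have hc0 : 0 ≤ c := (Real.exp_pos _).le.trans hcs
  refine re_of_num (c := c) (k := 1 + c) (c2 := c2) (c3 := c3) h (AA_ge_c h hcs)
    (by linarith) ?_ ?_
  · rw [Real.sin_neg, neg_div, Real.sin_neg, abs_neg, abs_neg]
    exact hd
  · exact num h (hp0.trans hpP) hpP hx hx1' hS1 hS1' (R1 := 9 / 2) (by linarith) le_rfl hE hc0
      (by linarith) hc2 hc3 hslope hm

theorem d01_sin6 : Real.sin (6 / 10) ≤ 565 / 1000 := by
  have h := Real.sin_bound (x := 6 / 10) (by rw [abs_of_nonneg] <;> norm_num)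
  have h1 := (abs_le.1 h).2
  rw [abs_of_nonneg (by norm_num : (0 : ℝ) ≤ 6 / 10)] at h1
  norm_num at h1 ⊢
  linarith

theorem d01_sin3 : Real.sin (3 / 10) ≤ 296 / 1000 := by
  have h := Real.sin_bound (x := 3 / 10) (by rw [abs_of_nonneg] <;> norm_num)
  have h1 := (abs_le.1 h).2
  rw [abs_of_nonneg (by norm_num : (0 : ℝ) ≤ 3 / 10)] at h1
  norm_num at h1 ⊢
  linarith

theorem d01_cos6 : Real.cos (6 / 10) ≤ 827 / 1000 := by
  have h := Real.cos_bound (x := 6 / 10) (by rw [abs_of_nonneg] <;> norm_num)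
  have h1 := (abs_le.1 h).2
  rw [abs_of_nonneg (by norm_num : (0 : ℝ) ≤ 6 / 10)] at h1
  norm_num at h1 ⊢
  linarith

theorem d01_sin12 : Real.sin (12 / 10) ≤ 935 / 1000 := by
  have e : (12 / 10 : ℝ) = 2 * (6 / 10) := by norm_num
  rw [e, Real.sin_two_mul]
  have h1 := d01_sin6
  have h2 := d01_cos6
  have h3 : 0 ≤ Real.cos (6 / 10) :=
    Real.cos_nonneg_of_mem_Icc ⟨by linarith [Real.pi_gt_three], by linarith [Real.pi_gt_three]⟩
  have h4 : Real.sin (6 / 10) * Real.cos (6 / 10) ≤ 565 / 1000 * (827 / 1000) :=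
    mul_le_mul h1 h2 h3 (by norm_num)
  linarith

theorem d01_onecos {a u v : ℝ} (hu : 0 ≤ u) (hua : u ≤ a / 2) (ha : a ≤ Real.pi)
    (hv0 : 0 ≤ v) (hv : v ≤ u - u ^ 3 / 6) : 2 * v ^ 2 ≤ 1 - Real.cos a := by
  have h1 : Real.sin u ≤ Real.sin (a / 2) :=
    Real.sin_le_sin_of_le_of_le_pi_div_two (by linarith [Real.pi_pos]) (by linarith) hua
  have h2 := Real.sin_ge_sub_cube hu
  have h3 : Real.cos a = 1 - 2 * Real.sin (a / 2) ^ 2 := by
    have e1 := Real.cos_two_mul (a / 2)
    have e2 := Real.sin_sq_add_cos_sq (a / 2)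
    have e3 : 2 * (a / 2) = a := by ring
    rw [e3] at e1
    linarith
  have h4 : v ^ 2 ≤ Real.sin (a / 2) ^ 2 := pow_le_pow_left₀ hv0 (by linarith) 2
  linarith

theorem d01_A {R x p : ℝ} (h : Rg R x p) {a : ℝ} (ha0 : 39 / 100 ≤ a) (ha : a ≤ 6 / 10) :
    (hh (zz x p) (-a)).re ≤ -(12 / 1000) := by
  have hp0 := h.hp0
  have hR := h.hR
  have hpi := Real.pi_gt_three
  have huc : 750 / 10000 ≤ 1 - Real.cos a := by
    have := d01_onecos (a := a) (u := 195 / 1000) (v := 1937 / 10000) (by norm_num)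
      (by linarith) (by linarith) (by norm_num) (by norm_num)
    norm_num at this ⊢
    linarith
  have hus : 3801 / 10000 ≤ Real.sin a := by
    have h1 : Real.sin (39 / 100) ≤ Real.sin a :=
      Real.sin_le_sin_of_le_of_le_pi_div_two (by linarith) (by linarith) ha0
    have h2 := Real.sin_ge_sub_cube (x := 39 / 100) (by norm_num)
    norm_num at h2 ⊢
    linarith
  have hd : 2 * |Real.sin a| + 2 * R * |Real.sin (a / 2)| ≤ 113 / 100 + 592 / 1000 * R := by
    have h1 : Real.sin a ≤ Real.sin (6 / 10) :=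
      Real.sin_le_sin_of_le_of_le_pi_div_two (by linarith) (by linarith) ha
    have h2 : Real.sin (a / 2) ≤ Real.sin (3 / 10) :=
      Real.sin_le_sin_of_le_of_le_pi_div_two (by linarith) (by linarith) (by linarith)
    have h3 := d01_sin6
    have h4 := d01_sin3
    have h5 : 0 ≤ Real.sin (a / 2) := Real.sin_nonneg_of_nonneg_of_le_pi (by linarith) (by linarith)
    rw [abs_of_nonneg (by linarith : 0 ≤ Real.sin a), abs_of_nonneg h5]
    have h6 := mul_le_mul_of_nonneg_left (h2.trans h4) (by linarith : 0 ≤ 2 * R)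
    linarith
  rcases le_or_gt p (70 / 100) with hq0 | hq0
  · exact d01_inst (p1 := 0 / 100) (P := 70 / 100) (x1 := 44452 / 10000) (S1 := 25435 / 10000) (E1 := 1175 / 100000)
        (c := 7169 / 10000) (c2 := 113 / 100) (c3 := 592 / 1000) (uc := 750 / 10000) (us := 3801 / 10000) h (by linarith) hq0 (by norm_num)
        (by norm_num) (by norm_num) (by norm_num) (by norm_num) (by norm_num) (by norm_num)
        huc hus (d01_expneg (by norm_num) (by norm_num) (by norm_num))
        (d01_expneg (by norm_num) (by norm_num) (by norm_num)) (by norm_num) (by norm_num) hd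
        (by norm_num) (by norm_num)
  rcases le_or_gt p (140 / 100) with hq1 | hq1
  · exact d01_inst (p1 := 70 / 100) (P := 140 / 100) (x1 := 42766 / 10000) (S1 := 26727 / 10000) (E1 := 1390 / 100000)
        (c := 5564 / 10000) (c2 := 113 / 100) (c3 := 592 / 1000) (uc := 750 / 10000) (us := 3801 / 10000) h (by linarith) hq1 (by norm_num)
        (by norm_num) (by norm_num) (by norm_num) (by norm_num) (by norm_num) (by norm_num)
        huc hus (d01_expneg (by norm_num) (by norm_num) (by norm_num))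
        (d01_expneg (by norm_num) (by norm_num) (by norm_num)) (by norm_num) (by norm_num) hd
        (by norm_num) (by norm_num)
  rcases le_or_gt p (190 / 100) with hq2 | hq2
  · exact d01_inst (p1 := 140 / 100) (P := 190 / 100) (x1 := 40792 / 10000) (S1 := 28166 / 10000) (E1 := 1694 / 100000)
        (c := 4328 / 10000) (c2 := 113 / 100) (c3 := 592 / 1000) (uc := 750 / 10000) (us := 3801 / 10000) h (by linarith) hq2 (by norm_num)
        (by norm_num) (by norm_num) (by norm_num) (by norm_num) (by norm_num) (by norm_num)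
        huc hus (d01_expneg (by norm_num) (by norm_num) (by norm_num))
        (d01_expneg (by norm_num) (by norm_num) (by norm_num)) (by norm_num) (by norm_num) hd
        (by norm_num) (by norm_num)
  rcases le_or_gt p (220 / 100) with hq3 | hq3
  · exact d01_inst (p1 := 190 / 100) (P := 220 / 100) (x1 := 39255 / 10000) (S1 := 29237 / 10000) (E1 := 1975 / 100000)
        (c := 3621 / 10000) (c2 := 113 / 100) (c3 := 592 / 1000) (uc := 750 / 10000) (us := 3801 / 10000) h (by linarith) hq3 (by norm_num)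
        (by norm_num) (by norm_num) (by norm_num) (by norm_num) (by norm_num) (by norm_num)
        huc hus (d01_expneg (by norm_num) (by norm_num) (by norm_num))
        (d01_expneg (by norm_num) (by norm_num) (by norm_num)) (by norm_num) (by norm_num) hd
        (by norm_num) (by norm_num)
  rcases le_or_gt p (245 / 100) with hq4 | hq4
  · exact d01_inst (p1 := 220 / 100) (P := 245 / 100) (x1 := 37745 / 10000) (S1 := 30252 / 10000) (E1 := 2297 / 100000)
        (c := 3267 / 10000) (c2 := 113 / 100) (c3 := 592 / 1000) (uc := 750 / 10000) (us := 3801 / 10000) h (by linarith) hq4 (by norm_num)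
        (by norm_num) (by norm_num) (by norm_num) (by norm_num) (by norm_num) (by norm_num)
        huc hus (d01_expneg (by norm_num) (by norm_num) (by norm_num))
        (d01_expneg (by norm_num) (by norm_num) (by norm_num)) (by norm_num) (by norm_num) hd
        (by norm_num) (by norm_num)
  exact d01_inst (p1 := 245 / 100) (P := 21 / 8) (x1 := 36550 / 10000) (S1 := 31032 / 10000) (E1 := 2588 / 100000)
        (c := 2998 / 10000) (c2 := 113 / 100) (c3 := 592 / 1000) (uc := 750 / 10000) (us := 3801 / 10000) h (by linarith) h.hp (by norm_num)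
        (by norm_num) (by norm_num) (by norm_num) (by norm_num) (by norm_num) (by norm_num)
        huc hus (d01_expneg (by norm_num) (by norm_num) (by norm_num))
        (d01_expneg (by norm_num) (by norm_num) (by norm_num)) (by norm_num) (by norm_num) hd
        (by norm_num) (by norm_num)

theorem d01_B {R x p : ℝ} (h : Rg R x p) {a : ℝ} (ha0 : 6 / 10 ≤ a) (ha : a ≤ 12 / 10) :
    (hh (zz x p) (-a)).re ≤ -(12 / 1000) := by
  have hp0 := h.hp0
  have hR := h.hR
  have hpi := Real.pi_gt_three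
  have huc : 1746 / 10000 ≤ 1 - Real.cos a := by
    have := d01_onecos (a := a) (u := 3 / 10) (v := 2955 / 10000) (by norm_num)
      (by linarith) (by linarith) (by norm_num) (by norm_num)
    norm_num at this ⊢
    linarith
  have hus : 5640 / 10000 ≤ Real.sin a := by
    have h1 : Real.sin (6 / 10) ≤ Real.sin a :=
      Real.sin_le_sin_of_le_of_le_pi_div_two (by linarith) (by linarith) ha0
    have h2 := Real.sin_ge_sub_cube (x := 6 / 10) (by norm_num)
    norm_num at h2 ⊢
    linarith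
  have hd : 2 * |Real.sin a| + 2 * R * |Real.sin (a / 2)| ≤ 187 / 100 + 113 / 100 * R := by
    have h1 : Real.sin a ≤ Real.sin (12 / 10) :=
      Real.sin_le_sin_of_le_of_le_pi_div_two (by linarith) (by linarith) ha
    have h2 : Real.sin (a / 2) ≤ Real.sin (6 / 10) :=
      Real.sin_le_sin_of_le_of_le_pi_div_two (by linarith) (by linarith) (by linarith)
    have h3 := d01_sin6
    have h4 := d01_sin12
    have h5 : 0 ≤ Real.sin (a / 2) := Real.sin_nonneg_of_nonneg_of_le_pi (by linarith) (by linarith)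
    rw [abs_of_nonneg (by linarith : 0 ≤ Real.sin a), abs_of_nonneg h5]
    have h6 := mul_le_mul_of_nonneg_left (h2.trans h3) (by linarith : 0 ≤ 2 * R)
    linarith
  rcases le_or_gt p (100 / 100) with hq0 | hq0
  · exact d01_inst (p1 := 0 / 100) (P := 100 / 100) (x1 := 43874 / 10000) (S1 := 25884 / 10000) (E1 := 1245 / 100000)
        (c := 4651 / 10000) (c2 := 187 / 100) (c3 := 113 / 100) (uc := 1746 / 10000) (us := 5640 / 10000) h (by linarith) hq0 (by norm_num)
        (by norm_num) (by norm_num) (by norm_num) (by norm_num) (by norm_num) (by norm_num)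
        huc hus (d01_expneg (by norm_num) (by norm_num) (by norm_num))
        (d01_expneg (by norm_num) (by norm_num) (by norm_num)) (by norm_num) (by norm_num) hd
        (by norm_num) (by norm_num)
  rcases le_or_gt p (190 / 100) with hq1 | hq1
  · exact d01_inst (p1 := 100 / 100) (P := 190 / 100) (x1 := 40792 / 10000) (S1 := 28166 / 10000) (E1 := 1694 / 100000)
        (c := 2793 / 10000) (c2 := 187 / 100) (c3 := 113 / 100) (uc := 1746 / 10000) (us := 5640 / 10000) h (by linarith) hq1 (by norm_num)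
        (by norm_num) (by norm_num) (by norm_num) (by norm_num) (by norm_num) (by norm_num)
        huc hus (d01_expneg (by norm_num) (by norm_num) (by norm_num))
        (d01_expneg (by norm_num) (by norm_num) (by norm_num)) (by norm_num) (by norm_num) hd
        (by norm_num) (by norm_num)
  exact d01_inst (p1 := 190 / 100) (P := 21 / 8) (x1 := 36550 / 10000) (S1 := 31032 / 10000) (E1 := 2588 / 100000)
        (c := 1810 / 10000) (c2 := 187 / 100) (c3 := 113 / 100) (uc := 1746 / 10000) (us := 5640 / 10000) h (by linarith) h.hp (by norm_num)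
        (by norm_num) (by norm_num) (by norm_num) (by norm_num) (by norm_num) (by norm_num)
        huc hus (d01_expneg (by norm_num) (by norm_num) (by norm_num))
        (d01_expneg (by norm_num) (by norm_num) (by norm_num)) (by norm_num) (by norm_num) hd
        (by norm_num) (by norm_num)

theorem d01_C {R x p : ℝ} (h : Rg R x p) {a : ℝ} (ha0 : 12 / 10 ≤ a) (ha : a ≤ Real.pi) :
    (hh (zz x p) (-a)).re ≤ -(12 / 1000) := by
  have hp0 := h.hp0
  have hR := h.hR
  have hpi := Real.pi_gt_three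
  have huc : 6360 / 10000 ≤ 1 - Real.cos a := by
    have := d01_onecos (a := a) (u := 6 / 10) (v := 564 / 1000) (by norm_num)
      (by linarith) (by linarith) (by norm_num) (by norm_num)
    norm_num at this ⊢
    linarith
  have hus : 0 / 10000 ≤ Real.sin a := by
    rw [zero_div]
    exact Real.sin_nonneg_of_nonneg_of_le_pi (by linarith) ha
  have hd : 2 * |Real.sin a| + 2 * R * |Real.sin (a / 2)| ≤ 90 / 100 + 200 / 100 * R := by
    have := dl_le hR (by linarith : 0 ≤ a) ha
    linarith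
  exact d01_inst (p1 := 0 / 100) (P := 21 / 8) (x1 := 36550 / 10000) (S1 := 31032 / 10000) (E1 := 2588 / 100000)
        (c := 979 / 10000) (c2 := 90 / 100) (c3 := 200 / 100) (uc := 6360 / 10000) (us := 0 / 10000) h (by linarith) h.hp (by norm_num)
        (by norm_num) (by norm_num) (by norm_num) (by norm_num) (by norm_num) (by norm_num)
        huc hus (d01_expneg (by norm_num) (by norm_num) (by norm_num))
        (d01_expneg (by norm_num) (by norm_num) (by norm_num)) (by norm_num) (by norm_num) hd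
        (by norm_num) (by norm_num)

theorem far_neg {R x p : ℝ} (h : Rg R x p) {a : ℝ} (ha0 : 39 / 100 ≤ a) (ha : a ≤ Real.pi) :
    (hh (zz x p) (-a)).re ≤ -(12 / 1000) := by
  rcases le_or_gt a (6 / 10) with h1 | h1
  · exact d01_A h ha0 h1
  rcases le_or_gt a (12 / 10) with h2 | h2
  · exact d01_B h h1.le h2
  · exact d01_C h h2.le ha

end STR
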