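import Pool.Agent.Helper8.STR.D00

/-!
# STR-D02: the right side, `s` large
`sg x` is the threshold for `s`.  If `s = sS x p b >= sg x` then `AA_ge_c` with `c = e^(-sg x)`,
`k = 1 + c`, `dl_le` (`c2 = 9/10`, `c3 = 2`), `P = 21/8` and `num` with `x1` the left end point of the
interval of `x` (`x < 3.85`: `x1 = 3.655`):
`x1 = 3.655`: `c = 0.1225`, `S1 = 3.1032`, `R1 = 9/2`, `E1 = 0.02587`: margin `0.118`;
`x1 = 3.85`: `c = 0.2019`, `S1 = 3.2115`, `R1 = 4.66`, `E1 = 0.0213`: `0.157`;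
`x1 = 4.2`: `c = 0.3167`, `S1 = 3.4251`, `R1 = 4.953`, `E1 = 0.015`: `0.24`;
`x1 = 4.8`: `c = 0.4494`, `S1 = 3.8381`, `R1 = 5.471`, `E1 = 0.00823`: `0.40`;
`x1 = 5.8`: `c = 0.6377`, `S1 = 4.6186`, `R1 = 6.3664`, `E1 = 0.00303`: `0.35`.
-/

namespace STR

open Complex SCE

/-- the threshold for `s` -/
noncomputable def sg (x : ℝ) : ℝ :=
  if x < 385 / 100 then 21 / 10 else if x < 42 / 10 then 16 / 10 else
    if x < 48 / 10 then 115 / 100 else if x < 58 / 10 then 8 / 10 else 45 / 100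

private theorem exp_neg_le {t E : ℝ} (ht : 0 ≤ t) (hE : 0 < E) (n : ℕ)
    (h : 1 ≤ E * ∑ i ∈ Finset.range n, t ^ i / (i.factorial : ℝ)) : Real.exp (-t) ≤ E := by
  have h1 := Real.sum_le_exp_of_nonneg ht n
  rw [Real.exp_neg, inv_le_iff_one_le_mul₀ (Real.exp_pos t)]
  exact h.trans (mul_le_mul_of_nonneg_left h1 hE.le)

private theorem big_aux {R x p b : ℝ} (h : Rg R x p) (hb0 : 0 ≤ b) (hb : b ≤ Real.pi)
    {σ c x1 S1 R1 E1 : ℝ} (hσ : σ ≤ sS x p b) (hc : Real.exp (-σ) ≤ c) (hx1 : x1 ≤ x)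
    (hx1' : 3655 / 1000 ≤ x1)
    (hS1 : (x1 - 2) ^ 2 + (21 / 8) ^ 2 ≤ S1 ^ 2) (hS1' : 5 / 2 ≤ S1)
    (hR1 : x1 ^ 2 + (21 / 8) ^ 2 ≤ R1 ^ 2) (hR1' : 9 / 2 ≤ R1) (hE : Real.exp (-x1) ≤ E1)
    (hslope : c + 24 / 1000 * (x1 - 2) + 12 / 1000 * (8 - x1) ≤ 1)
    (hm : c * S1 + 1058 / 1000 * ((1 + c) * ((R1 + 2) * E1) + S1 * (E1 * (9 / 10 + 2 * R1))) +
      12 / 1000 * S1 ^ 2 ≤ x1 - 2) : (hh (zz x p) b).re ≤ -(12 / 1000) := by
  have hc' : Real.exp (-(sS x p b)) ≤ c := (Real.exp_le_exp.2 (by linarith)).trans hc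
  have hc0 : 0 ≤ c := (Real.exp_pos _).le.trans hc'
  exact re_of_num h (AA_ge_c h hc') (k := 1 + c) (by linarith) (dl_le h.hR hb0 hb)
    (num h (P := 21 / 8) (by norm_num) h.hp hx1 hx1' hS1 hS1' hR1 hR1' hE hc0 (by linarith)
      (by norm_num) (by norm_num) hslope hm)

theorem far_big {R x p : ℝ} (h : Rg R x p) {b : ℝ} (hb0 : 0 ≤ b) (hb : b ≤ Real.pi)
    (hs : sg x ≤ sS x p b) : (hh (zz x p) b).re ≤ -(12 / 1000) := by
  unfold sg at hs
  split_ifs at hs with h1 h2 h3 h4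
  · refine big_aux h hb0 hb hs (c := 1225 / 10000) (x1 := 3655 / 1000) (S1 := 31032 / 10000) (R1 := 9 / 2)
      (E1 := 2587 / 100000) ?_ (x_ge h) (by norm_num) (by norm_num) (by norm_num) (by norm_num)
      (by norm_num) ?_ (by norm_num) (by norm_num)
    · exact exp_neg_le (by norm_num) (by norm_num) 12 (by norm_num [Finset.sum_range_succ, Nat.factorial])
    · exact exp_neg_le (by norm_num) (by norm_num) 20 (by norm_num [Finset.sum_range_succ, Nat.factorial])
  · refine big_aux h hb0 hb hs (c := 2019 / 10000) (x1 := 385 / 100) (S1 := 32115 / 10000) (R1 := 466 / 100)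
      (E1 := 213 / 10000) ?_ (not_lt.1 h1) (by norm_num) (by norm_num) (by norm_num) (by norm_num)
      (by norm_num) ?_ (by norm_num) (by norm_num)
    · exact exp_neg_le (by norm_num) (by norm_num) 12 (by norm_num [Finset.sum_range_succ, Nat.factorial])
    · exact exp_neg_le (by norm_num) (by norm_num) 20 (by norm_num [Finset.sum_range_succ, Nat.factorial])
  · refine big_aux h hb0 hb hs (c := 3167 / 10000) (x1 := 42 / 10) (S1 := 34251 / 10000) (R1 := 4953 / 1000)
      (E1 := 15 / 1000) ?_ (not_lt.1 h2) (by norm_num) (by norm_num) (by norm_num) (by norm_num)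
      (by norm_num) ?_ (by norm_num) (by norm_num)
    · exact exp_neg_le (by norm_num) (by norm_num) 12 (by norm_num [Finset.sum_range_succ, Nat.factorial])
    · exact exp_neg_le (by norm_num) (by norm_num) 20 (by norm_num [Finset.sum_range_succ, Nat.factorial])
  · refine big_aux h hb0 hb hs (c := 4494 / 10000) (x1 := 48 / 10) (S1 := 38381 / 10000) (R1 := 5471 / 1000)
      (E1 := 823 / 100000) ?_ (not_lt.1 h3) (by norm_num) (by norm_num) (by norm_num) (by norm_num)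
      (by norm_num) ?_ (by norm_num) (by norm_num)
    · exact exp_neg_le (by norm_num) (by norm_num) 12 (by norm_num [Finset.sum_range_succ, Nat.factorial])
    · exact exp_neg_le (by norm_num) (by norm_num) 20 (by norm_num [Finset.sum_range_succ, Nat.factorial])
  · refine big_aux h hb0 hb hs (c := 6377 / 10000) (x1 := 58 / 10) (S1 := 46186 / 10000) (R1 := 63664 / 10000)
      (E1 := 303 / 100000) ?_ (not_lt.1 h4) (by norm_num) (by norm_num) (by norm_num) (by norm_num)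
      (by norm_num) ?_ (by norm_num) (by norm_num)
    · exact exp_neg_le (by norm_num) (by norm_num) 12 (by norm_num [Finset.sum_range_succ, Nat.factorial])
    · exact exp_neg_le (by norm_num) (by norm_num) 20 (by norm_num [Finset.sum_range_succ, Nat.factorial])

end STR
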