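import Pool.Agent.Helper8.STR.A01

/-!
# STR-D03: upper bound of `tau` when `s < sigma`
`al = arctan (p/x) in [0, pi/2)`, `x = R cos al`, `p = R sin al`, `th = b - al`.
`s = x - R cos th` and `tau = R sin th + p - 2b` (expand).  `s < sigma` gives
`R cos th > x - sigma >= 0`, so `-pi/2 < th < pi/2` (`-pi/2 < -al <= th <= pi`), and
`R^2 sin^2 th <= R^2 - (x-sigma)^2 = p^2 + 2 x sigma - sigma^2 = W^2`.
`arc_cube`: `sin t + sin^3 t/6 <= t` for `0 <= t <= pi/2`: the derivative of the difference is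
`1 - cos t - (1/2) sin^2 t cos t = (1 - cos t)(1 - (1/2) cos t (1 + cos t)) >= 0`.
`tau = (R sin th - 2 th) + (p - 2 al)`.
* `p - 2 al <= p - 2 (p/R) - (p/R)^3/3` (`arc_cube` at `al`, `sin al = p/R`).
* `th >= 0`: `R sin th - 2 th <= (R-2) y - y^3/3` with `y = sin th <= W/R <= 1`, increasing in `y` on
  `[0,1]` (derivative `R - 2 - y^2 > 0`), so it is `<= (1-2/R) W - (W/R)^3/3`.
* `th < 0`: `R sin th - 2 th <= 0` (`sin |th| >= (2/pi)|th|`, `R >= pi`), and
  `(1-2/R) W - (W/R)^3/3 >= 0`.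
-/

namespace STR

open Complex SCE

theorem arc_cube {t : ℝ} (h0 : 0 ≤ t) (ht : t ≤ Real.pi / 2) :
    Real.sin t + Real.sin t ^ 3 / 6 ≤ t := by
  have hd : ∀ s : ℝ, HasDerivAt (fun s => s - Real.sin s - Real.sin s ^ 3 / 6)
      (1 - Real.cos s - 3 * Real.sin s ^ 2 * Real.cos s / 6) s := by
    intro s
    have h1 := Real.hasDerivAt_sin s
    have h2 : HasDerivAt (fun s => Real.sin s ^ 3) (3 * Real.sin s ^ 2 * Real.cos s) s := by
      simpa using h1.fun_pow 3
    exact ((hasDerivAt_id s).sub h1).sub (h2.div_const 6)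
  have hmono : MonotoneOn (fun s => s - Real.sin s - Real.sin s ^ 3 / 6)
      (Set.Icc 0 (Real.pi / 2)) := by
    apply monotoneOn_of_deriv_nonneg (convex_Icc _ _)
    · intro s _
      exact (hd s).continuousAt.continuousWithinAt
    · intro s _
      exact (hd s).differentiableAt.differentiableWithinAt
    · intro s hs
      rw [interior_Icc] at hs
      rw [(hd s).deriv]
      have hc0 : 0 ≤ Real.cos s :=
        Real.cos_nonneg_of_neg_pi_div_two_le_of_le (by linarith [hs.1, hs.2]) hs.2.le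
      have hc1 : Real.cos s ≤ 1 := Real.cos_le_one s
      have e : 1 - Real.cos s - 3 * Real.sin s ^ 2 * Real.cos s / 6 =
          (1 - Real.cos s) * (1 - 1 / 2 * Real.cos s * (1 + Real.cos s)) := by
        rw [Real.sin_sq]
        ring
      rw [e]
      apply mul_nonneg (by linarith)
      nlinarith
  have h := hmono (Set.left_mem_Icc.2 (by linarith [Real.pi_pos])) ⟨h0, ht⟩ h0
  simp only [Real.sin_zero] at h
  norm_num at h
  linarith

theorem tau_le {R x p σ : ℝ} (h : Rg R x p) {b : ℝ} (hb0 : 0 ≤ b) (hb : b ≤ Real.pi)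
    (hσ0 : 0 ≤ σ) (hσx : σ ≤ x) (hs : sS x p b < σ) :
    tT x p b ≤ (1 - 2 / R) * (p + Real.sqrt (p ^ 2 + 2 * x * σ - σ ^ 2)) -
      (Real.sqrt (p ^ 2 + 2 * x * σ - σ ^ 2) ^ 3 + p ^ 3) / (3 * R ^ 3) := by
  have hR := h.hR
  have hR0 : 0 < R := by linarith
  have hp0 := h.hp0
  have hx0 := h.hx
  have hxp := h.hxp
  have hpi := Real.pi_pos
  have hpi3 := Real.pi_lt_d2
  have hpR : p / R ≤ 1 := by
    rw [div_le_one hR0]
    by_contra hc
    push Not at hc
    nlinarith
  have hpR0 : 0 ≤ p / R := by positivity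
  set α := Real.arcsin (p / R) with hα
  have hsα : Real.sin α = p / R := Real.sin_arcsin (by linarith) hpR
  have hcα : Real.cos α = x / R := by
    rw [hα, Real.cos_arcsin]
    have e : 1 - (p / R) ^ 2 = (x / R) ^ 2 := by
      field_simp
      linarith
    rw [e, Real.sqrt_sq (by positivity)]
  have hα0 : 0 ≤ α := Real.arcsin_nonneg.2 hpR0
  have hα1 : α ≤ Real.pi / 2 := Real.arcsin_le_pi_div_two _
  set θ := b - α with hθ
  have hRc : R * Real.cos θ = x * Real.cos b + p * Real.sin b := by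
    rw [hθ, Real.cos_sub, hcα, hsα]
    field_simp
  have hRs : R * Real.sin θ = x * Real.sin b - p * Real.cos b := by
    rw [hθ, Real.sin_sub, hcα, hsα]
    field_simp
  have hτ : tT x p b = (R * Real.sin θ - 2 * θ) + (p - 2 * α) := by
    unfold tT
    rw [hRs, hθ]
    ring
  have hcpos : x - σ < R * Real.cos θ := by
    unfold sS at hs
    rw [hRc]
    linarith
  have hc0 : 0 < Real.cos θ := by
    have h1 : 0 < R * Real.cos θ := by linarith
    exact (mul_pos_iff_of_pos_left hR0).1 h1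
  have hθ1 : θ < Real.pi / 2 := by
    by_contra hc
    push Not at hc
    have := Real.cos_nonpos_of_pi_div_two_le_of_le hc (by rw [hθ]; linarith)
    linarith
  have hθ0 : -(Real.pi / 2) ≤ θ := by
    rw [hθ]
    linarith
  -- the number W
  set W := Real.sqrt (p ^ 2 + 2 * x * σ - σ ^ 2) with hW
  have hW0 : 0 ≤ W := Real.sqrt_nonneg _
  have hrad : 0 ≤ p ^ 2 + 2 * x * σ - σ ^ 2 := by nlinarith [sq_nonneg p]
  have hW2 : W ^ 2 = p ^ 2 + 2 * x * σ - σ ^ 2 := Real.sq_sqrt hrad
  have hWR : W / R ≤ 1 := by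
    rw [div_le_one hR0]
    by_contra hc
    push Not at hc
    have h1 : R ^ 2 < W ^ 2 := pow_lt_pow_left₀ hc hR0.le two_ne_zero
    nlinarith [sq_nonneg (x - σ)]
  have hWR0 : 0 ≤ W / R := by positivity
  have hsW : Real.sin θ ≤ W / R := by
    rw [le_div_iff₀ hR0]
    apply Real.le_sqrt_of_sq_le
    have h1 : (Real.sin θ * R) ^ 2 = R ^ 2 - (R * Real.cos θ) ^ 2 := by
      have := Real.sin_sq_add_cos_sq θ
      nlinarith
    have h2 : (x - σ) ^ 2 ≤ (R * Real.cos θ) ^ 2 :=
      pow_le_pow_left₀ (by linarith) hcpos.le 2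
    nlinarith
  -- the first part
  have hG0 : 0 ≤ (R - 2) * (W / R) - (W / R) ^ 3 / 3 := by
    have e : (R - 2) * (W / R) - (W / R) ^ 3 / 3 = (W / R) * (R - 2 - (W / R) ^ 2 / 3) := by ring
    rw [e]
    apply mul_nonneg hWR0
    nlinarith
  have h1 : R * Real.sin θ - 2 * θ ≤ (R - 2) * (W / R) - (W / R) ^ 3 / 3 := by
    rcases le_or_gt 0 θ with hp | hp
    · have ha := arc_cube hp hθ1.le
      have hy0 : 0 ≤ Real.sin θ := Real.sin_nonneg_of_nonneg_of_le_pi hp (by linarith)
      set y := Real.sin θ with hy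
      set Y := W / R with hY
      have e : (R - 2) * Y - Y ^ 3 / 3 - ((R - 2) * y - y ^ 3 / 3) =
          (Y - y) * (R - 2 - (Y ^ 2 + Y * y + y ^ 2) / 3) := by ring
      have e2 : 0 ≤ R - 2 - (Y ^ 2 + Y * y + y ^ 2) / 3 := by nlinarith
      have := mul_nonneg (sub_nonneg.2 hsW) e2
      linarith
    · have hj := Real.mul_le_sin (x := -θ) (by linarith) (by linarith)
      rw [Real.sin_neg] at hj
      have h2 : 2 * (-θ) ≤ R * (2 / Real.pi * (-θ)) := by
        have e : R * (2 / Real.pi * (-θ)) = (R / Real.pi) * (2 * (-θ)) := by ring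
        rw [e]
        have h3 : 1 ≤ R / Real.pi := by
          rw [one_le_div hpi]
          linarith
        have h4 : 0 ≤ 2 * (-θ) := by linarith
        nlinarith
      have h3 := mul_le_mul_of_nonneg_left hj hR0.le
      linarith
  -- the second part
  have h2 : p - 2 * α ≤ p - 2 * (p / R) - (p / R) ^ 3 / 3 := by
    have ha := arc_cube hα0 hα1
    rw [hsα] at ha
    linarith
  rw [hτ]
  have e : (1 - 2 / R) * (p + W) - (W ^ 3 + p ^ 3) / (3 * R ^ 3) =
      ((R - 2) * (W / R) - (W / R) ^ 3 / 3) + (p - 2 * (p / R) - (p / R) ^ 3 / 3) := by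
    field_simp
    ring
  rw [e]
  linarith

end STR
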