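import Pool.Agent.Helper8.STR.D02
import Pool.Agent.Helper8.STR.D03

/-!
# STR-D04: upper bounds of `omega = tau + gam` when `s < sg x`
`om x` is the bound.  Let `x1 <= x < x2`, `sigma` be the constant value of `sg` (last interval:
`x2 = 8`).  By D03 `omega <= (1-2/R)(p+W) - (W^3+p^3)/(3R^3) + arctan(p/(x-2))`.
1. fixed `x`, replace `p` by `P = 21/8`: with `F(R,u) = (R-2)u - u^3/3` the first two terms are
   `F(R, W/R) + F(R, p/R)`; `F` is increasing in `R` and in `u in [0,1]`, and `R`, `p/R`,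
   `(W/R)^2 = 1 - (x-sigma)^2/R^2` are increasing in `p` (`R^2 = x^2+p^2`).
2. `p = P`: `(1-2/R)(P+W)` is increasing in `x` (`W^2 = P^2 + 2x sigma - sigma^2`), and `W/R`, `P/R`
   are decreasing in `x` (`(W/R)^2 = 1 - (x-sigma)^2/(x^2+P^2)`, and `(x-sigma)^2/(x^2+P^2)` is
   increasing: derivative `~ 2(x-sigma)(P^2 + x sigma) >= 0`), so both are bounded by the value at
   `x2` (for the cubic terms this is a lower bound of `W/R`, `P/R`); `arctan(p/(x-2))
   <= arctan(P/(x1-2))`.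
Numbers (`R2 = sqrt(x2^2+P^2)`, `W2 = sqrt(P^2+2 x2 sigma - sigma^2)`):
`[3.655,3.85]`: `R2 = 4.6597`, `W2 = 4.3186`: `3.9634 - 0.3250 + arctan 1.5861 (1.0083) = 4.6467`;
`[3.85,4.2]`: `4.9528`, `4.2155`: `4.0783 - 0.2552 + arctan 1.4189 (0.9569) = 4.7800`;
`[4.2,4.8]`: `5.4709`, `4.0753`: `4.2509 - 0.1746 + arctan 1.1932 (0.8733) = 4.9495`;
`[4.8,5.8]`: `6.3664`, `3.9409`: `4.5032 - 0.1024 + arctan 0.9375 (0.7532) = 5.1539`;
`[5.8,8]`: `8.4197`, `3.7267`: `4.8429 - 0.0390 + arctan 0.6908 (0.6045) = 5.4084`.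
(`arctan` is concave on `[0,oo)`: tangents at `sqrt 3`, `1`, `1/sqrt 3` give
`arctan y <= pi/3 + (y - sqrt 3)/4`, `pi/4 + (y-1)/2`, `pi/6 + (3/4)(y - 1/sqrt 3)`, i.e.
`1.0108, 0.9690, 0.8820, 0.7542, 0.6088` for the five values: loss at most `0.0121`.)
`om_neg`: `s < 0`: D03 with `sigma = 0` (`W = p`) and without the cubic terms:
`omega <= 2(1-2/R) p + arctan(p/(x-2)) <= 4.3789`, largest at `R = 8`, `p = 21/8`.
(With A01: `2(1-2/R)p <= 5.25 (1-2/R)`, `arctan(p/(x-2)) <= pi/6 + (3/4)(q - 0.5773)`,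
`pi/4 + (q-1)/2` or `pi/3 + (q - 1.732)/4`, `q <= 2.625/(x-2)`, `x >= 1.114 R - 1.359`; subdivide
`R`: `[4.5,5]`: `3.15 + 1.011`, `[5,6]`: `3.5+0.862`, `[6,7]`: `3.75+0.66...`, hence use
`[6,6.5],[6.5,7],[7,8]`: `3.635 + 0.66`, `3.75 + 0.585`, `3.9375 + 0.527 = 4.4645`: so `[7,7.5]`,
`[7.5,8]` are needed: `3.85 + 0.527`, `3.9375 + 0.482`: bound `4.5` is what is claimed.)
-/

namespace STR

open Complex SCE

/-- the bound for `tau + gam` -/
noncomputable def om (x : ℝ) : ℝ :=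
  if x < 385 / 100 then 47 / 10 else if x < 42 / 10 then 482 / 100 else
    if x < 48 / 10 then 5 else if x < 58 / 10 then 52 / 10 else 545 / 100

private lemma d04_line {a y : ℝ} (ha : 0 ≤ a) (hy : 0 ≤ y) :
    Real.arctan y ≤ Real.arctan a + (y - a) / (1 + a ^ 2) := by
  rcases lt_trichotomy a y with h | h | h
  · obtain ⟨c, hc, hc'⟩ := exists_hasDerivAt_eq_slope Real.arctan (fun t => 1 / (1 + t ^ 2)) h
      Real.continuous_arctan.continuousOn (fun t _ => Real.hasDerivAt_arctan t)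
    have h1 : Real.arctan y - Real.arctan a = (y - a) * (1 / (1 + c ^ 2)) := by
      rw [hc']; field_simp [sub_ne_zero.mpr h.ne']
    have h2 : (1 : ℝ) / (1 + c ^ 2) ≤ 1 / (1 + a ^ 2) := by
      apply one_div_le_one_div_of_le (by positivity)
      nlinarith [hc.1]
    have h3 : (y - a) * (1 / (1 + c ^ 2)) ≤ (y - a) * (1 / (1 + a ^ 2)) :=
      mul_le_mul_of_nonneg_left h2 (by linarith)
    have h4 : (y - a) * (1 / (1 + a ^ 2)) = (y - a) / (1 + a ^ 2) := by ring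
    linarith
  · subst h; simp
  · obtain ⟨c, hc, hc'⟩ := exists_hasDerivAt_eq_slope Real.arctan (fun t => 1 / (1 + t ^ 2)) h
      Real.continuous_arctan.continuousOn (fun t _ => Real.hasDerivAt_arctan t)
    have h1 : Real.arctan a - Real.arctan y = (a - y) * (1 / (1 + c ^ 2)) := by
      rw [hc']; field_simp [sub_ne_zero.mpr h.ne']
    have h2 : (1 : ℝ) / (1 + a ^ 2) ≤ 1 / (1 + c ^ 2) := by
      apply one_div_le_one_div_of_le (by positivity)
      nlinarith [hc.1, hc.2]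
    have h3 : (a - y) * (1 / (1 + a ^ 2)) ≤ (a - y) * (1 / (1 + c ^ 2)) :=
      mul_le_mul_of_nonneg_left h2 (by linarith)
    have h4 : (a - y) * (1 / (1 + a ^ 2)) = - ((y - a) / (1 + a ^ 2)) := by ring
    linarith

private lemma d04_three {y : ℝ} (hy : 0 ≤ y) : Real.arctan y ≤ 10472 / 10000 + (y - 173205 / 100000) / 4 + 1 / 100000 := by
  have h := d04_line (a := √3) (Real.sqrt_nonneg 3) hy
  have h1 : Real.arctan (√3) = Real.pi / 3 := by
    rw [← Real.tan_pi_div_three]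
    apply Real.arctan_tan <;> linarith [Real.pi_pos]
  have h2 : (√3 : ℝ) ^ 2 = 3 := Real.sq_sqrt (by norm_num)
  have h3 : (173205 / 100000 : ℝ) ≤ √3 := by
    apply Real.le_sqrt_of_sq_le; norm_num
  rw [h1, h2] at h
  have h4 := Real.pi_lt_d4
  linarith

private lemma d04_one {y : ℝ} (hy : 0 ≤ y) : Real.arctan y ≤ 7854 / 10000 + (y - 1) / 2 := by
  have h := d04_line (a := 1) zero_le_one hy
  rw [Real.arctan_one] at h
  have h4 := Real.pi_lt_d4
  linarith

private lemma d04_six {y : ℝ} (hy : 0 ≤ y) : Real.arctan y ≤ 5236 / 10000 + 3 / 4 * (y - 5773 / 10000) + 1 / 100000 := by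
  have h := d04_line (a := 1 / √3) (by positivity) hy
  have h1 : Real.arctan (1 / √3) = Real.pi / 6 := by
    rw [← Real.tan_pi_div_six]
    apply Real.arctan_tan <;> linarith [Real.pi_pos]
  have h2 : (1 / √3 : ℝ) ^ 2 = 1 / 3 := by
    rw [div_pow, Real.sq_sqrt (by norm_num : (0 : ℝ) ≤ 3)]; norm_num
  have h3 : (5773 / 10000 : ℝ) ≤ 1 / √3 := by
    rw [le_div_iff₀ (by positivity)]
    have : √3 ≤ 173206 / 100000 := by
      rw [Real.sqrt_le_left (by norm_num)]; norm_num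
    nlinarith
  rw [h1, h2] at h
  have h4 := Real.pi_lt_d4
  have h5 : (y - 1 / √3) / (1 + 1 / 3) = 3 / 4 * (y - 1 / √3) := by ring
  rw [h5] at h
  linarith

/-- the function `F(R, u) = (R-2) u - u^3/3` is increasing in both variables. -/
private lemma d04_mono {R R' u u' : ℝ} (hR : 3 ≤ R) (hRR : R ≤ R') (hu : 0 ≤ u) (huu : u ≤ u')
    (hu1 : u' ≤ 1) : (R - 2) * u - u ^ 3 / 3 ≤ (R' - 2) * u' - u' ^ 3 / 3 := by
  have h1 : (R - 2) * u' ≤ (R' - 2) * u' := by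
    apply mul_le_mul_of_nonneg_right <;> linarith
  have h2 : u' ^ 2 + u' * u + u ^ 2 ≤ 3 := by nlinarith
  have h3 : 0 ≤ (u' - u) * ((R - 2) - (u' ^ 2 + u' * u + u ^ 2) / 3) := by
    apply mul_nonneg <;> linarith
  nlinarith

/-- comparison `W/R <= W'/R'` of the squares. -/
private lemma d04_div {W R W' R' x p P c : ℝ} (hW : 0 ≤ W) (hR : 0 < R) (hW' : 0 ≤ W') (hR' : 0 < R')
    (h1 : W ^ 2 = p ^ 2 + c) (h2 : R ^ 2 = x ^ 2 + p ^ 2) (h3 : W' ^ 2 = P ^ 2 + c)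
    (h4 : R' ^ 2 = x ^ 2 + P ^ 2) (hp : 0 ≤ p) (hpP : p ≤ P) (hc : c ≤ x ^ 2) :
    W / R ≤ W' / R' := by
  rw [div_le_div_iff₀ hR hR']
  have h5 : (W * R') ^ 2 ≤ (W' * R) ^ 2 := by
    rw [mul_pow, mul_pow, h1, h2, h3, h4]
    have : 0 ≤ (P ^ 2 - p ^ 2) * (x ^ 2 - c) := by
      apply mul_nonneg
      · nlinarith
      · linarith
    nlinarith
  exact abs_le_of_sq_le_sq' h5 (by positivity) |>.2

private lemma d04_core {R x p σ R2 W2 m m' A B : ℝ} (h : Rg R x p) {b : ℝ} (hb0 : 0 ≤ b)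
    (hb : b ≤ Real.pi) (hσ0 : 0 ≤ σ) (hσx : σ ≤ x) (hs : sS x p b < σ)
    (hR2 : x ^ 2 + (21 / 8) ^ 2 ≤ R2 ^ 2) (hR20 : 0 < R2)
    (hW2 : (21 / 8) ^ 2 + 2 * x * σ - σ ^ 2 ≤ W2 ^ 2) (hW20 : 0 ≤ W2)
    (hm : m ^ 2 * (x ^ 2 + (21 / 8) ^ 2) ≤ (21 / 8) ^ 2 + 2 * x * σ - σ ^ 2) (hm0 : 0 ≤ m)
    (hm' : m' ^ 2 * (x ^ 2 + (21 / 8) ^ 2) ≤ (21 / 8) ^ 2) (hm'0 : 0 ≤ m')
    (hg : gam x p ≤ A)
    (hB : (1 - 2 / R2) * (21 / 8 + W2) - (m ^ 3 + m' ^ 3) / 3 + A ≤ B) :
    tT x p b + gam x p ≤ B := by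
  have hR := h.hR
  have hp := h.hp
  have hp0 := h.hp0
  have hx := h.hx
  have hxp := h.hxp
  have h1 := tau_le h hb0 hb hσ0 hσx hs
  have hc0 : 0 ≤ 2 * x * σ - σ ^ 2 := by nlinarith
  have hcx : 2 * x * σ - σ ^ 2 ≤ x ^ 2 := by nlinarith [sq_nonneg (x - σ)]
  set W := Real.sqrt (p ^ 2 + 2 * x * σ - σ ^ 2) with hW
  set W' := Real.sqrt ((21 / 8) ^ 2 + 2 * x * σ - σ ^ 2) with hW'
  set R' := Real.sqrt (x ^ 2 + (21 / 8) ^ 2) with hR'
  have hWs : W ^ 2 = p ^ 2 + (2 * x * σ - σ ^ 2) := by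
    rw [hW, Real.sq_sqrt (by nlinarith [sq_nonneg p])]; ring
  have hWs' : W' ^ 2 = (21 / 8) ^ 2 + (2 * x * σ - σ ^ 2) := by
    rw [hW', Real.sq_sqrt (by nlinarith)]; ring
  have hRs' : R' ^ 2 = x ^ 2 + (21 / 8) ^ 2 := by
    rw [hR', Real.sq_sqrt (by positivity)]
  have hW0 : 0 ≤ W := Real.sqrt_nonneg _
  have hW0' : 0 ≤ W' := Real.sqrt_nonneg _
  have hR0' : 0 < R' := Real.sqrt_pos.mpr (by positivity)
  have hRR : R ≤ R' := by
    apply Real.le_sqrt_of_sq_le; nlinarith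
  have hR0 : 0 < R := by linarith
  have hd1 : W / R ≤ W' / R' := d04_div hW0 hR0 hW0' hR0' hWs hxp.symm hWs' hRs' hp0 hp hcx
  have hd2 : p / R ≤ (21 / 8) / R' := by
    refine d04_div (c := 0) hp0 hR0 (by norm_num) hR0' (by ring) hxp.symm (by ring) hRs' hp0 hp ?_
    positivity
  have hu1 : W' / R' ≤ 1 := by
    rw [div_le_one hR0']
    apply Real.sqrt_le_sqrt; linarith
  have hv1 : (21 / 8 : ℝ) / R' ≤ 1 := by
    rw [div_le_one hR0']
    apply Real.le_sqrt_of_sq_le; nlinarith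
  have hF1 := d04_mono (by linarith : (3 : ℝ) ≤ R) hRR (div_nonneg hW0 hR0.le) hd1 hu1
  have hF2 := d04_mono (by linarith : (3 : ℝ) ≤ R) hRR (div_nonneg hp0 hR0.le) hd2 hv1
  have e1 : (1 - 2 / R) * (p + W) - (W ^ 3 + p ^ 3) / (3 * R ^ 3) =
      ((R - 2) * (W / R) - (W / R) ^ 3 / 3) + ((R - 2) * (p / R) - (p / R) ^ 3 / 3) := by
    field_simp; ring
  have e2 : ((R' - 2) * (W' / R') - (W' / R') ^ 3 / 3) +
      ((R' - 2) * ((21 / 8) / R') - ((21 / 8) / R') ^ 3 / 3) =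
      (1 - 2 / R') * (21 / 8 + W') - ((W' / R') ^ 3 + ((21 / 8) / R') ^ 3) / 3 := by
    field_simp; ring
  have hR2' : R' ≤ R2 := by
    rw [hR', Real.sqrt_le_left hR20.le]; exact hR2
  have hW2' : W' ≤ W2 := by
    rw [hW', Real.sqrt_le_left hW20]; exact hW2
  have hmm : m ≤ W' / R' := by
    rw [le_div_iff₀ hR0']
    apply Real.le_sqrt_of_sq_le
    rw [mul_pow, hRs']; exact hm
  have hmm' : m' ≤ (21 / 8) / R' := by
    rw [le_div_iff₀ hR0']
    have : (m' * R') ^ 2 ≤ (21 / 8) ^ 2 := by rw [mul_pow, hRs']; exact hm'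
    exact abs_le_of_sq_le_sq' this (by norm_num) |>.2
  have h3 : m ^ 3 ≤ (W' / R') ^ 3 := pow_le_pow_left₀ hm0 hmm 3
  have h4 : m' ^ 3 ≤ ((21 / 8) / R') ^ 3 := pow_le_pow_left₀ hm'0 hmm' 3
  have h5 : 2 / R2 ≤ 2 / R' := div_le_div_of_nonneg_left (by norm_num) hR0' hR2'
  have h6 : (1 - 2 / R') * (21 / 8 + W') ≤ (1 - 2 / R2) * (21 / 8 + W2) := by
    have h7 : 0 ≤ 1 - 2 / R' := by
      rw [sub_nonneg, div_le_one hR0']; linarith
    have h8 : (1 - 2 / R') * (21 / 8 + W') ≤ (1 - 2 / R') * (21 / 8 + W2) :=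
      mul_le_mul_of_nonneg_left (by linarith) h7
    have h9 : (1 - 2 / R') * (21 / 8 + W2) ≤ (1 - 2 / R2) * (21 / 8 + W2) :=
      mul_le_mul_of_nonneg_right (by linarith) (by linarith)
    linarith
  linarith

private lemma d04_gam {R x p x1 : ℝ} (h : Rg R x p) (h1 : 2 < x1) (h2 : x1 ≤ x) :
    0 ≤ p / (x - 2) ∧ p / (x - 2) ≤ (21 / 8) / (x1 - 2) := by
  have hp0 := h.hp0
  have hp := h.hp
  constructor
  · apply div_nonneg hp0; linarith
  · exact div_le_div₀ (by norm_num) hp (by linarith) (by linarith)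

theorem om_le {R x p : ℝ} (h : Rg R x p) {b : ℝ} (hb0 : 0 ≤ b) (hb : b ≤ Real.pi)
    (hs : sS x p b < sg x) : tT x p b + gam x p ≤ om x := by
  have hx1 := x_ge h
  have hx8 : x ≤ 8 := (x_le h).trans h.hR8
  unfold om
  unfold sg at hs
  split_ifs at hs ⊢ with h1 h2 h3 h4
  · have hg : gam x p ≤ 10108 / 10000 := by
      obtain ⟨hq0, hq⟩ := d04_gam h (by norm_num) hx1
      have := d04_three hq0
      unfold gam
      norm_num at hq
      linarith
    refine d04_core (R2 := 466 / 100) (W2 := 4319 / 1000) (m := 9267 / 10000) (m' := 5633 / 10000)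
      h hb0 hb (by norm_num) (by linarith) hs ?_ (by norm_num) ?_ (by norm_num) ?_ (by norm_num) ?_
      (by norm_num) hg (by norm_num)
    · nlinarith
    · nlinarith
    · nlinarith
    · nlinarith
  · have hx2 : 385 / 100 ≤ x := not_lt.mp h1
    have hg : gam x p ≤ 9690 / 10000 := by
      obtain ⟨hq0, hq⟩ := d04_gam h (by norm_num) hx2
      have := d04_three hq0
      unfold gam
      norm_num at hq
      linarith
    refine d04_core (R2 := 4953 / 1000) (W2 := 4216 / 1000) (m := 8511 / 10000) (m' := 5299 / 10000)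
      h hb0 hb (by norm_num) (by linarith) hs ?_ (by norm_num) ?_ (by norm_num) ?_ (by norm_num) ?_
      (by norm_num) hg (by norm_num)
    · nlinarith
    · nlinarith
    · nlinarith
    · nlinarith
  · have hx2 : 42 / 10 ≤ x := not_lt.mp h2
    have hg : gam x p ≤ 8821 / 10000 := by
      obtain ⟨hq0, hq⟩ := d04_gam h (by norm_num) hx2
      have := d04_one hq0
      unfold gam
      norm_num at hq
      linarith
    refine d04_core (R2 := 5471 / 1000) (W2 := 4076 / 1000) (m := 7448 / 10000) (m' := 4797 / 10000)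
      h hb0 hb (by norm_num) (by linarith) hs ?_ (by norm_num) ?_ (by norm_num) ?_ (by norm_num) ?_
      (by norm_num) hg (by norm_num)
    · nlinarith
    · nlinarith
    · nlinarith
    · nlinarith
  · have hx2 : 48 / 10 ≤ x := not_lt.mp h3
    have hg : gam x p ≤ 7543 / 10000 := by
      obtain ⟨hq0, hq⟩ := d04_gam h (by norm_num) hx2
      have := d04_one hq0
      unfold gam
      norm_num at hq
      linarith
    refine d04_core (R2 := 6367 / 1000) (W2 := 3941 / 1000) (m := 6190 / 10000) (m' := 4123 / 10000)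
      h hb0 hb (by norm_num) (by linarith) hs ?_ (by norm_num) ?_ (by norm_num) ?_ (by norm_num) ?_
      (by norm_num) hg (by norm_num)
    · nlinarith
    · nlinarith
    · nlinarith
    · nlinarith
  · have hx2 : 58 / 10 ≤ x := not_lt.mp h4
    have hg : gam x p ≤ 6088 / 10000 := by
      obtain ⟨hq0, hq⟩ := d04_gam h (by norm_num) hx2
      have := d04_six hq0
      unfold gam
      norm_num at hq
      linarith
    refine d04_core (R2 := 842 / 100) (W2 := 3727 / 1000) (m := 4426 / 10000) (m' := 3117 / 10000)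
      h hb0 hb (by norm_num) (by linarith) hs ?_ (by norm_num) ?_ (by norm_num) ?_ (by norm_num) ?_
      (by norm_num) hg (by norm_num)
    · nlinarith
    · nlinarith
    · nlinarith
    · nlinarith

theorem om_neg {R x p : ℝ} (h : Rg R x p) {b : ℝ} (hb0 : 0 ≤ b) (hb : b ≤ Real.pi)
    (hs : sS x p b < 0) : tT x p b + gam x p ≤ 45 / 10 := by
  have hR := h.hR
  have hR8 := h.hR8
  have hp := h.hp
  have hp0 := h.hp0
  have hx := h.hx
  have hxp := h.hxp
  have hxc := x_chord h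
  have hR0 : 0 < R := by linarith
  have h1 := tau_le h hb0 hb le_rfl hx.le hs
  have hW : Real.sqrt (p ^ 2 + 2 * x * 0 - 0 ^ 2) = p := by
    rw [show p ^ 2 + 2 * x * 0 - 0 ^ 2 = p ^ 2 by ring, Real.sqrt_sq hp0]
  rw [hW] at h1
  have e1 : (1 - 2 / R) * (p + p) - (p ^ 3 + p ^ 3) / (3 * R ^ 3) =
      2 * ((R - 2) * (p / R) - (p / R) ^ 3 / 3) := by
    field_simp; ring
  have hPR : (21 / 8 : ℝ) / R ≤ 1 := by rw [div_le_one hR0]; linarith
  have h2 := d04_mono (by linarith : (3 : ℝ) ≤ R) le_rfl (div_nonneg hp0 hR0.le)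
    (div_le_div_of_nonneg_right hp hR0.le) hPR
  have hd : 0 < 1114 / 1000 * R - 3359 / 1000 := by linarith
  have hg : gam x p ≤ (21 / 8) / (1114 / 1000 * R - 3359 / 1000) := by
    have h3 : gam x p ≤ p / (x - 2) := by
      have h3' := d04_line (a := 0) le_rfl (div_nonneg hp0 (by linarith : 0 ≤ x - 2))
      unfold gam
      simpa using h3'
    have h4 : p / (x - 2) ≤ (21 / 8) / (1114 / 1000 * R - 3359 / 1000) :=
      div_le_div₀ (by norm_num) hp (by linarith) (by linarith)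
    linarith
  have e2 : 2 * ((R - 2) * ((21 / 8) / R) - ((21 / 8) / R) ^ 3 / 3) =
      (21 / 4) * (1 - 2 / R) - 2 * ((21 / 8) / R) ^ 3 / 3 := by
    field_simp
    ring
  have hfrac : ∀ d : ℝ, 0 < d → (21 / 4) * (1 - 2 / R) + (21 / 8) / d =
      ((21 / 4) * (R - 2) * d + (21 / 8) * R) / (R * d) := by
    intro d hd
    field_simp
  have key : (21 / 4) * (1 - 2 / R) - 2 * ((21 / 8) / R) ^ 3 / 3 +
      (21 / 8) / (1114 / 1000 * R - 3359 / 1000) ≤ 45 / 10 := by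
    rcases le_total R 5 with h5 | h5
    · have h6 : (525 / 1000 : ℝ) ^ 3 ≤ ((21 / 8) / R) ^ 3 := by
        apply pow_le_pow_left₀ (by norm_num)
        rw [le_div_iff₀ hR0]; linarith
      have h7 : (21 / 4) * (1 - 2 / R) + (21 / 8) / (1114 / 1000 * R - 3359 / 1000) ≤ 459 / 100 := by
        rw [hfrac _ hd, div_le_iff₀ (by positivity)]
        nlinarith
      norm_num at h6 ⊢
      linarith
    · have h6 : 0 ≤ ((21 / 8) / R) ^ 3 := by positivity
      have h7 : (21 / 4) * (1 - 2 / R) + (21 / 8) / (1114 / 1000 * R - 3359 / 1000) ≤ 45 / 10 := by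
        rw [hfrac _ hd, div_le_iff₀ (by positivity)]
        nlinarith
      linarith
  linarith

end STR
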