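import Pool.Agent.Helper8.STR.A01

/-!
# STR-D05: lower bounds of `omega = tau + gam` for `b >= pi/R`, `x cos b + p sin b > 0`
`al = arctan (p/x)`, `x = R cos al`, `p = R sin al`, `th = b - al`: `x cos b + p sin b = R cos th > 0`
and `omega = phi(th) + (p - 2 al + gam)`, `phi(t) = R sin t - 2 t`, concave on `[0, pi/2]`.
`R sin(pi/R) >= 21/8` (`sin(pi/R) >= (pi/R)(1 - (pi/R)^2/6)`, `pi/R <= 0.6982`:
`R sin(pi/R) >= 3.1415*0.9187 = 2.886`), so `al = arcsin(p/R) <= pi/R <= b` and
`0 <= pi/R - al <= th < pi/2`.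
Concavity: `phi(th) >= min(phi(pi/R - al), phi(pi/2))`, `phi(pi/2) = R - pi`.
* `phi(pi/2) + p - 2 al + gam >= R - pi + (p - 2 al + gam)`, and
* `phi(pi/R - al) + p - 2 al + gam = x sin(pi/R) - p cos(pi/R) + p - 2 pi/R + gam`
  (`>= x sin(pi/R) - 2 pi/R + gam`).
(a) `>= 1.35`: `gam >= al` (`p/(x-2) >= p/x`), `p - 2al + gam >= p - al >= 0` (`al <= tan al = p/x
    <= p`), `R - pi >= 1.358`; and `x sin(pi/R) - 2pi/R + p(1 - cos(pi/R)) + gam`: at `p = 0`,
    `R = 4.5`: `1.496`; in general `x >= R - p^2/(2x)...`: `>= 1.36` on the whole ring.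
(b) `p >= 9/20`: `>= 1.7667 > pi/2 = 1.5708` (minimum at `R = 4.5`, `p = 0.45`):
    `R - pi + (p - 2al + gam) >= 1.358 + 0.42`, `x sin(pi/R) - 2pi/R + p(1-cos(pi/R)) + gam
    >= 1.7667`.
Grid values of the second expression at `R = 4.5`: `p = 0: 1.496`, `0.45: 1.767`, `1: 2.08`,
`1.5: 2.31`, `2: 2.48`, `2.625: 2.58`; it increases with `R` (`R = 8`, `p = 0: 2.28`).
For a proof of (a), (b) in two variables: `sin(pi/R) >= (pi/R) - (pi/R)^3/6`, `1 - cos(pi/R)
>= (pi/R)^2/2 - (pi/R)^4/24`, `gam >= arctan(p/(x-2)) >= ...` (`arctan y >= y - y^3/3`, or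
`arctan y >= y/(1+y^2) ...`; for large `p` cruder bounds suffice), `x = sqrt(R^2-p^2)
>= R - p^2/(R + x)`.
-/

namespace STR

open Complex SCE

private lemma d05_al {R x p : ℝ} (h : Rg R x p) :
    Real.cos (Real.arctan (p / x)) = x / R ∧ Real.sin (Real.arctan (p / x)) = p / R := by
  have hR := h.hR
  have hx := h.hx
  have hR0 : 0 < R := by linarith
  have h1 : √(1 + (p / x) ^ 2) = R / x := by
    rw [Real.sqrt_eq_iff_mul_self_eq_of_pos (by positivity)]
    have := h.hxp
    field_simp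
    linarith
  rw [Real.cos_arctan, Real.sin_arctan, h1]
  constructor
  · field_simp
  · field_simp

private lemma d05_be {R x p : ℝ} (h : Rg R x p) :
    3926 / 10000 ≤ Real.pi / R ∧ Real.pi / R ≤ 69814 / 100000 := by
  have hR := h.hR
  have hR8 := h.hR8
  have hR0 : 0 < R := by linarith
  have h1 := Real.pi_gt_d4
  have h2 := Real.pi_lt_d4
  constructor
  · rw [le_div_iff₀ hR0]; linarith
  · rw [div_le_iff₀ hR0]; linarith

private lemma d05_sin {R x p : ℝ} (h : Rg R x p) :
    Real.pi - Real.pi * (Real.pi / R) ^ 2 / 6 ≤ R * Real.sin (Real.pi / R) := by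
  have hR := h.hR
  have hR0 : 0 < R := by linarith
  obtain ⟨h1, h2⟩ := d05_be h
  have h3 : Real.pi / R - (Real.pi / R) ^ 3 / 6 ≤ Real.sin (Real.pi / R) := by
    have := Real.sin_ge_sub_cube (x := Real.pi / R) (by linarith)
    linarith
  have h4 : R * (Real.pi / R - (Real.pi / R) ^ 3 / 6) ≤ R * Real.sin (Real.pi / R) :=
    mul_le_mul_of_nonneg_left h3 hR0.le
  have h5 : R * (Real.pi / R - (Real.pi / R) ^ 3 / 6) =
      Real.pi - Real.pi * (Real.pi / R) ^ 2 / 6 := by
    field_simp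
  linarith

private lemma d05_main {R x p : ℝ} (h : Rg R x p) {b : ℝ} (hb0 : Real.pi / R ≤ b)
    (hb : b ≤ Real.pi) (hc : 0 < x * Real.cos b + p * Real.sin b) :
    min (x * Real.sin (Real.pi / R) + p * (1 - Real.cos (Real.pi / R)) - 2 * (Real.pi / R))
      (R - Real.pi + (p - 2 * Real.arctan (p / x))) ≤ tT x p b := by
  have hR := h.hR
  have hx := h.hx
  have hp0 := h.hp0
  have hp := h.hp
  have hR0 : 0 < R := by linarith
  obtain ⟨hc1, hs1⟩ := d05_al h
  obtain ⟨hb1, hb2⟩ := d05_be h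
  have hpi1 := Real.pi_gt_d4
  have hpi2 := Real.pi_lt_d4
  set al := Real.arctan (p / x) with hal
  set be := Real.pi / R with hbe
  have hal0 : 0 ≤ al := Real.arctan_nonneg.mpr (div_nonneg hp0 hx.le)
  have hal1 : al < Real.pi / 2 := Real.arctan_lt_pi_div_two _
  have hsb := d05_sin h
  rw [← hbe] at hsb
  have hpb : p / R ≤ Real.sin be := by
    rw [div_le_iff₀ hR0]
    nlinarith
  have hab : al ≤ be := by
    by_contra hcon
    push Not at hcon
    have := Real.sin_lt_sin_of_lt_of_le_pi_div_two (x := be) (y := al) (by linarith) hal1.le hcon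
    linarith
  have hxR : x = R * Real.cos al := by rw [hc1]; field_simp
  have hpR : p = R * Real.sin al := by rw [hs1]; field_simp
  have hth : b - al < Real.pi / 2 := by
    by_contra hcon
    push Not at hcon
    have h1 := Real.cos_nonpos_of_pi_div_two_le_of_le hcon (by linarith)
    rw [Real.cos_sub] at h1
    have h2 : x * Real.cos b + p * Real.sin b =
        R * (Real.cos b * Real.cos al + Real.sin b * Real.sin al) := by
      rw [hxR, hpR]; ring
    nlinarith
  have hconc : ConcaveOn ℝ (Set.Icc 0 Real.pi) (fun t => R * Real.sin t - 2 * t) := by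
    have h1 : ConcaveOn ℝ (Set.Icc 0 Real.pi) Real.sin := strictConcaveOn_sin_Icc.concaveOn
    have h2 := h1.smul hR0.le
    have h3 : ConvexOn ℝ (Set.Icc 0 Real.pi) (fun t : ℝ => 2 * t) :=
      (convexOn_id (convex_Icc 0 Real.pi)).smul (by norm_num : (0 : ℝ) ≤ 2)
    exact h2.sub h3
  have hmin := hconc.min_le_of_mem_Icc (x := be - al) (y := Real.pi / 2) (z := b - al)
    ⟨by linarith, by linarith⟩ ⟨by linarith, by linarith⟩ ⟨by linarith, hth.le⟩
  have e1 : tT x p b = (R * Real.sin (b - al) - 2 * (b - al)) + (p - 2 * al) := by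
    unfold tT
    rw [Real.sin_sub]
    have : R * (Real.sin b * Real.cos al - Real.cos b * Real.sin al) =
        x * Real.sin b - p * Real.cos b := by
      rw [hxR, hpR]; ring
    rw [this]; ring
  have e2 : x * Real.sin be + p * (1 - Real.cos be) - 2 * be =
      (R * Real.sin (be - al) - 2 * (be - al)) + (p - 2 * al) := by
    rw [Real.sin_sub]
    have : R * (Real.sin be * Real.cos al - Real.cos be * Real.sin al) =
        x * Real.sin be - p * Real.cos be := by
      rw [hxR, hpR]; ring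
    rw [this]; ring
  have e3 : R - Real.pi + (p - 2 * al) =
      (R * Real.sin (Real.pi / 2) - 2 * (Real.pi / 2)) + (p - 2 * al) := by
    rw [Real.sin_pi_div_two]; ring
  rw [e1, e2, e3]
  rcases min_le_iff.mp hmin with h4 | h4
  · exact (min_le_left _ _).trans (by simpa using h4)
  · exact (min_le_right _ _).trans (by simpa using h4)

private lemma d05_gam {R x p : ℝ} (h : Rg R x p) :
    Real.arctan (p / x) ≤ gam x p ∧ p / R ≤ Real.arctan (p / x) ∧
      Real.arctan (p / x) ≤ p / 3 := by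
  have hR := h.hR
  have hx := x_ge h
  have hp0 := h.hp0
  have hx0 := h.hx
  obtain ⟨hc1, hs1⟩ := d05_al h
  have hal0 : 0 ≤ Real.arctan (p / x) := Real.arctan_nonneg.mpr (div_nonneg hp0 hx0.le)
  have hle : ∀ y : ℝ, 0 ≤ y → Real.arctan y ≤ y := by
    intro y hy
    have h1 := Real.arctan_lt_pi_div_two y
    have h2 := Real.le_tan (Real.arctan_nonneg.mpr hy) h1
    rwa [Real.tan_arctan] at h2
  refine ⟨?_, ?_, ?_⟩
  · unfold gam
    apply Real.arctan_mono
    exact div_le_div_of_nonneg_left hp0 (by linarith) (by linarith)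
  · rw [← hs1]; exact Real.sin_le hal0
  · refine (hle _ (div_nonneg hp0 hx0.le)).trans ?_
    exact div_le_div_of_nonneg_left hp0 (by norm_num) (by linarith)

/-- the gain: `gam + p(1 - cos be) - (R - x) sin be >= p (1/R + (1 - cos be) - 0.322 be)`. -/
private lemma d05_gain {R x p : ℝ} (h : Rg R x p) :
    R * Real.sin (Real.pi / R) + p * (1 / R + (1 - Real.cos (Real.pi / R)) -
      322 / 1000 * (Real.pi / R)) ≤
    x * Real.sin (Real.pi / R) + p * (1 - Real.cos (Real.pi / R)) + gam x p := by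
  have hR := h.hR
  have hR0 : 0 < R := by linarith
  have hx := x_ge h
  have hp0 := h.hp0
  have hp := h.hp
  have hxp := h.hxp
  obtain ⟨hg1, hg2, -⟩ := d05_gam h
  obtain ⟨hb1, hb2⟩ := d05_be h
  have hpi1 := Real.pi_gt_d4
  set be := Real.pi / R with hbe
  have hs0 : 0 ≤ Real.sin be := Real.sin_nonneg_of_nonneg_of_le_pi (by linarith) (by linarith)
  have hs1 : Real.sin be ≤ be := Real.sin_le (by linarith)
  have hRx : R - x ≤ 322 / 1000 * p := by
    have h1 : (R - x) * (R + x) = p ^ 2 := by nlinarith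
    have h2 : p ^ 2 ≤ 322 / 1000 * p * (R + x) := by nlinarith
    by_contra hcon
    push Not at hcon
    nlinarith
  have hRx0 : 0 ≤ R - x := by
    have := x_le h
    linarith
  have h3 : (R - x) * Real.sin be ≤ 322 / 1000 * p * be := by
    calc (R - x) * Real.sin be ≤ (R - x) * be := mul_le_mul_of_nonneg_left hs1 hRx0
      _ ≤ 322 / 1000 * p * be := mul_le_mul_of_nonneg_right hRx (by linarith)
  have h4 : p * (1 / R) = p / R := by ring
  nlinarith

private lemma d05_br {R x p : ℝ} (h : Rg R x p) :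
    (Real.pi / R) ^ 2 / 2 - 5 / 96 * (Real.pi / R) ^ 4 - 4 / 1000 * (Real.pi / R) ≤
      1 / R + (1 - Real.cos (Real.pi / R)) - 322 / 1000 * (Real.pi / R) := by
  have hR := h.hR
  have hR0 : 0 < R := by linarith
  obtain ⟨hb1, hb2⟩ := d05_be h
  have hpi2 := Real.pi_lt_d4
  have h6 : 1 / R = (Real.pi / R) / Real.pi := by field_simp
  have h7 : (Real.pi / R) * (318 / 1000) ≤ 1 / R := by
    rw [h6, le_div_iff₀ Real.pi_pos]
    nlinarith
  set be := Real.pi / R with hbe
  have h8 := Real.cos_bound (x := be) (by rw [abs_of_nonneg (by linarith)]; linarith)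
  rw [abs_of_nonneg (by linarith : (0 : ℝ) ≤ be)] at h8
  have h9 := (abs_le.mp h8).2
  nlinarith

theorem om_ge {R x p : ℝ} (h : Rg R x p) {b : ℝ} (hb0 : Real.pi / R ≤ b) (hb : b ≤ Real.pi)
    (hc : 0 < x * Real.cos b + p * Real.sin b) : 135 / 100 ≤ tT x p b + gam x p := by
  have hR := h.hR
  have hR0 : 0 < R := by linarith
  have hp0 := h.hp0
  have hmin := d05_main h hb0 hb hc
  obtain ⟨hg1, hg2, hg3⟩ := d05_gam h
  have hga := d05_gain h
  have hsn := d05_sin h
  obtain ⟨hb1, hb2⟩ := d05_be h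
  have hpi1 := Real.pi_gt_d4
  have hpi2 := Real.pi_lt_d4
  have hbr := d05_br h
  rcases min_le_iff.mp hmin with h4 | h4
  · have h5 : 0 ≤ 1 / R + (1 - Real.cos (Real.pi / R)) - 322 / 1000 * (Real.pi / R) := by
      set be := Real.pi / R with hbe
      have h10 : be ^ 2 ≤ 1 / 2 := by nlinarith
      nlinarith
    have h6 := mul_nonneg hp0 h5
    set be := Real.pi / R with hbe
    have h7 : be ^ 2 ≤ 48740 / 100000 := by nlinarith
    nlinarith
  · linarith

theorem om_ge' {R x p : ℝ} (h : Rg R x p) {b : ℝ} (hb0 : Real.pi / R ≤ b) (hb : b ≤ Real.pi)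
    (hc : 0 < x * Real.cos b + p * Real.sin b) (hp : 9 / 20 ≤ p) :
    Real.pi / 2 ≤ tT x p b + gam x p := by
  have hR := h.hR
  have hR0 : 0 < R := by linarith
  have hp0 := h.hp0
  have hmin := d05_main h hb0 hb hc
  obtain ⟨hg1, hg2, hg3⟩ := d05_gam h
  have hga := d05_gain h
  have hsn := d05_sin h
  obtain ⟨hb1, hb2⟩ := d05_be h
  have hpi1 := Real.pi_gt_d4
  have hpi2 := Real.pi_lt_d4
  have hbr := d05_br h
  rcases min_le_iff.mp hmin with h4 | h4
  · set be := Real.pi / R with hbe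
    rcases le_total be (6615 / 10000) with h8 | h8
    · have h5 : 0 ≤ 1 / R + (1 - Real.cos be) - 322 / 1000 * be := by
        have h10 : be ^ 2 ≤ 1 / 2 := by nlinarith
        nlinarith
      have h6 := mul_nonneg hp0 h5
      have h7 : be ^ 2 ≤ 4376 / 10000 := by nlinarith
      nlinarith
    · have h5 : 206 / 1000 ≤ 1 / R + (1 - Real.cos be) - 322 / 1000 * be := by
        have h10 : be ^ 2 ≤ 48741 / 100000 := by nlinarith
        have h11 : 43758 / 100000 ≤ be ^ 2 := by nlinarith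
        nlinarith
      have h6 : 9 / 20 * (206 / 1000) ≤ p * (1 / R + (1 - Real.cos be) - 322 / 1000 * be) :=
        mul_le_mul hp h5 (by norm_num) hp0
      have h7 : be ^ 2 ≤ 48741 / 100000 := by nlinarith
      nlinarith
  · linarith

end STR
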