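import Pool.Agent.Helper8.STR.D00
import Pool.Agent.Helper8.STR.D04
import Pool.Agent.Helper8.STR.D05

/-!
# STR-D06: the right side, `s = sS x p b < sg x`, `pi/R <= b <= pi`
`omega = tT x p b + gam x p`, `AA_cos`: `(x-2) AA = (x-2) - e^(-s) S cos omega`, `dl_le`
(`c2 = 9/10`, `c3 = 2`), `e^(-s) <= e^(R-x) <= e^0.845 <= 2.33` (`neg_sS_le`, `RmX`).
(`s < sg x` gives `x cos b + p sin b = x - s > x - sg x > 0`, so D05 applies.)
(a) `cos omega <= 0`: `re_of_num` with `c = 0`, `k = 3.33`, `num`: `P = 21/8`, `x1 = 3.655`,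
    `S1 = 3.1032`, `R1 = 9/2`, `E1 = 0.02587` (`e^(-3.655) = 0.025861`, A02 `exp_x`): margin `0.10`.
(b) `cos omega > 0`, `omega < pi/2`: D05 (b) gives `p < 9/20`, D05 (a) `omega >= 1.35`,
    `cos omega <= cos 1.35 <= 0.2191`; `R - x = p^2/(R+x) <= 0.2025/8.977 <= 0.0226`,
    `e^(-s) <= 1.0229`: `c = 0.2242`, `k = 2.03`; `num`: `P = 9/20`, `x1 = 4.4774`, `S1 = 2.52`,
    `R1 = 9/2`, `E1 = 0.01137`: margin `1.37`.
(c) `cos omega > 0`, `omega >= pi/2`: `omega <= om x <= 5.45 < 2 pi`, so `omega > 3 pi/2 = 4.7123`;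
    by `om_neg` (`<= 4.5`) `s >= 0`, `e^(-s) <= 1`, `k = 2`, and `cos omega <= cos (om x)`
    (`cos` increasing on `[pi, 2 pi]`): `x < 3.85`: `om x = 4.7 < 3 pi/2`, impossible;
    `x1 = 3.85`: `c = cos 4.82 <= 0.1075`, `S1 = 3.2115`, `R1 = 4.66`, `E1 = 0.0213`: margin `0.33`;
    `x1 = 4.2`: `c = cos 5 <= 0.2837`, `S1 = 3.4251`, `R1 = 4.953`, `E1 = 0.015`: `0.27`;
    `x1 = 4.8`: `c = cos 5.2 <= 0.4686`, `S1 = 3.8381`, `R1 = 5.471`, `E1 = 0.00823`: `0.29`;
    `x1 = 5.8`: `c = cos 5.45 <= 0.6725`, `S1 = 4.6186`, `R1 = 6.3664`, `E1 = 0.00303`: `0.18`.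
-/

namespace STR

open Complex SCE

private theorem exp_neg_le {x E : ℝ} (hx : 0 ≤ x) (hE : 0 < E) (n : ℕ)
    (h : 1 / E ≤ ∑ i ∈ Finset.range n, x ^ i / (i.factorial : ℝ)) : Real.exp (-x) ≤ E := by
  have h1 := h.trans (Real.sum_le_exp_of_nonneg hx n)
  rw [Real.exp_neg]
  have h3 := inv_anti₀ (by positivity) h1
  rwa [one_div, inv_inv] at h3

private theorem e44774 : Real.exp (-(44774 / 10000)) ≤ 1137 / 100000 := by
  refine exp_neg_le (by norm_num) (by norm_num) 20 ?_
  norm_num [Finset.sum_range_succ, Nat.factorial]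

private theorem e385 : Real.exp (-(385 / 100)) ≤ 213 / 10000 := by
  refine exp_neg_le (by norm_num) (by norm_num) 18 ?_
  norm_num [Finset.sum_range_succ, Nat.factorial]

private theorem e42 : Real.exp (-(42 / 10)) ≤ 15 / 1000 := by
  refine exp_neg_le (by norm_num) (by norm_num) 20 ?_
  norm_num [Finset.sum_range_succ, Nat.factorial]

private theorem e48 : Real.exp (-(48 / 10)) ≤ 823 / 100000 := by
  refine exp_neg_le (by norm_num) (by norm_num) 24 ?_
  norm_num [Finset.sum_range_succ, Nat.factorial]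

private theorem e58 : Real.exp (-(58 / 10)) ≤ 303 / 100000 := by
  refine exp_neg_le (by norm_num) (by norm_num) 24 ?_
  norm_num [Finset.sum_range_succ, Nat.factorial]

private theorem e845 : Real.exp (845 / 1000) ≤ 233 / 100 := by
  have h := Real.exp_bound' (x := 845 / 1000) (by norm_num) (by norm_num) (n := 9) (by norm_num)
  refine h.trans ?_
  norm_num [Finset.sum_range_succ, Nat.factorial]

private theorem e226 : Real.exp (226 / 10000) ≤ 10232 / 10000 := by
  have h := Real.exp_bound' (x := 226 / 10000) (by norm_num) (by norm_num) (n := 3) (by norm_num)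
  refine h.trans ?_
  norm_num [Finset.sum_range_succ, Nat.factorial]

private theorem sin_7377 : Real.sin (7377 / 10000) ≤ 69 / 100 := by
  have h := Real.sin_bound (x := 7377 / 10000) (by rw [abs_of_pos] <;> norm_num)
  have h1 := (abs_le.1 h).2
  rw [abs_of_pos (by norm_num)] at h1
  have : (7377 / 10000 : ℝ) - (7377 / 10000) ^ 3 / 6 + (7377 / 10000) ^ 4 * (5 / 96) ≤ 69 / 100 := by
    norm_num
  linarith

private theorem A_of {R x p : ℝ} (h : Rg R x p) (b : ℝ) {E C c : ℝ}
    (hE : Real.exp (-(sS x p b)) ≤ E) (hC : Real.cos (tT x p b + gam x p) ≤ C)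
    (hC0 : 0 ≤ C) (hc : E * C ≤ c) :
    (x - 2) - c * SS x p ≤ (x - 2) * AA x p b := by
  rw [AA_cos h]
  have hS0 : 0 ≤ SS x p := Real.sqrt_nonneg _
  have he := Real.exp_pos (-(sS x p b))
  have h1 : SS x p * Real.cos (tT x p b + gam x p) ≤ SS x p * C :=
    mul_le_mul_of_nonneg_left hC hS0
  have h2 : Real.exp (-(sS x p b)) * (SS x p * Real.cos (tT x p b + gam x p)) ≤
      Real.exp (-(sS x p b)) * (SS x p * C) := mul_le_mul_of_nonneg_left h1 he.le
  have h3 : Real.exp (-(sS x p b)) * (SS x p * C) ≤ E * (SS x p * C) :=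
    mul_le_mul_of_nonneg_right hE (mul_nonneg hS0 hC0)
  have h4 : E * C * SS x p ≤ c * SS x p := mul_le_mul_of_nonneg_right hc hS0
  linarith

theorem far_small {R x p : ℝ} (h : Rg R x p) {b : ℝ} (hb0 : Real.pi / R ≤ b)
    (hb : b ≤ Real.pi) (hs : sS x p b < sg x) : (hh (zz x p) b).re ≤ -(12 / 1000) := by
  have hx := x_ge h
  have hR := h.hR
  have hp := h.hp
  have hp0 := h.hp0
  have hpi := Real.pi_gt_d6
  have hpi2 := Real.pi_lt_d4
  have hb00 : 0 ≤ b := le_trans (div_nonneg Real.pi_pos.le (by linarith)) hb0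
  have hsg : sg x < x := by
    unfold sg
    split_ifs <;> linarith
  have hc : 0 < x * Real.cos b + p * Real.sin b := by
    unfold sS at hs
    linarith
  have hd := dl_le hR hb00 hb
  have hneg := neg_sS_le h b
  rcases le_or_gt (Real.cos (tT x p b + gam x p)) 0 with hcos | hcos
  · -- case (a)
    have hE : Real.exp (-(sS x p b)) ≤ 233 / 100 :=
      (Real.exp_le_exp.2 (hneg.trans (RmX h))).trans e845
    have hA := A_of h b hE hcos le_rfl (c := 0) (by norm_num)
    refine re_of_num h (c := 0) (k := 333 / 100) (c2 := 9 / 10) (c3 := 2) hA (by linarith) hd ?_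
    exact num h (P := 21 / 8) (x1 := 3655 / 1000) (S1 := 31032 / 10000) (R1 := 9 / 2)
      (E1 := 2587 / 100000) (by norm_num) hp hx le_rfl (by norm_num) (by norm_num) (by norm_num)
      (by norm_num) a02_exp3655 (by norm_num) (by norm_num) (by norm_num) (by norm_num)
      (by norm_num) (by norm_num)
  rcases lt_or_ge (tT x p b + gam x p) (Real.pi / 2) with hω | hω
  · -- case (b)
    have hp9 : p < 9 / 20 := by
      by_contra hcon
      have := om_ge' h hb0 hb hc (not_lt.1 hcon)
      linarith
    have h135 := om_ge h hb0 hb hc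
    have hx1 : 44774 / 10000 ≤ x := x_ge_of_p h hp9.le (by norm_num)
    have hcos1 : Real.cos (tT x p b + gam x p) ≤ 2208 / 10000 := by
      rw [← Real.sin_pi_div_two_sub]
      have := Real.sin_le (x := Real.pi / 2 - (tT x p b + gam x p)) (by linarith)
      linarith
    have hRx : R - x ≤ 226 / 10000 := by
      have h1 : (R - x) * (R + x) = p ^ 2 := by
        have := h.hxp
        linarith
      have h2 : p ^ 2 ≤ (9 / 20) ^ 2 := pow_le_pow_left₀ hp0 hp9.le 2
      have h3 := x_le h
      have h4 : (R - x) * (9 / 2 + 44774 / 10000) ≤ (R - x) * (R + x) :=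
        mul_le_mul_of_nonneg_left (by linarith) (by linarith)
      linarith
    have hE : Real.exp (-(sS x p b)) ≤ 10232 / 10000 :=
      (Real.exp_le_exp.2 (hneg.trans hRx)).trans e226
    have hA := A_of h b hE hcos1 (by norm_num) (c := 226 / 1000) (by norm_num)
    refine re_of_num h (c := 226 / 1000) (k := 203 / 100) (c2 := 9 / 10) (c3 := 2) hA
      (by linarith) hd ?_
    exact num h (P := 9 / 20) (x1 := 44774 / 10000) (S1 := 252 / 100) (R1 := 9 / 2)
      (E1 := 1137 / 100000) (by norm_num) hp9.le hx1 (by norm_num) (by norm_num) (by norm_num)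
      (by norm_num) (by norm_num) e44774 (by norm_num) (by norm_num) (by norm_num) (by norm_num)
      (by norm_num) (by norm_num)
  · -- case (c)
    have homle := om_le h hb00 hb hs
    have h3 : 3 * Real.pi / 2 < tT x p b + gam x p := by
      by_contra hcon
      have := Real.cos_nonpos_of_pi_div_two_le_of_le hω (by linarith : _ ≤ Real.pi + Real.pi / 2)
      linarith
    have hs0 : 0 ≤ sS x p b := by
      by_contra hcon
      have := om_neg h hb00 hb (not_le.1 hcon)
      linarith
    have hE : Real.exp (-(sS x p b)) ≤ 1 := Real.exp_le_one_iff.2 (by linarith)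
    have hcs : Real.cos (tT x p b + gam x p) = Real.sin (tT x p b + gam x p - 3 * Real.pi / 2) := by
      rw [show tT x p b + gam x p - 3 * Real.pi / 2 =
        tT x p b + gam x p + Real.pi / 2 - 2 * Real.pi by ring, Real.sin_sub_two_pi,
        Real.sin_add_pi_div_two]
    have hcle : Real.cos (tT x p b + gam x p) ≤ tT x p b + gam x p - 3 * Real.pi / 2 := by
      rw [hcs]
      exact Real.sin_le (by linarith)
    unfold om at homle
    split_ifs at homle with c1 c2 c3 c4
    · linarith
    · have hA := A_of h b hE (C := 1077 / 10000) (by linarith) (by norm_num)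
        (c := 1077 / 10000) (by norm_num)
      refine re_of_num h (c := 1077 / 10000) (k := 2) (c2 := 9 / 10) (c3 := 2) hA
        (by linarith) hd ?_
      exact num h (P := 21 / 8) (x1 := 385 / 100) (S1 := 32115 / 10000) (R1 := 466 / 100)
        (E1 := 213 / 10000) (by norm_num) hp (not_lt.1 c1) (by norm_num) (by norm_num)
        (by norm_num) (by norm_num) (by norm_num) e385 (by norm_num) (by norm_num)
        (by norm_num) (by norm_num) (by norm_num) (by norm_num)
    · have hA := A_of h b hE (C := 2877 / 10000) (by linarith) (by norm_num)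
        (c := 2877 / 10000) (by norm_num)
      refine re_of_num h (c := 2877 / 10000) (k := 2) (c2 := 9 / 10) (c3 := 2) hA
        (by linarith) hd ?_
      exact num h (P := 21 / 8) (x1 := 42 / 10) (S1 := 34251 / 10000) (R1 := 4953 / 1000)
        (E1 := 15 / 1000) (by norm_num) hp (not_lt.1 c2) (by norm_num) (by norm_num)
        (by norm_num) (by norm_num) (by norm_num) e42 (by norm_num) (by norm_num)
        (by norm_num) (by norm_num) (by norm_num) (by norm_num)
    · have hA := A_of h b hE (C := 4877 / 10000) (by linarith) (by norm_num)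
        (c := 4877 / 10000) (by norm_num)
      refine re_of_num h (c := 4877 / 10000) (k := 2) (c2 := 9 / 10) (c3 := 2) hA
        (by linarith) hd ?_
      exact num h (P := 21 / 8) (x1 := 48 / 10) (S1 := 38381 / 10000) (R1 := 5471 / 1000)
        (E1 := 823 / 100000) (by norm_num) hp (not_lt.1 c3) (by norm_num) (by norm_num)
        (by norm_num) (by norm_num) (by norm_num) e48 (by norm_num) (by norm_num)
        (by norm_num) (by norm_num) (by norm_num) (by norm_num)
    · have hC : Real.cos (tT x p b + gam x p) ≤ 69 / 100 := by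
        rw [hcs]
        refine (Real.sin_le_sin_of_le_of_le_pi_div_two ?_ ?_ ?_).trans sin_7377
        · linarith
        · linarith
        · linarith
      have hA := A_of h b hE hC (by norm_num) (c := 69 / 100) (by norm_num)
      refine re_of_num h (c := 69 / 100) (k := 2) (c2 := 9 / 10) (c3 := 2) hA
        (by linarith) hd ?_
      exact num h (P := 21 / 8) (x1 := 58 / 10) (S1 := 46186 / 10000) (R1 := 63664 / 10000)
        (E1 := 303 / 100000) (by norm_num) hp (not_lt.1 c4) (by norm_num) (by norm_num)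
        (by norm_num) (by norm_num) (by norm_num) e58 (by norm_num) (by norm_num)
        (by norm_num) (by norm_num) (by norm_num) (by norm_num)

end STR
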