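import Pool.Agent.Helper22.SCE.Defs

/-!
# STR: the ring `9/2 <= |z| <= 8` of the circle estimate (MP_3942cb_co, with helper2, helper22)

Same parameters and functions as in `Helper22/SCE` (`z = x - i p`, `s = sS`, `tau = tT`, `AA`,
`gam`, `ww`, `kap`, `uu`, `h0`, `hh`), but with `9/2 <= R = |z| <= 8`, `0 <= p <= 21/8`.
The corner `x = 3.655`, `p = 21/8`, `R = 9/2` is always the worst point; there
`S = |z - 2| = 3.103`, `e^(-x) = 0.02586`, `(R+2)e^(-x) = 0.168`.

Results: `Re hh <= -0.0074` for `1/10 <= |b| <= pi`, `Re hh <= 0` for all `|b| <= pi`, and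
`int_{-pi}^{pi} exp(n hh) = (2 pi/(n kappa))^(1/2) (1 + error)`, `|error| <= 1/4`, `n >= 1000`.
-/

namespace STR

open Complex SCE

/-- the admissible parameters: `R = |z|`, `z = x - i p` -/
structure Rg (R x p : ℝ) : Prop where
  hR : 9 / 2 ≤ R
  hR8 : R ≤ 8
  hp0 : 0 ≤ p
  hp : p ≤ 21 / 8
  hx : 0 < x
  hxp : x ^ 2 + p ^ 2 = R ^ 2

/-- `S = |z - 2|` -/
noncomputable def SS (x p : ℝ) : ℝ := Real.sqrt ((x - 2) ^ 2 + p ^ 2)

/-- the closed form of the rotated ratio `G(z e^(ib))/G(z)` -/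
noncomputable def rr (z : ℂ) (b : ℝ) : ℂ := exp (uu z b) * ww (z * exp (b * I)) / ww z

end STR
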