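import Pool.Agent.Helper8.STR.B05
import Pool.Agent.Helper8.STR.C03
import Pool.Agent.Helper8.STR.D01
import Pool.Agent.Helper8.STR.D06

/-!
# STR-E01: the real part of `hh` on the ring
-/

namespace STR

open Complex SCE

theorem far_pos {R x p : ℝ} (h : Rg R x p) {b : ℝ} (hb0 : Real.pi / R ≤ b) (hb : b ≤ Real.pi) :
    (hh (zz x p) b).re ≤ -(12 / 1000) := by
  have hR : 0 < R := by linarith [h.hR]
  have h0 : 0 ≤ b := le_trans (by positivity) hb0
  rcases le_or_gt (sg x) (sS x p b) with hs | hs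
  · exact far_big h h0 hb hs
  · exact far_small h hb0 hb hs

theorem tenth {R x p : ℝ} (h : Rg R x p) {b : ℝ} (hb : |b| = 1 / 10) :
    (hh (zz x p) b).re ≤ -(74 / 10000) := by
  have hR := h.hR
  have h1 := near h (b := b) (by rw [hb])
  have h2 : b ^ 2 = 1 / 100 := by
    rw [← sq_abs, hb]
    norm_num
  rw [h2] at h1
  linarith

theorem mid_pos {R x p : ℝ} (h : Rg R x p) {b : ℝ} (hb0 : 1 / 10 ≤ b) (hb : b ≤ Real.pi) :
    (hh (zz x p) b).re ≤ -(74 / 10000) := by
  rcases le_or_gt b (Real.pi / R) with h1 | h1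
  · have h2 := mono_pos h (b1 := 1 / 10) (b2 := b) (by norm_num) hb0 h1
    have h3 := tenth h (b := 1 / 10) (by norm_num)
    exact h2.trans h3
  · have := far_pos h h1.le hb
    linarith

theorem mid_neg {R x p : ℝ} (h : Rg R x p) {a : ℝ} (ha0 : 1 / 10 ≤ a) (ha : a ≤ Real.pi) :
    (hh (zz x p) (-a)).re ≤ -(74 / 10000) := by
  rcases le_or_gt a (39 / 100) with h1 | h1
  · have h2 := mono_neg h (a1 := 1 / 10) (a2 := a) (by norm_num) ha0 h1
    have h3 := tenth h (b := -(1 / 10)) (by norm_num)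
    exact h2.trans h3
  · have := far_neg h h1.le ha
    linarith

theorem ring_f {R x p : ℝ} (h : Rg R x p) {b : ℝ} (hb0 : 1 / 10 ≤ |b|) (hb : |b| ≤ Real.pi) :
    (hh (zz x p) b).re ≤ -(74 / 10000) := by
  rcases le_total 0 b with h0 | h0
  · rw [abs_of_nonneg h0] at hb0 hb
    exact mid_pos h hb0 hb
  · rw [abs_of_nonpos h0] at hb0 hb
    have := mid_neg h hb0 hb
    rwa [neg_neg] at this

theorem re_hh_nonpos {R x p : ℝ} (h : Rg R x p) {b : ℝ} (hb : |b| ≤ Real.pi) :
    (hh (zz x p) b).re ≤ 0 := by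
  have hR := h.hR
  rcases le_or_gt |b| (1 / 10) with h1 | h1
  · have h2 := near h h1
    have h3 : 0 ≤ 275 / 1000 * (116 / 100 * R - 252 / 100) * b ^ 2 := by
      have : 0 ≤ 116 / 100 * R - 252 / 100 := by linarith
      positivity
    linarith
  · have := ring_f h h1.le hb
    linarith

end STR
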