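import Pool.Agent.Helper8.STR.C03
import Pool.Agent.Helper22.SCE.M10
import Pool.Agent.Helper22.SCE.M11

/-!
# STR-E02: the central zone
Split `int_{-1/10}^{1/10} = int_0^{1/10} (b) + int_0^{1/10} (-b)` and apply `SCE.central_abs`
(M10, with its parameter `R := 10`) to `h b = hh z b` and to `h b = hh z (-b)`.
`k1 := 1.16 R - 2.52 > 0` (`>= 2.7`), `C = 0.135 k1` (`C R^2 = 13.5 k1 = 15.66 R - 34.02`, C02
`taylor`), `c = 0.0275 k1` (C03 `near`), `k = k1/20` (C01 `kap_re`).  Each half is at most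
`C/(24 n) (1/c^2 + 1/k^2) = 0.135/(24 n k1) (1/0.00075625 + 400) <= 9.69/(n k1)`, so the left side is
`<= sqrt(1.05 n R/(2 pi)) 19.38/(n k1) = 19.38 sqrt(1.05 R/(2 pi n))/k1
<= 19.38 * 0.027425/2.7 <= 0.197` (`n >= 1000`; `R/k1^2` is decreasing in `R >= 9/2`, at `9/2`:
`4.5/7.29`).
(`SCE/M11.lean` has `hh_cont`.)
-/

namespace STR

open Complex SCE

theorem central {R x p n : ℝ} (h : Rg R x p) (hn : 1000 ≤ n) :
    Real.sqrt (105 / 100 * n * R / (2 * Real.pi)) *
      ∫ b in (-(1 / 10) : ℝ)..(1 / 10),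
        ‖exp (n * hh (zz x p) b) - exp (-(n * kap (zz x p) * b ^ 2 / 2))‖ ≤ 198 / 1000 := by
  have hR := h.hR
  have hn0 : 0 < n := by linarith
  set k1 : ℝ := 116 / 100 * R - 252 / 100 with hk1
  have hk1p : 27 / 10 ≤ k1 := by rw [hk1]; linarith
  have hk10 : 0 < k1 := by linarith
  set z := zz x p with hz
  have hcont : Continuous (fun b : ℝ => ‖exp (n * hh z b) - exp (-(n * kap z * b ^ 2 / 2))‖) := by
    have := hh_cont z
    fun_prop
  have hκ : 2 * (k1 / 20) * 10 ≤ (kap z).re := by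
    have := kap_re h
    rw [← hz] at this
    linarith
  have hpos : ∫ b in (0 : ℝ)..(1 / 10),
      ‖exp (n * hh z b) - exp (-(n * kap z * b ^ 2 / 2))‖ ≤
      (135 / 1000 * k1) / (24 * n) * (1 / (275 / 10000 * k1) ^ 2 + 1 / (k1 / 20) ^ 2) := by
    refine central_abs hn0 (by norm_num) (by positivity) (by positivity) (by positivity)
      (hh_cont z).continuousOn ?_ ?_ hκ
    · intro b hb
      have hb' : |b| ≤ 1 / 10 := by rw [abs_of_nonneg hb.1]; exact hb.2
      have := taylor h hb'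
      rw [abs_of_nonneg hb.1] at this
      refine this.trans (le_of_eq ?_)
      rw [hk1]; ring
    · intro b hb
      have hb' : |b| ≤ 1 / 10 := by rw [abs_of_nonneg hb.1]; exact hb.2
      have := near h hb'
      refine this.trans (le_of_eq ?_)
      rw [hk1]; ring
  have hneg : ∫ b in (0 : ℝ)..(1 / 10),
      ‖exp (n * hh z (-b)) - exp (-(n * kap z * b ^ 2 / 2))‖ ≤
      (135 / 1000 * k1) / (24 * n) * (1 / (275 / 10000 * k1) ^ 2 + 1 / (k1 / 20) ^ 2) := by
    refine central_abs (h := fun b => hh z (-b)) hn0 (by norm_num) (by positivity) (by positivity)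
      (by positivity) ((hh_cont z).comp continuous_neg).continuousOn ?_ ?_ hκ
    · intro b hb
      have hb' : |(-b)| ≤ 1 / 10 := by rw [abs_neg, abs_of_nonneg hb.1]; exact hb.2
      have := taylor h hb'
      rw [abs_neg, abs_of_nonneg hb.1] at this
      have h3 : (((-b : ℝ) : ℂ)) ^ 2 = (b : ℂ) ^ 2 := by push_cast; ring
      rw [h3] at this
      refine this.trans (le_of_eq ?_)
      rw [hk1]; ring
    · intro b hb
      have hb' : |(-b)| ≤ 1 / 10 := by rw [abs_neg, abs_of_nonneg hb.1]; exact hb.2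
      have := near h hb'
      refine this.trans (le_of_eq ?_)
      rw [hk1]; ring
  have hsplit : ∫ b in (-(1 / 10) : ℝ)..(1 / 10),
      ‖exp (n * hh z b) - exp (-(n * kap z * b ^ 2 / 2))‖ =
      (∫ b in (0 : ℝ)..(1 / 10), ‖exp (n * hh z (-b)) - exp (-(n * kap z * b ^ 2 / 2))‖) +
      ∫ b in (0 : ℝ)..(1 / 10), ‖exp (n * hh z b) - exp (-(n * kap z * b ^ 2 / 2))‖ := by
    rw [← intervalIntegral.integral_add_adjacent_intervals
      (hcont.intervalIntegrable (-(1 / 10)) 0) (hcont.intervalIntegrable 0 (1 / 10))]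
    congr 1
    have := intervalIntegral.integral_comp_neg (a := 0) (b := 1 / 10)
      (fun b : ℝ => ‖exp (n * hh z b) - exp (-(n * kap z * b ^ 2 / 2))‖)
    rw [neg_zero] at this
    rw [← this]
    refine intervalIntegral.integral_congr ?_
    intro b _
    simp only
    have h3 : (((-b : ℝ) : ℂ)) ^ 2 = (b : ℂ) ^ 2 := by push_cast; ring
    rw [h3]
  rw [hsplit]
  have hA : (135 / 1000 * k1) / (24 * n) * (1 / (275 / 10000 * k1) ^ 2 + 1 / (k1 / 20) ^ 2) =
      (135 / 1000 / 24 * (1 / (275 / 10000) ^ 2 + 400)) / (n * k1) := by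
    field_simp
    norm_num
  rw [hA] at hpos hneg
  have hB : (135 / 1000 / 24 * (1 / (275 / 10000) ^ 2 + 400) : ℝ) ≤ 969 / 100 := by norm_num
  have hnk : 0 < n * k1 := by positivity
  have hB' : (135 / 1000 / 24 * (1 / (275 / 10000) ^ 2 + 400)) / (n * k1) ≤ (969 / 100) / (n * k1) := by
    gcongr
  have hs : Real.sqrt (105 / 100 * n * R / (2 * Real.pi)) ≤ 10216 / 1000000 * (n * k1) := by
    apply Real.sqrt_le_iff.mpr
    refine ⟨by positivity, ?_⟩
    have hpi := Real.pi_gt_d4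
    rw [div_le_iff₀ (by positivity)]
    have h1 : 105 / 100 * R ≤ (10216 / 1000000) ^ 2 * 1000 * k1 ^ 2 * (2 * (31415 / 10000)) := by
      rw [hk1]
      nlinarith [mul_nonneg (show (0 : ℝ) ≤ R - 9 / 2 by linarith) (show (0 : ℝ) ≤ R by linarith)]
    have h2 : (10216 / 1000000) ^ 2 * 1000 * k1 ^ 2 * (2 * (31415 / 10000)) ≤
        (10216 / 1000000) ^ 2 * n * k1 ^ 2 * (2 * Real.pi) := by
      gcongr
      linarith
    have h3 : n * (105 / 100 * R) ≤ n * ((10216 / 1000000) ^ 2 * n * k1 ^ 2 * (2 * Real.pi)) :=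
      mul_le_mul_of_nonneg_left (h1.trans h2) hn0.le
    calc 105 / 100 * n * R = n * (105 / 100 * R) := by ring
      _ ≤ n * ((10216 / 1000000) ^ 2 * n * k1 ^ 2 * (2 * Real.pi)) := h3
      _ = _ := by ring
  have hI : (∫ b in (0 : ℝ)..(1 / 10), ‖exp (n * hh z (-b)) - exp (-(n * kap z * b ^ 2 / 2))‖) +
      (∫ b in (0 : ℝ)..(1 / 10), ‖exp (n * hh z b) - exp (-(n * kap z * b ^ 2 / 2))‖) ≤
      (1938 / 100) / (n * k1) := by
    have : (969 / 100) / (n * k1) + (969 / 100) / (n * k1) = (1938 / 100) / (n * k1) := by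
      rw [← add_div]; norm_num
    linarith
  have hI0 : 0 ≤ (1938 / 100) / (n * k1) := by positivity
  calc Real.sqrt (105 / 100 * n * R / (2 * Real.pi)) * _
      ≤ Real.sqrt (105 / 100 * n * R / (2 * Real.pi)) * ((1938 / 100) / (n * k1)) :=
        mul_le_mul_of_nonneg_left hI (Real.sqrt_nonneg _)
    _ ≤ 10216 / 1000000 * (n * k1) * ((1938 / 100) / (n * k1)) :=
        mul_le_mul_of_nonneg_right hs hI0
    _ = 10216 / 1000000 * (1938 / 100) := by field_simp
    _ ≤ 198 / 1000 := by norm_num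

end STR
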